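import Pool.Agent.Run7.h792.FL.Scale

/-! Densities and the central limit law in flat sets of residues, at one scale. -/

set_option autoImplicit false

namespace Pool.Agent.Run7.h792.FL

open Finset Filter Topology Pool.Agent.Y965.PL Pool.Agent.Run7.h439.DC
open Pool.Agent.H499R2.HL (H H_unique)
open Pool.Agent.H499R2.LT (odn)

variable {N : ℕ} {E : ℕ → Prop} {ρ κ : ℝ}

theorem small {C c v τ : ℝ} (hv : v < c) (hτ : 0 < τ) : ∀ᶠ N : ℕ in atTop,
    ∀ ρ : ℝ, (N : ℝ) ^ (-v) ≤ ρ → C * (N : ℝ) ^ (1 - c) ≤ τ * (ρ * N) := by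
  have t : Tendsto (fun x : ℝ => x ^ (c - v)) atTop atTop := tendsto_rpow_atTop (by linarith)
  have t' := t.comp (tendsto_natCast_atTop_atTop (R := ℝ))
  filter_upwards [t'.eventually_ge_atTop (C / τ), eventually_ge_atTop 1] with N hN hN1 ρ hρ
  have hx0 : (0 : ℝ) < N := by exact_mod_cast hN1
  simp only [Function.comp_apply] at hN
  rw [div_le_iff₀ hτ] at hN
  calc C * (N : ℝ) ^ (1 - c) ≤ ((N : ℝ) ^ (c - v) * τ) * (N : ℝ) ^ (1 - c) := by gcongr
    _ = τ * ((N : ℝ) ^ (c - v) * (N : ℝ) ^ (1 - c)) := by ring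
    _ = τ * ((N : ℝ) ^ (-v) * N) := by
        congr 1
        rw [← Real.rpow_add hx0, ← Real.rpow_add_one hx0.ne']
        congr 1; ring
    _ ≤ τ * (ρ * N) := by gcongr

/-- a mean value -/
theorem dens {F : ℕ → ℝ} {L : ℝ} (hL : Mn F L) {C c v : ℝ} (hv : v < c) {τ : ℝ} (hτ : 0 < τ) :
    ∀ᶠ N : ℕ in atTop, ∀ (E : ℕ → Prop) (ρ : ℝ), (N : ℝ) ^ (-v) ≤ ρ → TS N E ρ (C * (N : ℝ) ^ (1 - c)) F →
      |∑ n ∈ Icc 1 N, ind E n * F n - L * (ρ * N)| ≤ τ * (ρ * N) := by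
  unfold Mn at hL
  have h1 := (Metric.tendsto_nhds.1 hL) (τ / 2) (by positivity)
  filter_upwards [h1, small (C := C) hv (show 0 < τ / 2 by positivity), eventually_ge_atTop 1] with N g1 g2 hN1 E ρ hρ hT
  have hx0 : (0 : ℝ) < N := by exact_mod_cast hN1
  have hρ0 : 0 < ρ := lt_of_lt_of_le (by positivity) hρ
  have h2 := hT.tr N le_rfl
  have h3 := g2 ρ hρ
  rw [Real.dist_eq] at g1
  have h4 : |∑ m ∈ Icc 1 N, F m - L * N| ≤ τ / 2 * N := by
    have e : (∑ m ∈ Icc 1 N, F m) / N - L = (∑ m ∈ Icc 1 N, F m - L * N) / N := by field_simp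
    rw [e, abs_div, abs_of_pos hx0, div_lt_iff₀ hx0] at g1
    exact g1.le
  have h5 : |ρ * ∑ m ∈ Icc 1 N, F m - L * (ρ * N)| ≤ τ / 2 * (ρ * N) := by
    have e : ρ * ∑ m ∈ Icc 1 N, F m - L * (ρ * N) = ρ * (∑ m ∈ Icc 1 N, F m - L * N) := by ring
    rw [e, abs_mul, abs_of_pos hρ0]
    calc ρ * |∑ m ∈ Icc 1 N, F m - L * N| ≤ ρ * (τ / 2 * N) := by gcongr
      _ = _ := by ring
  have e6 : ∑ n ∈ Icc 1 N, ind E n * F n - L * (ρ * N) =
      (∑ n ∈ Icc 1 N, ind E n * F n - ρ * ∑ m ∈ Icc 1 N, F m) + (ρ * ∑ m ∈ Icc 1 N, F m - L * (ρ * N)) := by ring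
  rw [e6]
  refine (abs_add_le _ _).trans ?_
  linarith

/-- the integers with infinite total stopping time -/
theorem Mn_inf {δ : ℝ} (h5 : Mn (ind (fun n => True ∧ ∃ k, H k n)) δ) : Mn (Fg (fun _ _ => 0) 1) (1 - δ) := by
  have e : ∀ n, Fg (fun _ _ => (0 : ℝ)) 1 n = 1 - ind (fun n => True ∧ ∃ k, H k n) n := by
    intro n
    by_cases hn : ∃ k, H k n
    · obtain ⟨k, hk⟩ := hn
      rw [Fg_H hk, ind_pos (P := fun n => True ∧ ∃ k, H k n) ⟨trivial, k, hk⟩, sub_self]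
    · rw [Fg_not hn, ind_neg (P := fun n => True ∧ ∃ k, H k n) (fun h => hn h.2), sub_zero]
  unfold Mn at *
  have h6 : Tendsto (fun _ : ℕ => (1 : ℝ)) atTop (𝓝 1) := tendsto_const_nhds
  refine (h6.sub h5).congr' ?_
  filter_upwards [eventually_ge_atTop 1] with N hN
  have hx0 : (N : ℝ) ≠ 0 := by
    have : (0 : ℝ) < N := by exact_mod_cast hN
    exact this.ne'
  rw [sum_congr rfl (fun n _ => e n), sum_sub_distrib, sum_const, Nat.card_Icc, Nat.add_sub_cancel, nsmul_eq_mul, mul_one]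
  field_simp

/-- levels of an integer valued function `V` of the total stopping time and the number of odd terms -/
def Hv (V : ℕ → ℕ → ℕ) (cls : ℕ → ℕ → Prop) (j n : ℕ) : Prop := ∃ k, H k n ∧ V k (odn k n) = j ∧ cls k (odn k n)

theorem Hv_unique {V : ℕ → ℕ → ℕ} {cls : ℕ → ℕ → Prop} {i j n : ℕ} (h1 : Hv V cls i n) (h2 : Hv V cls j n) : i = j := by
  obtain ⟨k, a1, a2, _⟩ := h1
  obtain ⟨k', b1, b2, _⟩ := h2
  have := H_unique a1 b1
  subst this
  rw [← a2, ← b2]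

open Classical in
/-- one level -/
theorem TSA.levV (h : TSA N E ρ κ) (V : ℕ → ℕ → ℕ) (cls : ℕ → ℕ → Prop) (j : ℕ) : TS N E ρ κ (ind (Hv V cls j)) := by
  refine (h.fg (g := fun k o => if V k o = j ∧ cls k o then 1 else 0) (g0 := 0) ?_ (by simp)).congr fun n => ?_
  · intro k o
    split_ifs <;> simp
  · by_cases hn : ∃ k, H k n
    · obtain ⟨k, hk⟩ := hn
      rw [Fg_H hk]
      by_cases hkt : V k (odn k n) = j ∧ cls k (odn k n)
      · rw [if_pos hkt, ind_pos ⟨k, hk, hkt⟩]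
      · rw [if_neg hkt, ind_neg]
        rintro ⟨k', h1, h2⟩
        rw [H_unique h1 hk] at h2
        exact hkt h2
    · rw [Fg_not hn, ind_neg]
      rintro ⟨k', h1, _⟩
      exact hn ⟨k', h1⟩

open Classical in
theorem ind_sumV {V : ℕ → ℕ → ℕ} {cls : ℕ → ℕ → Prop} {Q : ℕ → ℕ → Prop} (T n : ℕ) :
    ind (fun n => ∃ j < T, Hv V cls j n ∧ Q j n) n = ∑ j ∈ range T, ind (Hv V cls j) n * ind (Q j) n := by
  by_cases h : ∃ t < T, Hv V cls t n
  · obtain ⟨t, ht, h1⟩ := h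
    rw [sum_eq_single_of_mem t (mem_range.2 ht) (fun t' _ hne => by
      rw [ind_neg (fun h2 => hne (Hv_unique h2 h1)), zero_mul]), ind_pos h1, one_mul]
    apply ind_congr
    constructor
    · rintro ⟨t', _, h3, h4⟩
      rwa [Hv_unique h3 h1] at h4
    · intro h3; exact ⟨t, ht, h1, h3⟩
  · rw [ind_neg (P := fun n => ∃ j < T, Hv V cls j n ∧ Q j n) (fun ⟨t, ht, h1, _⟩ => h ⟨t, ht, h1⟩), sum_eq_zero]
    intro t ht
    rw [ind_neg (fun h2 => h ⟨t, mem_range.1 ht, h2⟩), zero_mul]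

theorem TSA.thrV (h : TSA N E ρ κ) (V : ℕ → ℕ → ℕ) (cls : ℕ → ℕ → Prop) {Q : ℕ → ℕ → Prop}
    (hQ : ∀ t n n', n ≤ n' → Q t n → Q t n') (T : ℕ) {X : ℕ} (hX : X ≤ N) :
    |∑ n ∈ Icc 1 X, ind E n * ind (fun n => ∃ j < T, Hv V cls j n ∧ Q j n) n
      - ρ * ∑ n ∈ Icc 1 X, ind (fun n => ∃ j < T, Hv V cls j n ∧ Q j n) n| ≤ T * (2 * κ) := by
  have h1 := FL.thr (F := fun t _ n => ind (Hv V cls t) n) (T := T) (fun t _ => h.levV V cls t) hQ hX
  simp only [ind_sumV]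
  exact h1

theorem th_mono {A b x : ℝ} (hA : 0 < A) : ∃ n1 : ℕ, ∀ n n' : ℕ, n1 ≤ n → n ≤ n' → th A b x n ≤ th A b x n' := by
  have t := tsqrt
  obtain ⟨n1, h1⟩ := (t.eventually_ge_atTop (|x * b| / A)).exists_forall_of_atTop
  refine ⟨max n1 1, fun n n' hn hnn => ?_⟩
  have hn1 := h1 n ((le_max_left _ _).trans hn)
  have hpos : 1 ≤ n := (le_max_right _ _).trans hn
  have hlog : Real.log n ≤ Real.log n' := Real.log_le_log (by exact_mod_cast hpos) (by exact_mod_cast hnn)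
  have hs : √ (Real.log n) ≤ √ (Real.log n') := Real.sqrt_le_sqrt hlog
  have e1 : Real.log n = √ (Real.log n) * √ (Real.log n) := (Real.mul_self_sqrt (Real.log_natCast_nonneg n)).symm
  have e2 : Real.log n' = √ (Real.log n') * √ (Real.log n') := (Real.mul_self_sqrt (Real.log_natCast_nonneg n')).symm
  unfold th
  rw [e1, e2]
  set a := √ (Real.log n)
  set a' := √ (Real.log n')
  rw [div_le_iff₀ hA] at hn1
  have ha : 0 ≤ a := Real.sqrt_nonneg _
  have h3 : -(x * b) ≤ |x * b| := neg_le_abs _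
  have h4 : 0 ≤ (a' - a) * (A * (a' + a) + x * b) := by
    apply mul_nonneg (by linarith)
    nlinarith
  rw [Real.sqrt_mul_self ha, Real.sqrt_mul_self (ha.trans hs)]
  nlinarith

/-- THE LAW: the share of the flat sets -/
theorem law {V : ℕ → ℕ → ℕ} {cls : ℕ → ℕ → Prop} {A b x L : ℝ} (hA : 0 < A)
    (hL : Mn (ind (Lv (fun k o => (V k o : ℝ)) cls (th A b x))) L) {C c v : ℝ} (hC : 0 ≤ C) (hv : v < c) (hc1 : c ≤ 1)
    {τ : ℝ} (hτ : 0 < τ) :
    ∀ᶠ N : ℕ in atTop, ∀ (E : ℕ → Prop) (ρ : ℝ), (N : ℝ) ^ (-v) ≤ ρ → ρ ≤ 1 → TSA N E ρ (C * (N : ℝ) ^ (1 - c)) →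
      |∑ n ∈ Icc 1 N, ind E n * ind (Lv (fun k o => (V k o : ℝ)) cls (th A b x)) n - L * (ρ * N)| ≤ τ * (ρ * N) := by
  obtain ⟨n1, hn1⟩ := th_mono (b := b) (x := x) hA
  set B : ℝ := A + |x * b| with hB
  have hB0 : 0 < B := by positivity
  set v' : ℝ := (v + c) / 2 with hv'
  have hth : ∀ N n : ℕ, 3 ≤ N → 1 ≤ n → n ≤ N → th A b x n ≤ B * Real.log N := by
    intro N n hN hn hnN
    have hl : Real.log n ≤ Real.log N := Real.log_le_log (by exact_mod_cast hn) (by exact_mod_cast hnN)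
    have hl0 : 0 ≤ Real.log n := Real.log_natCast_nonneg n
    have hl1 : 1 ≤ Real.log N := by
      rw [Real.le_log_iff_exp_le (by positivity)]
      have : (3 : ℝ) ≤ N := by exact_mod_cast hN
      exact (Real.exp_one_lt_d9.le.trans (by norm_num)).trans this
    have hs : √ (Real.log n) ≤ Real.log N := by
      refine (Real.sqrt_le_sqrt hl).trans ?_
      rw [Real.sqrt_le_left (by linarith)]
      nlinarith
    unfold th
    have h1 : x * (b * √ (Real.log n)) ≤ |x * b| * Real.log N := by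
      rw [← mul_assoc]
      exact mul_le_mul (le_abs_self _) hs (Real.sqrt_nonneg _) (abs_nonneg _)
    rw [hB]
    nlinarith
  unfold Mn at hL
  have g0 := (Metric.tendsto_nhds.1 hL) (τ / 4) (by positivity)
  have hlogsmall : ∀ᶠ N : ℕ in atTop, B * Real.log N + 1 ≤ (N : ℝ) ^ ((c - v) / 2) := by
    have h1 : (fun x : ℝ => B * Real.log x + 1) =o[atTop] fun x : ℝ => x ^ ((c - v) / 2) := by
      apply Asymptotics.IsLittleO.add
      · exact (isLittleO_log_rpow_atTop (by linarith)).const_mul_left _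
      · exact Asymptotics.isLittleO_const_left.2 (Or.inr (tendsto_norm_atTop_atTop.comp (tendsto_rpow_atTop (by linarith))))
    have h2 := (h1.bound (show (0:ℝ) < 1 by norm_num))
    have h3 := tendsto_natCast_atTop_atTop (R := ℝ) |>.eventually h2
    filter_upwards [h3] with N hN
    rw [one_mul, Real.norm_eq_abs, Real.norm_eq_abs, abs_of_nonneg (show (0:ℝ) ≤ (N : ℝ) ^ ((c - v) / 2) by positivity)] at hN
    exact (le_abs_self _).trans hN
  filter_upwards [g0, small (C := 2 * C) (show v < (v + c) / 2 by linarith) (show 0 < τ / 4 by positivity),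
    small (C := 2 * n1) (show v < c by linarith) (show 0 < τ / 4 by positivity), hlogsmall, eventually_ge_atTop 3] with N g1 g2 g3 g4 hN3 E ρ hρ hρ1 hT
  have hN1 : 1 ≤ N := by omega
  have hNr : (1 : ℝ) ≤ N := by exact_mod_cast hN1
  have hx0 : (0 : ℝ) < N := by linarith
  have hρ0 : 0 < ρ := lt_of_lt_of_le (by positivity) hρ
  set P : ℕ → Prop := Lv (fun k o => (V k o : ℝ)) cls (th A b x) with hP
  set T : ℕ := ⌊B * Real.log N⌋₊ + 1 with hTdef
  set Q : ℕ → ℕ → Prop := fun j n => n1 ≤ n ∧ (j : ℝ) ≤ th A b x n with hQ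
  have h1 := hT.thrV V cls (Q := Q) (fun t n n' hn hh => ⟨hh.1.trans hn, hh.2.trans (hn1 n n' hh.1 hn)⟩) T le_rfl
  set P' : ℕ → Prop := fun n => ∃ j < T, Hv V cls j n ∧ Q j n with hP'
  have hPP : ∀ n ∈ Icc 1 N, P' n ↔ (n1 ≤ n ∧ P n) := by
    intro n hn
    rw [mem_Icc] at hn
    constructor
    · rintro ⟨j, _, ⟨k, a1, a2, a3⟩, b1, b2⟩
      refine ⟨b1, k, a1, ?_, a3⟩
      change ((V k (odn k n) : ℕ) : ℝ) ≤ th A b x n
      rw [a2]; exact b2
    · rintro ⟨b1, k, a1, a2, a3⟩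
      refine ⟨V k (odn k n), ?_, ⟨k, a1, rfl, a3⟩, b1, a2⟩
      rw [hTdef]
      exact Nat.lt_succ_of_le (Nat.le_floor (a2.trans (hth N n hN3 hn.1 hn.2)))
  have hdiff : ∀ w : ℕ → ℝ, (∀ n, 0 ≤ w n ∧ w n ≤ 1) →
      |∑ n ∈ Icc 1 N, w n * ind P n - ∑ n ∈ Icc 1 N, w n * ind P' n| ≤ n1 := by
    intro w hw
    rw [← sum_sub_distrib]
    refine (abs_sum_le_sum_abs _ _).trans ?_
    have h2 : ∀ n ∈ Icc 1 N, |w n * ind P n - w n * ind P' n| ≤ if n < n1 then (1 : ℝ) else 0 := by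
      intro n hn
      by_cases h3 : n < n1
      · rw [if_pos h3, ind_neg (P := P') (fun h4 => by have := ((hPP n hn).1 h4).1; omega), mul_zero, sub_zero, abs_mul,
          abs_of_nonneg (hw n).1]
        exact mul_le_one₀ (hw n).2 (abs_nonneg _) (ind_abs P n)
      · rw [if_neg h3]
        have : ind P n = ind P' n := by
          apply ind_congr
          rw [hPP n hn]
          constructor
          · intro h4; exact ⟨by omega, h4⟩
          · intro h4; exact h4.2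
        rw [this, sub_self, abs_zero]
    refine (sum_le_sum h2).trans ?_
    rw [Finset.sum_boole]
    have : ((Icc 1 N).filter (fun n => n < n1)).card ≤ n1 := by
      calc ((Icc 1 N).filter (fun n => n < n1)).card ≤ (range n1).card := card_le_card fun n hn => by
            rw [mem_filter] at hn; exact mem_range.2 hn.2
        _ = n1 := card_range _
    exact_mod_cast this
  have d1 := hdiff (ind E) (fun n => ⟨ind_nonneg _ _, ind_le_one _ _⟩)
  have d2 := hdiff (fun _ => 1) (fun n => ⟨by norm_num, le_rfl⟩)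
  simp only [one_mul] at d2
  have hT2 : (T : ℝ) * (2 * (C * (N : ℝ) ^ (1 - c))) ≤ τ / 4 * (ρ * N) := by
    have h3 : (T : ℝ) ≤ (N : ℝ) ^ ((c - v) / 2) := by
      refine le_trans ?_ g4
      rw [hTdef]
      push_cast
      have := Nat.floor_le (show 0 ≤ B * Real.log N by have := Real.log_natCast_nonneg N; positivity)
      linarith
    have h5 : (N : ℝ) ^ ((c - v) / 2) * (N : ℝ) ^ (1 - c) = (N : ℝ) ^ (1 - (v + c) / 2) := by
      rw [← Real.rpow_add hx0]; congr 1; ring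
    calc (T : ℝ) * (2 * (C * (N : ℝ) ^ (1 - c))) ≤ (N : ℝ) ^ ((c - v) / 2) * (2 * (C * (N : ℝ) ^ (1 - c))) := by gcongr
      _ = 2 * C * ((N : ℝ) ^ ((c - v) / 2) * (N : ℝ) ^ (1 - c)) := by ring
      _ = 2 * C * (N : ℝ) ^ (1 - (v + c) / 2) := by rw [h5]
      _ ≤ _ := g2 ρ hρ
  have hn1s : 2 * (n1 : ℝ) ≤ τ / 4 * (ρ * N) := by
    have h3 := g3 ρ hρ
    have h4 : (1 : ℝ) ≤ (N : ℝ) ^ (1 - c) := Real.one_le_rpow hNr (by linarith)
    have h5 : (0 : ℝ) ≤ n1 := Nat.cast_nonneg _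
    nlinarith
  have h6 : |ρ * ∑ m ∈ Icc 1 N, ind P m - L * (ρ * N)| ≤ τ / 4 * (ρ * N) := by
    rw [Real.dist_eq] at g1
    have h4 : |∑ m ∈ Icc 1 N, ind P m - L * N| ≤ τ / 4 * N := by
      have e : (∑ m ∈ Icc 1 N, ind P m) / N - L = (∑ m ∈ Icc 1 N, ind P m - L * N) / N := by field_simp
      rw [e, abs_div, abs_of_pos hx0, div_lt_iff₀ hx0] at g1
      exact g1.le
    have e : ρ * ∑ m ∈ Icc 1 N, ind P m - L * (ρ * N) = ρ * (∑ m ∈ Icc 1 N, ind P m - L * N) := by ring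
    rw [e, abs_mul, abs_of_pos hρ0]
    calc ρ * |∑ m ∈ Icc 1 N, ind P m - L * N| ≤ ρ * (τ / 4 * N) := by gcongr
      _ = _ := by ring
  have h7 : |ρ * ∑ m ∈ Icc 1 N, ind P m - ρ * ∑ m ∈ Icc 1 N, ind P' m| ≤ n1 := by
    rw [← mul_sub, abs_mul, abs_of_pos hρ0]
    calc ρ * |∑ m ∈ Icc 1 N, ind P m - ∑ m ∈ Icc 1 N, ind P' m| ≤ 1 * n1 := by gcongr
      _ = n1 := one_mul _
  rw [abs_le] at *
  obtain ⟨a1, a2⟩ := h1
  obtain ⟨b1, b2⟩ := d1
  obtain ⟨c1, c2⟩ := h6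
  obtain ⟨e1, e2⟩ := h7
  constructor <;> linarith

end Pool.Agent.Run7.h792.FL
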