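import Pool.Agent.Run7.h792.FL.Scale

/-! Functions with period `q` with small Fourier coefficients, in plain terms; examples. -/

set_option autoImplicit false

namespace Pool.Agent.Run7.h792.FL

open Finset

/-- `f` has period `q`, values of modulus at most `1`, and its Fourier coefficients at the nonzero
frequencies have modulus at most `q ^ (1 / 2 + η)`. -/
structure FlatP (q : ℕ) (η : ℝ) (f : ℕ → ℂ) : Prop where
  bounded : ∀ n, ‖f n‖ ≤ 1
  periodic : ∀ n, f (n + q) = f n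
  fourier : ∀ h : ℕ, 0 < h → h < q →
    ‖∑ a ∈ range q, f a * Complex.exp (2 * Real.pi * Complex.I * (h * a) / q)‖ ≤ (q : ℝ) ^ (1 / 2 + η)

/-- the mean value -/
noncomputable def meanP (q : ℕ) (f : ℕ → ℂ) : ℂ := (∑ a ∈ range q, f a) / q

theorem sum_val {q : ℕ} [NeZero q] {M : Type*} [AddCommMonoid M] (g : ℕ → M) : ∑ x : ZMod q, g x.val = ∑ a ∈ range q, g a := by
  refine Finset.sum_bij' (fun x _ => x.val) (fun a _ => (a : ZMod q)) ?_ ?_ ?_ ?_ ?_
  · intro x _; exact mem_range.2 (ZMod.val_lt x)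
  · intro a _; exact mem_univ _
  · intro x _; exact ZMod.natCast_zmod_val x
  · intro a ha; exact ZMod.val_cast_of_lt (mem_range.1 ha)
  · intro x _; rfl

theorem char_eq {q : ℕ} [NeZero q] (h a : ℕ) : (ZMod.stdAddChar ((h : ZMod q) * (a : ZMod q)) : ℂ) =
    Complex.exp (2 * Real.pi * Complex.I * (h * a) / q) := by
  have h1 := ZMod.stdAddChar_coe (N := q) (h * a : ℤ)
  push_cast at h1
  exact h1

theorem per_mod {q : ℕ} {f : ℕ → ℂ} (hf : ∀ n, f (n + q) = f n) (n : ℕ) : f (n % q) = f n := by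
  have h1 : ∀ k m : ℕ, f (m + q * k) = f m := by
    intro k
    induction k with
    | zero => intro m; simp
    | succ k ih =>
      intro m
      rw [Nat.mul_succ, ← Nat.add_assoc, hf, ih]
  have h2 := h1 (n / q) (n % q)
  rw [Nat.mod_add_div] at h2
  exact h2.symm

/-- the function on the residues -/
noncomputable def fz (q : ℕ) (f : ℕ → ℂ) (x : ZMod q) : ℂ := f x.val

theorem fz_cast {q : ℕ} [NeZero q] {f : ℕ → ℂ} (hf : ∀ n, f (n + q) = f n) (n : ℕ) : fz q f (n : ZMod q) = f n := by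
  unfold fz
  rw [ZMod.val_natCast, per_mod hf]

theorem ft_plain {q : ℕ} [NeZero q] (g : ZMod q → ℂ) (h : ℕ) :
    ft g (h : ZMod q) = ∑ a ∈ range q, g (a : ZMod q) * Complex.exp (2 * Real.pi * Complex.I * (h * a) / q) := by
  unfold ft
  rw [← sum_val (q := q) (fun a => g (a : ZMod q) * Complex.exp (2 * Real.pi * Complex.I * (h * a) / q))]
  apply sum_congr rfl
  intro x _
  rw [← char_eq, ZMod.natCast_zmod_val]

theorem FlatP.flatF {q : ℕ} [NeZero q] {η : ℝ} {f : ℕ → ℂ} (h : FlatP q η f) : FlatF q η (fz q f) := by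
  refine ⟨fun x => h.bounded _, fun ξ hξ => ?_⟩
  have h0 : 0 < ξ.val := by
    rw [Nat.pos_iff_ne_zero]
    intro h1
    exact hξ ((ZMod.val_eq_zero ξ).1 h1)
  have h2 := h.fourier ξ.val h0 (ZMod.val_lt ξ)
  have h3 := ft_plain (fz q f) ξ.val
  rw [ZMod.natCast_zmod_val] at h3
  rw [h3]
  refine le_trans (le_of_eq ?_) h2
  congr 1
  apply sum_congr rfl
  intro a _
  rw [fz_cast h.periodic]

theorem mean_fz {q : ℕ} [NeZero q] (f : ℕ → ℂ) : mean (fz q f) = meanP q f := by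
  unfold mean meanP fz
  rw [sum_val (q := q) f]

theorem FlatF.flatP {q : ℕ} [NeZero q] {η : ℝ} {g : ZMod q → ℂ} (h : FlatF q η g) : FlatP q η (fun n => g n) := by
  refine ⟨fun n => h.1 _, fun n => by push_cast; rw [ZMod.natCast_self, add_zero], fun k hk1 hk2 => ?_⟩
  have h1 : (k : ZMod q) ≠ 0 := by
    intro h2
    rw [ZMod.natCast_eq_zero_iff] at h2
    exact absurd (Nat.le_of_dvd hk1 h2) (not_le.2 hk2)
  have h2 := h.2 _ h1
  rw [ft_plain] at h2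
  exact h2

theorem meanP_cast {q : ℕ} [NeZero q] (g : ZMod q → ℂ) : meanP q (fun n => g n) = mean g := by
  unfold mean meanP
  rw [← sum_val (q := q) (fun a => g (a : ZMod q))]
  congr 1
  apply sum_congr rfl
  intro x _
  rw [ZMod.natCast_zmod_val]

/-! ### sets -/

/-- `A ⊂ {0, ..., q - 1}`, and the indicator function of the integers congruent to an element of `A` is flat -/
def FlatI (q : ℕ) (η : ℝ) (A : Finset ℕ) : Prop := A ⊆ range q ∧ FlatP q η (fun n => if n % q ∈ A then 1 else 0)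

open Classical in
/-- the residues -/
noncomputable def res (q : ℕ) (A : Finset ℕ) : Finset (ZMod q) := A.image (fun a : ℕ => (a : ZMod q))

theorem mem_res {q : ℕ} [NeZero q] {A : Finset ℕ} (hA : A ⊆ range q) (n : ℕ) : ((n : ℕ) : ZMod q) ∈ res q A ↔ n % q ∈ A := by
  classical
  unfold res
  rw [mem_image]
  constructor
  · rintro ⟨a, ha, h⟩
    have h1 : a % q = n % q := (ZMod.natCast_eq_natCast_iff' a n q).1 h
    rw [← h1, Nat.mod_eq_of_lt (mem_range.1 (hA ha))]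
    exact ha
  · intro h
    exact ⟨n % q, h, by rw [ZMod.natCast_mod]⟩

theorem card_res {q : ℕ} [NeZero q] {A : Finset ℕ} (hA : A ⊆ range q) : (res q A).card = A.card := by
  classical
  unfold res
  apply card_image_of_injOn
  intro a ha b hb hab
  have h1 : a % q = b % q := (ZMod.natCast_eq_natCast_iff' a b q).1 hab
  rwa [Nat.mod_eq_of_lt (mem_range.1 (hA ha)), Nat.mod_eq_of_lt (mem_range.1 (hA hb))] at h1

theorem fz_one {q : ℕ} [NeZero q] {A : Finset ℕ} (hA : A ⊆ range q) :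
    fz q (fun n => if n % q ∈ A then 1 else 0) = one (res q A) := by
  funext x
  unfold fz one
  have h1 := mem_res hA x.val
  rw [ZMod.natCast_zmod_val] at h1
  change (if x.val % q ∈ A then (1 : ℂ) else 0) = _
  by_cases h : x.val % q ∈ A
  · rw [if_pos h, if_pos (h1.2 h)]
  · rw [if_neg h, if_neg (fun h2 => h (h1.1 h2))]

theorem FlatI.flatF {q : ℕ} [NeZero q] {η : ℝ} {A : Finset ℕ} (h : FlatI q η A) : FlatF q η (one (res q A)) := by
  rw [← fz_one h.1]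
  exact h.2.flatF

theorem flatI_of {q : ℕ} [NeZero q] {η : ℝ} {A : Finset ℕ} (hA : A ⊆ range q) (h : FlatF q η (one (res q A))) : FlatI q η A := by
  refine ⟨hA, ?_⟩
  have h1 := h.flatP
  have e : (fun n : ℕ => one (res q A) (n : ZMod q)) = fun n => if n % q ∈ A then 1 else 0 := by
    funext n
    unfold one
    by_cases h2 : n % q ∈ A
    · rw [if_pos h2, if_pos ((mem_res hA n).2 h2)]
    · rw [if_neg h2, if_neg (fun h3 => h2 ((mem_res hA n).1 h3))]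
  rw [e] at h1
  exact h1

theorem inA_res {q : ℕ} [NeZero q] {A : Finset ℕ} (hA : A ⊆ range q) : InA (res q A) = fun n => n % q ∈ A := by
  funext n
  exact propext (mem_res hA n)

/-! ### examples -/

/-- functions modulo a prime with a large group of symmetries -/
theorem semi_bound {p : ℕ} [Fact p.Prime] (H : Subgroup (ZMod p)ˣ) {g : ZMod p → ℂ} (hg : ∀ x, ‖g x‖ ≤ 1)
    (hs : ∀ u ∈ H, ∃ c : ℂ, ‖c‖ = 1 ∧ ∀ x, g ((u : ZMod p) * x) = c * g x) (ξ : ZMod p) (hξ : ξ ≠ 0) :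
    (Nat.card H : ℝ) * ‖ft g ξ‖ ^ 2 ≤ p * p := by
  classical
  have h1 := parseval g
  have hp0 : (0 : ℝ) < p := by exact_mod_cast (Fact.out : p.Prime).pos
  have h2 : ∑ x : ZMod p, ‖g x‖ ^ 2 ≤ p := by
    refine (sum_le_sum (g := fun _ => (1 : ℝ)) fun x _ => ?_).trans ?_
    · have := hg x
      have h0 := norm_nonneg (g x)
      nlinarith
    · rw [sum_const, nsmul_eq_mul, mul_one, card_univ, ZMod.card]
  have hinv : ∀ u ∈ H, ‖ft g (ξ * u)‖ = ‖ft g ξ‖ := by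
    intro u hu
    obtain ⟨c, hc, hcx⟩ := hs u⁻¹ (H.inv_mem hu)
    have e : ft g (ξ * u) = c * ft g ξ := by
      unfold ft
      rw [mul_sum]
      refine Finset.sum_bij' (fun x _ => (u : ZMod p) * x) (fun x _ => ((u⁻¹ : (ZMod p)ˣ) : ZMod p) * x)
        (fun x _ => mem_univ _) (fun x _ => mem_univ _) (fun x _ => ?_) (fun x _ => ?_) (fun x _ => ?_)
      · rw [← mul_assoc, Units.inv_mul, one_mul]
      · rw [← mul_assoc, Units.mul_inv, one_mul]
      · rw [← mul_assoc c, ← hcx, ← mul_assoc, Units.inv_mul, one_mul, mul_assoc]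
    rw [e, norm_mul, hc, one_mul]
  have hcard : Nat.card H = (univ.filter (fun u : (ZMod p)ˣ => u ∈ H)).card := by
    rw [Nat.card_eq_fintype_card, Fintype.card_subtype]
  have e1 : (Nat.card H : ℝ) * ‖ft g ξ‖ ^ 2 = ∑ u ∈ univ.filter (fun u : (ZMod p)ˣ => u ∈ H), ‖ft g (ξ * u)‖ ^ 2 := by
    rw [hcard, ← nsmul_eq_mul, ← sum_const]
    apply sum_congr rfl
    intro u hu
    rw [mem_filter] at hu
    rw [hinv u hu.2]
  have hinj : Set.InjOn (fun u : (ZMod p)ˣ => ξ * (u : ZMod p)) (univ.filter (fun u : (ZMod p)ˣ => u ∈ H) : Finset _) := by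
    intro u _ v _ huv
    exact Units.ext (mul_left_cancel₀ hξ huv)
  rw [e1, ← sum_image (f := fun ζ : ZMod p => ‖ft g ζ‖ ^ 2) hinj]
  refine (sum_le_sum_of_subset_of_nonneg (subset_univ _) fun _ _ _ => by positivity).trans ?_
  rw [h1]
  gcongr

theorem flat_semi {p : ℕ} [Fact p.Prime] {η : ℝ} (H : Subgroup (ZMod p)ˣ) (hη : ((H.index : ℝ) + 1) ≤ (p : ℝ) ^ (2 * η))
    {g : ZMod p → ℂ} (hg : ∀ x, ‖g x‖ ≤ 1)
    (hs : ∀ u ∈ H, ∃ c : ℂ, ‖c‖ = 1 ∧ ∀ x, g ((u : ZMod p) * x) = c * g x) : FlatF p η g := by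
  refine ⟨hg, fun ξ hξ => ?_⟩
  have hp0 : (0 : ℝ) < p := by exact_mod_cast (Fact.out : p.Prime).pos
  have h1 := semi_bound H hg hs ξ hξ
  have hH0 : 0 < Nat.card H := Nat.card_pos
  have hHr : (0 : ℝ) < Nat.card H := by exact_mod_cast hH0
  have hidx : H.index * Nat.card H = p - 1 := by
    rw [mul_comm, Subgroup.card_mul_index, Nat.card_eq_fintype_card, ZMod.card_units]
  have hpc : (p : ℝ) ≤ (H.index + 1) * Nat.card H := by
    have hp1 : 1 ≤ p := (Fact.out : p.Prime).one_lt.le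
    have h3 : p ≤ (H.index + 1) * Nat.card H := by
      rw [Nat.add_mul, hidx, one_mul]
      omega
    exact_mod_cast h3
  have h2 : ‖ft g ξ‖ ^ 2 ≤ p * (H.index + 1) := by
    have h3 : (Nat.card H : ℝ) * ‖ft g ξ‖ ^ 2 ≤ Nat.card H * (p * (H.index + 1)) := by
      refine h1.trans ?_
      calc (p : ℝ) * p ≤ p * ((H.index + 1) * Nat.card H) := by gcongr
        _ = _ := by ring
    exact le_of_mul_le_mul_left h3 hHr
  have h4 : ((p : ℝ) ^ (1 / 2 + η)) ^ 2 = p * (p : ℝ) ^ (2 * η) := by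
    rw [← Real.rpow_natCast, ← Real.rpow_mul hp0.le, show (1 / 2 + η) * ((2 : ℕ) : ℝ) = 1 + 2 * η by push_cast; ring,
      Real.rpow_add hp0, Real.rpow_one]
  have h5 : ‖ft g ξ‖ ^ 2 ≤ ((p : ℝ) ^ (1 / 2 + η)) ^ 2 := by
    rw [h4]
    refine h2.trans ?_
    gcongr
  exact (pow_le_pow_iff_left₀ (norm_nonneg _) (by positivity) two_ne_zero).1 h5

/-- primitive Dirichlet characters -/
theorem flat_char {q : ℕ} [NeZero q] {η : ℝ} (hη : 0 ≤ η) {χ : DirichletCharacter ℂ q} (hχ : χ.IsPrimitive) :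
    FlatF q η (fun x => χ x) := by
  have hq0 : 0 < q := Nat.pos_of_ne_zero (NeZero.ne q)
  have hqr : (0 : ℝ) < q := by exact_mod_cast hq0
  have hq1 : (1 : ℝ) ≤ q := by exact_mod_cast hq0
  refine ⟨fun x => DirichletCharacter.norm_le_one χ x, fun ξ _ => ?_⟩
  have key : ∀ ζ : ZMod q, ft (fun x => χ x) ζ = χ⁻¹ ζ * ft (fun x => χ x) 1 := by
    intro ζ
    have h1 := gaussSum_mulShift_of_isPrimitive (e := (ZMod.stdAddChar (N := q) : AddChar (ZMod q) ℂ)) hχ ζ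
    unfold gaussSum at h1
    unfold ft
    simp only [AddChar.mulShift_apply] at h1
    simp only [one_mul]
    exact h1
  have hP := parseval (fun x : ZMod q => (χ x : ℂ))
  have hcount : ∀ ψ : DirichletCharacter ℂ q, ∑ x : ZMod q, ‖ψ x‖ ^ 2 = (Nat.card (ZMod q)ˣ : ℝ) := by
    intro ψ
    classical
    have e : ∀ x : ZMod q, ‖ψ x‖ ^ 2 = if IsUnit x then (1 : ℝ) else 0 := by
      intro x
      by_cases hx : IsUnit x
      · obtain ⟨u, rfl⟩ := hx
        rw [if_pos u.isUnit, DirichletCharacter.unit_norm_eq_one ψ u, one_pow]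
      · rw [if_neg hx, MulChar.map_nonunit _ hx, norm_zero]; norm_num
    rw [sum_congr rfl fun x _ => e x, Finset.sum_boole, Nat.card_eq_fintype_card]
    have e2 : univ.filter (fun x : ZMod q => IsUnit x) =
        univ.map ⟨((↑) : (ZMod q)ˣ → ZMod q), Units.val_injective⟩ := by
      ext x
      simp only [mem_filter, mem_univ, true_and, mem_map, Function.Embedding.coeFn_mk]
      exact Iff.rfl
    rw [e2, card_map, card_univ]
  have h2 : ∑ ζ : ZMod q, ‖ft (fun x => χ x) ζ‖ ^ 2 = (Nat.card (ZMod q)ˣ : ℝ) * ‖ft (fun x => χ x) 1‖ ^ 2 := by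
    rw [← hcount χ⁻¹, sum_mul]
    apply sum_congr rfl
    intro ζ _
    rw [key ζ, norm_mul, mul_pow]
  rw [h2, hcount χ] at hP
  have hc0 : (0 : ℝ) < Nat.card (ZMod q)ˣ := by exact_mod_cast Nat.card_pos
  have h3 : ‖ft (fun x => χ x) 1‖ ^ 2 = q := by
    have : (Nat.card (ZMod q)ˣ : ℝ) * ‖ft (fun x => χ x) 1‖ ^ 2 = (Nat.card (ZMod q)ˣ : ℝ) * q := by rw [hP]; ring
    exact mul_left_cancel₀ hc0.ne' this
  have h4 : ‖ft (fun x => χ x) 1‖ = (q : ℝ) ^ (1 / 2 : ℝ) := by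
    rw [← Real.sqrt_eq_rpow, ← h3, Real.sqrt_sq (norm_nonneg _)]
  rw [key ξ, norm_mul, h4]
  have h5 : ‖(χ⁻¹ : DirichletCharacter ℂ q) ξ‖ ≤ 1 := DirichletCharacter.norm_le_one _ ξ
  calc ‖(χ⁻¹ : DirichletCharacter ℂ q) ξ‖ * (q : ℝ) ^ (1 / 2 : ℝ) ≤ 1 * (q : ℝ) ^ (1 / 2 : ℝ) := by gcongr
    _ = (q : ℝ) ^ (1 / 2 : ℝ) := one_mul _
    _ ≤ (q : ℝ) ^ (1 / 2 + η) := Real.rpow_le_rpow_of_exponent_le hq1 (by linarith)

theorem mean_char {q : ℕ} [NeZero q] (hq : 1 < q) {χ : DirichletCharacter ℂ q} (hχ : χ.IsPrimitive) :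
    mean (fun x => (χ x : ℂ)) = 0 := by
  unfold mean
  have h1 : χ ≠ 1 := by
    rintro rfl
    rw [DirichletCharacter.isPrimitive_def] at hχ
    rw [DirichletCharacter.conductor_one] at hχ
    omega
  rw [MulChar.sum_eq_zero_of_ne_one h1, zero_div]

/-- quadratic phases -/
theorem flat_quad {q : ℕ} [NeZero q] {η : ℝ} (hη : 0 ≤ η) (hq : Odd q) {a : ZMod q} (ha : IsUnit a) (b : ZMod q) :
    FlatF q η (fun x => (ZMod.stdAddChar (a * x ^ 2 + b * x) : ℂ)) := by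
  have hq0 : 0 < q := Nat.pos_of_ne_zero (NeZero.ne q)
  have hqr : (0 : ℝ) < q := by exact_mod_cast hq0
  have hq1 : (1 : ℝ) ≤ q := by exact_mod_cast hq0
  set g : ZMod q → ℂ := fun x => (ZMod.stdAddChar (a * x ^ 2 + b * x) : ℂ) with hg
  have hnorm : ∀ y : ZMod q, ‖(ZMod.stdAddChar y : ℂ)‖ = 1 := fun y => AddChar.norm_apply _ y
  refine ⟨fun x => (hnorm _).le, fun ξ _ => ?_⟩
  have hac : ∀ h : ZMod q, ac g h = if h = 0 then (q : ℂ) else 0 := by
    intro h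
    have e1 : ac g h = (ZMod.stdAddChar (-(a * h ^ 2 + b * h)) : ℂ) * ∑ x : ZMod q, (ZMod.stdAddChar (x * (-(2 * a * h))) : ℂ) := by
      unfold ac
      rw [mul_sum]
      apply sum_congr rfl
      intro x _
      simp only [hg]
      rw [conj_char, ← AddChar.map_add_eq_mul, ← AddChar.map_add_eq_mul]
      congr 1
      ring
    have h2u : IsUnit (2 * a) := by
      refine IsUnit.mul ?_ ha
      have := (ZMod.isUnit_iff_coprime 2 q).2 (Nat.coprime_two_left.2 hq)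
      simpa using this
    have e2 := orth_char (q := q) (-(2 * a * h))
    rw [e1, e2]
    by_cases hh : h = 0
    · subst hh
      rw [if_pos (by simp), if_pos rfl]
      simp
    · rw [if_neg hh, if_neg, mul_zero]
      intro h3
      rw [neg_eq_zero] at h3
      exact hh ((IsUnit.mul_right_eq_zero h2u).1 h3)
  have h1 := ft_ac g (-ξ)
  rw [neg_neg] at h1
  have h2 : ft (ac g) (-ξ) = q := by
    unfold ft
    rw [sum_eq_single_of_mem 0 (mem_univ _) (fun y _ hy => by rw [hac, if_neg hy, zero_mul]), hac, if_pos rfl]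
    simp
  rw [h2] at h1
  have h3 : ‖ft g ξ‖ ^ 2 = q := by exact_mod_cast h1.symm
  have h4 : ‖ft g ξ‖ = (q : ℝ) ^ (1 / 2 : ℝ) := by
    rw [← Real.sqrt_eq_rpow, ← h3, Real.sqrt_sq (norm_nonneg _)]
  rw [h4]
  exact Real.rpow_le_rpow_of_exponent_le hq1 (by linarith)

/-! ### the examples in plain terms -/

theorem flatP_char {q : ℕ} (hq : 1 ≤ q) {η : ℝ} (hη : 0 ≤ η) {χ : DirichletCharacter ℂ q} (hχ : χ.IsPrimitive) :
    FlatP q η (fun n => χ n) := by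
  have : NeZero q := ⟨by omega⟩
  exact (flat_char hη hχ).flatP

theorem flatP_quad {q : ℕ} {η : ℝ} (hη : 0 ≤ η) (hq : Odd q) {a : ℤ} (ha : IsCoprime a q) (b : ℤ) :
    FlatP q η (fun n => Complex.exp (2 * Real.pi * Complex.I * (a * n ^ 2 + b * n) / q)) := by
  have : NeZero q := ⟨by rintro rfl; exact absurd hq (by decide)⟩
  have hu : IsUnit ((a : ℤ) : ZMod q) := by
    rw [ZMod.coe_int_isUnit_iff_isCoprime]
    exact ha.symm
  have h := (flat_quad hη hq hu (b : ZMod q)).flatP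
  have e : (fun n : ℕ => (ZMod.stdAddChar (((a : ℤ) : ZMod q) * (n : ZMod q) ^ 2 + (b : ZMod q) * (n : ZMod q)) : ℂ)) =
      fun n : ℕ => Complex.exp (2 * Real.pi * Complex.I * (a * n ^ 2 + b * n) / q) := by
    funext n
    have h1 := ZMod.stdAddChar_coe (N := q) (a * (n : ℤ) ^ 2 + b * n)
    push_cast at h1
    exact h1
  rw [e] at h
  exact h

theorem flatP_semi {p : ℕ} [Fact p.Prime] {η : ℝ} (H : Subgroup (ZMod p)ˣ) (hη : ((H.index : ℝ) + 1) ≤ (p : ℝ) ^ (2 * η))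
    {g : ZMod p → ℂ} (hg : ∀ x, ‖g x‖ ≤ 1)
    (hs : ∀ u ∈ H, ∃ c : ℂ, ‖c‖ = 1 ∧ ∀ x, g ((u : ZMod p) * x) = c * g x) : FlatP p η (fun n => g n) :=
  (flat_semi H hη hg hs).flatP

/-- sets which are invariant under multiplication by `k`-th powers -/
theorem flatI_pow {p : ℕ} (hp : p.Prime) {k : ℕ} (hk : 1 ≤ k) {η : ℝ} (hη : (k : ℝ) + 1 ≤ (p : ℝ) ^ (2 * η)) {A : Finset ℕ}
    (hA : A ⊆ range p) (h : ∀ b : ℕ, Nat.Coprime b p → ∀ a ∈ A, b ^ k * a % p ∈ A) : FlatI p η A := by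
  have : Fact p.Prime := ⟨hp⟩
  have : NeZero p := ⟨hp.ne_zero⟩
  apply flatI_of hA
  set H : Subgroup (ZMod p)ˣ := (powMonoidHom k : (ZMod p)ˣ →* (ZMod p)ˣ).range with hH
  have hidx : H.index ≤ k := by
    rw [hH, IsCyclic.index_powMonoidHom_range]
    exact Nat.gcd_le_right _ hk
  have hη' : ((H.index : ℝ) + 1) ≤ (p : ℝ) ^ (2 * η) := by
    refine le_trans ?_ hη
    have : (H.index : ℝ) ≤ k := by exact_mod_cast hidx
    linarith
  refine ⟨one_norm _, fun ξ hξ => ?_⟩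
  rw [ft_one]
  refine flat_invariant H hη' _ ?_ ξ hξ
  intro u hu x hx
  obtain ⟨w, rfl⟩ := hu
  have h1 : x.val % p ∈ A := by
    have h2 := mem_res hA x.val
    rw [ZMod.natCast_zmod_val] at h2
    exact h2.1 hx
  have hxlt := ZMod.val_lt x
  rw [Nat.mod_eq_of_lt hxlt] at h1
  have hb : Nat.Coprime ((w : ZMod p)).val p := ZMod.val_coe_unit_coprime w
  have h3 := h _ hb _ h1
  have h4 := (mem_res hA ((w : ZMod p).val ^ k * x.val)).2 h3
  push_cast at h4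
  rw [ZMod.natCast_zmod_val, ZMod.natCast_zmod_val] at h4
  rw [powMonoidHom_apply, Units.val_pow_eq_pow_val]
  exact h4

/-! ### the transfer in plain terms -/

open Pool.Agent.Y965.PL (ASync ind)

theorem SA.fun {ε η c C : ℝ} (S : SA ε η c C) {N q : ℕ} (hN : 1 ≤ N) (hq : Odd q) (h1 : (N : ℝ) ^ ε ≤ q)
    (h2 : (q : ℝ) ≤ (N : ℝ) ^ (1 - ε)) {f : ℕ → ℂ} (hf : FlatP q η f) {F : ℤ → ℝ} (hF : ASync 1 F) {u : ℕ} (hu : u ≤ N) :
    ‖∑ n ∈ Icc 1 u, (F (n : ℤ) : ℂ) * (f n - meanP q f)‖ ≤ C * (N : ℝ) ^ (1 - c) ∧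
    ‖∑ n ∈ Icc 1 u, ((if n % 2 = 1 then F (n : ℤ) else 0 : ℝ) : ℂ) * (f n - meanP q f)‖ ≤ C * (N : ℝ) ^ (1 - c) := by
  have : NeZero q := ⟨by rintro rfl; exact absurd hq (by decide)⟩
  have h3 := (S N q hN hq h1 h2).1 (fz q f) hf.flatF F hF u hu
  simp only [fz_cast hf.periodic, mean_fz] at h3
  exact h3

theorem SA.set {ε η c C : ℝ} (S : SA ε η c C) {N q : ℕ} (hN : 1 ≤ N) (hq : Odd q) (h1 : (N : ℝ) ^ ε ≤ q)
    (h2 : (q : ℝ) ≤ (N : ℝ) ^ (1 - ε)) {A : Finset ℕ} (hA : FlatI q η A) :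
    TSA N (fun n => n % q ∈ A) (A.card / q) (C * (N : ℝ) ^ (1 - c)) ∧
    TSO N (fun n => n % q ∈ A) (A.card / q) (C * (N : ℝ) ^ (1 - c)) := by
  have : NeZero q := ⟨by rintro rfl; exact absurd hq (by decide)⟩
  have h3 := (S N q hN hq h1 h2).2 (res q A) hA.flatF
  rw [inA_res hA.1, card_res hA.1] at h3
  exact h3

theorem SF.fun {d : ℕ} {m r : ℕ → ℤ} {c0 k0 e : ℕ} {ε η c C : ℝ} (S : SF d m r c0 k0 e ε η c C) {s : ℤ} (hs : s = 1 ∨ s = -1)
    {N q : ℕ} (hN : 1 ≤ N) (hq0 : 1 ≤ q) (hq : Nat.Coprime d q) (h1 : (N : ℝ) ^ ε ≤ q)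
    (h2 : (q : ℝ) ≤ (N : ℝ) ^ (1 - ε)) {f : ℕ → ℂ} (hf : FlatP q η f) {w : ℕ → ℂ} (hw1 : ∀ n, ‖w n‖ ≤ 1)
    (hw2 : ∀ n n' : ℕ, n ≡ n' [MOD d ^ e] → w n = w n') {F : ℕ → ℝ} (hF : Pool.Agent.Run7.h439.DC.KSync d m r s c0 k0 F)
    {u : ℕ} (hu : u ≤ N) :
    ‖∑ n ∈ Icc 1 u, (F n : ℂ) * (w n * (f n - meanP q f))‖ ≤ C * (N : ℝ) ^ (1 - c) := by
  have : NeZero q := ⟨by omega⟩
  have h3 := S s hs N q hN hq h1 h2 (fz q f) hf.flatF w hw1 hw2 F hF u hu
  simp only [fz_cast hf.periodic, mean_fz] at h3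
  exact h3

theorem SF.set' {d : ℕ} {m r : ℕ → ℤ} {c0 k0 e : ℕ} {ε η c C : ℝ} (S : SF d m r c0 k0 e ε η c C) {s : ℤ} (hs : s = 1 ∨ s = -1)
    {N q : ℕ} (hN : 1 ≤ N) (hq0 : 1 ≤ q) (hq : Nat.Coprime d q) (h1 : (N : ℝ) ^ ε ≤ q)
    (h2 : (q : ℝ) ≤ (N : ℝ) ^ (1 - ε)) {A : Finset ℕ} (hA : FlatI q η A) {w : ℕ → ℝ} (hw1 : ∀ n, |w n| ≤ 1)
    (hw2 : ∀ n n' : ℕ, n ≡ n' [MOD d ^ e] → w n = w n') {F : ℕ → ℝ} (hF : Pool.Agent.Run7.h439.DC.KSync d m r s c0 k0 F) :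
    TS N (fun n => n % q ∈ A) (A.card / q) (C * (N : ℝ) ^ (1 - c)) (fun n => w n * F n) := by
  have : NeZero q := ⟨by omega⟩
  have h3 := S.set hs hN hq h1 h2 hA.flatF hw1 hw2 hF
  rw [inA_res hA.1, card_res hA.1] at h3
  exact h3

end Pool.Agent.Run7.h792.FL
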