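import Pool.Agent.Run7.h439.DC.Inv3
import Pool.Agent.Run7.h792.FL.Law
import Pool.Agent.Run7.h792.FL.Plain

/-! Invariant functions and first entrances, against functions modulo `q`. -/

set_option autoImplicit false

namespace Pool.Agent.Run7.h792.FL

open Finset Filter Topology Pool.Agent.H319R3.GC Pool.Agent.Run7.h439.DC
open Pool.Agent.Y965.PL (Mn ind ind_pos ind_neg ind_congr ind_nonneg)

variable {d : ℕ} {m r : ℕ → ℤ}

theorem SF.fun1 {c0 k0 e : ℕ} {ε η c C : ℝ} (S : SF d m r c0 k0 e ε η c C) {s : ℤ} (hs : s = 1 ∨ s = -1)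
    {N q : ℕ} (hN : 1 ≤ N) (hq0 : 1 ≤ q) (hq : Nat.Coprime d q) (h1 : (N : ℝ) ^ ε ≤ q)
    (h2 : (q : ℝ) ≤ (N : ℝ) ^ (1 - ε)) {f : ℕ → ℂ} (hf : FlatP q η f) {F : ℕ → ℝ} (hF : KSync d m r s c0 k0 F)
    {u : ℕ} (hu : u ≤ N) :
    ‖∑ n ∈ Icc 1 u, (F n : ℂ) * (f n - meanP q f)‖ ≤ C * (N : ℝ) ^ (1 - c) := by
  have h := S.fun hs hN hq0 hq h1 h2 hf (w := fun _ => 1) (by simp) (fun _ _ _ => rfl) hF hu
  simp only [one_mul] at h
  exact h

theorem SF.set1 {c0 k0 e : ℕ} {ε η c C : ℝ} (S : SF d m r c0 k0 e ε η c C) {s : ℤ} (hs : s = 1 ∨ s = -1)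
    {N q : ℕ} (hN : 1 ≤ N) (hq0 : 1 ≤ q) (hq : Nat.Coprime d q) (h1 : (N : ℝ) ^ ε ≤ q)
    (h2 : (q : ℝ) ≤ (N : ℝ) ^ (1 - ε)) {A : Finset ℕ} (hA : FlatI q η A) {F : ℕ → ℝ} (hF : KSync d m r s c0 k0 F) :
    TS N (fun n => n % q ∈ A) (A.card / q) (C * (N : ℝ) ^ (1 - c)) F := by
  have h := S.set' hs hN hq0 hq h1 h2 hA (w := fun _ => 1) (by simp) (fun _ _ _ => rfl) hF
  exact h.congr fun n => by rw [one_mul]

/-- the indicator function of an invariant set -/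
theorem ksync_set {s : ℤ} {S : Set ℤ} (hS : ∀ x, x ∈ S ↔ Tm d m r x ∈ S) :
    KSync d m r s 1 0 (ind (fun n => s * (n : ℤ) ∈ S)) := by
  classical
  have h := ksync_f (d := d) (mm := m) (r := r) (s := s) (f := fun x => if x ∈ S then 1 else 0) (fun x => by split_ifs <;> simp)
    (fun x => by
      by_cases hx : x ∈ S
      · rw [if_pos hx, if_pos ((hS x).1 hx)]
      · rw [if_neg hx, if_neg (fun h => hx ((hS x).2 h))])
  have e : (fun n : ℕ => (fun x : ℤ => if x ∈ S then (1 : ℝ) else 0) (s * (n : ℤ))) = ind (fun n => s * (n : ℤ) ∈ S) := by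
    funext n
    by_cases hn : s * (n : ℤ) ∈ S
    · rw [ind_pos (P := fun n : ℕ => s * (n : ℤ) ∈ S) hn]; exact if_pos hn
    · rw [ind_neg (P := fun n : ℕ => s * (n : ℤ) ∈ S) hn]; exact if_neg hn
  rw [e] at h
  exact h

end Pool.Agent.Run7.h792.FL
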