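import Pool.Agent.Run7.h792.FL.Four

/-! Sets of residues which are invariant under a large subgroup of the multiplicative group. -/

set_option autoImplicit false

namespace Pool.Agent.Run7.h792.FL

open Finset

/-- The Fourier coefficients of the set `A` of residues modulo `q` at the nonzero frequencies are at most
`q ^ (1 / 2 + η)`. -/
def Flat (q : ℕ) [NeZero q] (η : ℝ) (A : Finset (ZMod q)) : Prop :=
  ∀ h : ZMod q, h ≠ 0 → ‖∑ a ∈ A, (ZMod.stdAddChar (h * a) : ℂ)‖ ≤ (q : ℝ) ^ (1 / 2 + η)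

open Classical in
/-- the indicator function -/
noncomputable def one {q : ℕ} (A : Finset (ZMod q)) (x : ZMod q) : ℂ := if x ∈ A then 1 else 0

theorem one_norm {q : ℕ} (A : Finset (ZMod q)) (x : ZMod q) : ‖one A x‖ ≤ 1 := by
  unfold one; split_ifs <;> simp

theorem ft_one {q : ℕ} [NeZero q] (A : Finset (ZMod q)) (ξ : ZMod q) :
    ft (one A) ξ = ∑ a ∈ A, (ZMod.stdAddChar (ξ * a) : ℂ) := by
  classical
  unfold ft one
  rw [← sum_filter_add_sum_filter_not univ (fun x => x ∈ A)]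
  rw [sum_eq_zero (s := univ.filter (fun x => x ∉ A))]
  · rw [add_zero]
    have : univ.filter (fun x => x ∈ A) = A := by ext x; simp
    rw [this]
    apply sum_congr rfl
    intro x hx
    rw [if_pos hx, one_mul]
  · intro x hx
    rw [mem_filter] at hx
    rw [if_neg hx.2, zero_mul]

theorem sum_one {q : ℕ} [NeZero q] (A : Finset (ZMod q)) : ∑ x, one A x = (A.card : ℂ) := by
  classical
  unfold one
  rw [Finset.sum_boole]
  congr 2
  ext x; simp

theorem invariant_bound {p : ℕ} [Fact p.Prime] (H : Subgroup (ZMod p)ˣ) (A : Finset (ZMod p))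
    (hA : ∀ u ∈ H, ∀ x ∈ A, (u : ZMod p) * x ∈ A) (ξ : ZMod p) (hξ : ξ ≠ 0) :
    (Nat.card H : ℝ) * ‖∑ a ∈ A, (ZMod.stdAddChar (ξ * a) : ℂ)‖ ^ 2 ≤ p * A.card := by
  classical
  have h1 := parseval (one A)
  have h2 : ∑ x : ZMod p, ‖one A x‖ ^ 2 = A.card := by
    have e : ∀ x : ZMod p, ‖one A x‖ ^ 2 = if x ∈ A then (1 : ℝ) else 0 := by
      intro x
      unfold one
      split_ifs <;> simp
    rw [sum_congr rfl fun x _ => e x, Finset.sum_boole]
    congr 2
    ext x; simp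
  rw [h2] at h1
  have hinv : ∀ u ∈ H, ft (one A) (ξ * u) = ft (one A) ξ := by
    intro u hu
    rw [ft_one, ft_one]
    refine Finset.sum_bij' (fun x _ => (u : ZMod p) * x) (fun x _ => ((u⁻¹ : (ZMod p)ˣ) : ZMod p) * x)
      (fun x hx => hA u hu x hx) (fun x hx => hA _ (H.inv_mem hu) x hx) (fun x _ => ?_) (fun x _ => ?_) (fun x _ => ?_)
    · rw [← mul_assoc, Units.inv_mul, one_mul]
    · rw [← mul_assoc, Units.mul_inv, one_mul]
    · rw [mul_assoc]
  rw [← h1, ← ft_one]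
  have hcard : Nat.card H = (univ.filter (fun u : (ZMod p)ˣ => u ∈ H)).card := by
    rw [Nat.card_eq_fintype_card, Fintype.card_subtype]
  have e1 : (Nat.card H : ℝ) * ‖ft (one A) ξ‖ ^ 2 = ∑ u ∈ univ.filter (fun u : (ZMod p)ˣ => u ∈ H), ‖ft (one A) (ξ * u)‖ ^ 2 := by
    rw [hcard, ← nsmul_eq_mul, ← sum_const]
    apply sum_congr rfl
    intro u hu
    rw [mem_filter] at hu
    rw [hinv u hu.2]
  rw [e1]
  have hinj : Set.InjOn (fun u : (ZMod p)ˣ => ξ * (u : ZMod p)) (univ.filter (fun u : (ZMod p)ˣ => u ∈ H) : Finset _) := by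
    intro u _ v _ huv
    exact Units.ext (mul_left_cancel₀ hξ huv)
  rw [← sum_image (f := fun ζ : ZMod p => ‖ft (one A) ζ‖ ^ 2) hinj]
  exact sum_le_sum_of_subset_of_nonneg (subset_univ _) fun _ _ _ => by positivity

/-- EXAMPLES -/
theorem flat_invariant {p : ℕ} [Fact p.Prime] {η : ℝ} (H : Subgroup (ZMod p)ˣ) (hη : ((H.index : ℝ) + 1) ≤ (p : ℝ) ^ (2 * η))
    (A : Finset (ZMod p)) (hA : ∀ u ∈ H, ∀ x ∈ A, (u : ZMod p) * x ∈ A) : Flat p η A := by
  intro ξ hξ
  have hp0 : (0 : ℝ) < p := by exact_mod_cast (Fact.out : p.Prime).pos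
  have h1 := invariant_bound H A hA ξ hξ
  have hH0 : 0 < Nat.card H := Nat.card_pos
  have hHr : (0 : ℝ) < Nat.card H := by exact_mod_cast hH0
  have hidx : H.index * Nat.card H = p - 1 := by
    rw [mul_comm, Subgroup.card_mul_index, Nat.card_eq_fintype_card, ZMod.card_units]
  have hAc : (A.card : ℝ) ≤ (H.index + 1) * Nat.card H := by
    have h2 : A.card ≤ p := by
      have := Finset.card_le_univ A
      rwa [ZMod.card] at this
    have hp1 : 1 ≤ p := (Fact.out : p.Prime).one_lt.le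
    have h3 : p ≤ (H.index + 1) * Nat.card H := by
      rw [Nat.add_mul, hidx, one_mul]
      omega
    exact_mod_cast h2.trans h3
  have h2 : ‖∑ a ∈ A, (ZMod.stdAddChar (ξ * a) : ℂ)‖ ^ 2 ≤ p * (H.index + 1) := by
    have h3 : (Nat.card H : ℝ) * ‖∑ a ∈ A, (ZMod.stdAddChar (ξ * a) : ℂ)‖ ^ 2 ≤ Nat.card H * (p * (H.index + 1)) := by
      refine h1.trans ?_
      calc (p : ℝ) * A.card ≤ p * ((H.index + 1) * Nat.card H) := by gcongr
        _ = _ := by ring
    exact le_of_mul_le_mul_left h3 hHr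
  have h4 : ((p : ℝ) ^ (1 / 2 + η)) ^ 2 = p * (p : ℝ) ^ (2 * η) := by
    rw [← Real.rpow_natCast, ← Real.rpow_mul hp0.le, show (1 / 2 + η) * ((2 : ℕ) : ℝ) = 1 + 2 * η by push_cast; ring,
      Real.rpow_add hp0, Real.rpow_one]
  have h5 : ‖∑ a ∈ A, (ZMod.stdAddChar (ξ * a) : ℂ)‖ ^ 2 ≤ ((p : ℝ) ^ (1 / 2 + η)) ^ 2 := by
    rw [h4]
    refine h2.trans ?_
    gcongr
  exact (pow_le_pow_iff_left₀ (norm_nonneg _) (by positivity) two_ne_zero).1 h5

end Pool.Agent.Run7.h792.FL
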