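import Mathlib

/-! Autocorrelations of functions modulo `q` with small Fourier coefficients. -/

set_option autoImplicit false

namespace Pool.Agent.Run7.h792.FL

open Finset

variable {q : ℕ} [NeZero q]

/-- the Fourier coefficient -/
noncomputable def ft (g : ZMod q → ℂ) (ξ : ZMod q) : ℂ := ∑ x : ZMod q, g x * (ZMod.stdAddChar (ξ * x) : ℂ)

/-- the autocorrelation -/
noncomputable def ac (g : ZMod q → ℂ) (h : ZMod q) : ℂ := ∑ x : ZMod q, g x * (starRingEnd ℂ) (g (x + h))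

theorem conj_char (x : ZMod q) : (starRingEnd ℂ) (ZMod.stdAddChar x : ℂ) = ZMod.stdAddChar (-x) := by
  rw [AddChar.map_neg_eq_conj]

theorem orth_char (y : ZMod q) : ∑ ξ : ZMod q, (ZMod.stdAddChar (ξ * y) : ℂ) = if y = 0 then (q : ℂ) else 0 := by
  have h := AddChar.sum_mulShift y (ZMod.isPrimitive_stdAddChar q)
  rw [ZMod.card] at h
  rw [h]
  split_ifs <;> simp

theorem parseval (g : ZMod q → ℂ) : ∑ ξ : ZMod q, ‖ft g ξ‖ ^ 2 = q * ∑ x : ZMod q, ‖g x‖ ^ 2 := by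
  have key : ∑ ξ : ZMod q, ft g ξ * (starRingEnd ℂ) (ft g ξ) = (q : ℂ) * ∑ x : ZMod q, g x * (starRingEnd ℂ) (g x) := by
    have h1 : ∀ ξ : ZMod q, ft g ξ * (starRingEnd ℂ) (ft g ξ) =
        ∑ x : ZMod q, ∑ y : ZMod q, g x * (starRingEnd ℂ) (g y) * (ZMod.stdAddChar (ξ * (x - y)) : ℂ) := by
      intro ξ
      unfold ft
      rw [map_sum, sum_mul_sum]
      apply sum_congr rfl
      intro x _
      apply sum_congr rfl
      intro y _
      rw [map_mul (starRingEnd ℂ), conj_char, show ξ * (x - y) = ξ * x + -(ξ * y) by ring, AddChar.map_add_eq_mul]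
      ring
    rw [sum_congr rfl fun ξ _ => h1 ξ, sum_comm]
    rw [mul_sum]
    apply sum_congr rfl
    intro x _
    rw [sum_comm]
    have h2 : ∀ y : ZMod q, ∑ ξ : ZMod q, g x * (starRingEnd ℂ) (g y) * (ZMod.stdAddChar (ξ * (x - y)) : ℂ) =
        if y = x then g x * (starRingEnd ℂ) (g x) * (q : ℂ) else 0 := by
      intro y
      rw [← mul_sum, orth_char]
      by_cases h : y = x
      · subst h; simp
      · have : x - y ≠ 0 := fun h' => h (by rw [sub_eq_zero] at h'; exact h'.symm)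
        rw [if_neg this, if_neg h, mul_zero]
    rw [sum_congr rfl fun y _ => h2 y, sum_ite_eq' univ x, if_pos (mem_univ x)]
    ring
  have e1 : ∀ w : ℂ, w * (starRingEnd ℂ) w = ((‖w‖ ^ 2 : ℝ) : ℂ) := by
    intro w
    rw [Complex.mul_conj, Complex.normSq_eq_norm_sq]
  simp only [e1] at key
  rw [← Complex.ofReal_inj]
  push_cast at key ⊢
  exact key

theorem ft_ac (g : ZMod q → ℂ) (ξ : ZMod q) : ft (ac g) ξ = ((‖ft g (-ξ)‖ ^ 2 : ℝ) : ℂ) := by
  have e1 : ft (ac g) ξ = ft g (-ξ) * (starRingEnd ℂ) (ft g (-ξ)) := by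
    unfold ft ac
    rw [map_sum, sum_mul_sum]
    have h1 : ∀ h : ZMod q, (∑ x : ZMod q, g x * (starRingEnd ℂ) (g (x + h))) * (ZMod.stdAddChar (ξ * h) : ℂ) =
        ∑ x : ZMod q, g x * (starRingEnd ℂ) (g (x + h)) * (ZMod.stdAddChar (ξ * h) : ℂ) := fun h => by rw [sum_mul]
    rw [sum_congr rfl fun h _ => h1 h, sum_comm]
    apply sum_congr rfl
    intro x _
    rw [← Equiv.sum_comp (Equiv.subRight x) (fun h => g x * (starRingEnd ℂ) (g (x + h)) * (ZMod.stdAddChar (ξ * h) : ℂ))]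
    apply sum_congr rfl
    intro y _
    rw [Equiv.subRight_apply, map_mul (starRingEnd ℂ), conj_char, show x + (y - x) = y by ring,
      show ξ * (y - x) = -ξ * x + -(-ξ * y) by ring, AddChar.map_add_eq_mul]
    ring
  rw [e1, Complex.mul_conj, Complex.normSq_eq_norm_sq]

theorem ac_sq (g : ZMod q → ℂ) (hg : ∀ x, ‖g x‖ ≤ 1) {M : ℝ} (_hM0 : 0 ≤ M) (hM : ∀ ξ, ‖ft g ξ‖ ≤ M) :
    ∑ h : ZMod q, ‖ac g h‖ ^ 2 ≤ M ^ 2 * q := by
  have hq : (0 : ℝ) < q := by exact_mod_cast Nat.pos_of_ne_zero (NeZero.ne q)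
  have h1 := parseval (ac g)
  have h2 := parseval g
  have h3 : ∑ ξ : ZMod q, ‖ft (ac g) ξ‖ ^ 2 ≤ M ^ 2 * ∑ ξ : ZMod q, ‖ft g ξ‖ ^ 2 := by
    have e1 : ∑ ξ : ZMod q, ‖ft (ac g) ξ‖ ^ 2 = ∑ ξ : ZMod q, ‖ft g ξ‖ ^ 2 * ‖ft g ξ‖ ^ 2 := by
      rw [← Equiv.sum_comp (Equiv.neg (ZMod q)) (fun ξ => ‖ft g ξ‖ ^ 2 * ‖ft g ξ‖ ^ 2)]
      apply sum_congr rfl
      intro ξ _
      rw [ft_ac, Complex.norm_real, Real.norm_eq_abs, abs_of_nonneg (by positivity), Equiv.neg_apply]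
      ring
    rw [e1, mul_sum]
    apply sum_le_sum
    intro ξ _
    apply mul_le_mul_of_nonneg_right _ (by positivity)
    exact pow_le_pow_left₀ (norm_nonneg _) (hM ξ) 2
  have h4 : ∑ x : ZMod q, ‖g x‖ ^ 2 ≤ q := by
    calc ∑ x : ZMod q, ‖g x‖ ^ 2 ≤ ∑ _x : ZMod q, (1 : ℝ) :=
          sum_le_sum fun x _ => pow_le_one₀ (norm_nonneg _) (hg x)
      _ = q := by simp [ZMod.card]
  have h5 : (q : ℝ) * ∑ h : ZMod q, ‖ac g h‖ ^ 2 ≤ q * (M ^ 2 * q) := by
    rw [← h1]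
    refine h3.trans ?_
    rw [h2]
    have : M ^ 2 * (q * ∑ x : ZMod q, ‖g x‖ ^ 2) ≤ M ^ 2 * (q * q) := by gcongr
    linarith
  exact le_of_mul_le_mul_left h5 hq

/-- the average over short intervals -/
theorem ac_short (g : ZMod q → ℂ) (hg : ∀ x, ‖g x‖ ≤ 1) {M : ℝ} (hM0 : 0 ≤ M) (hM : ∀ ξ, ‖ft g ξ‖ ≤ M) (X : ℕ) (hX : X ≤ q) :
    ∑ h ∈ Icc 1 X, ‖ac g ((h : ℕ) : ZMod q)‖ ≤ Real.sqrt X * (M * Real.sqrt q) := by
  have h1 : (∑ h ∈ Icc 1 X, ‖ac g ((h : ℕ) : ZMod q)‖) ^ 2 ≤ X * (M ^ 2 * q) := by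
    have h2 := sq_sum_le_card_mul_sum_sq (s := Icc 1 X) (f := fun h : ℕ => ‖ac g ((h : ℕ) : ZMod q)‖)
    rw [Nat.card_Icc, Nat.add_sub_cancel] at h2
    refine h2.trans ?_
    apply mul_le_mul_of_nonneg_left _ (Nat.cast_nonneg _)
    refine le_trans ?_ (ac_sq g hg hM0 hM)
    have hinj : Set.InjOn (fun h : ℕ => (h : ZMod q)) (Icc 1 X : Finset ℕ) := by
      intro a ha b hb hab
      rw [Finset.coe_Icc, Set.mem_Icc] at ha hb
      have h3 := (ZMod.natCast_eq_natCast_iff' a b q).1 hab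
      rcases Nat.lt_or_ge a q with h4 | h4 <;> rcases Nat.lt_or_ge b q with h5 | h5
      · rwa [Nat.mod_eq_of_lt h4, Nat.mod_eq_of_lt h5] at h3
      · have : b = q := by omega
        subst this
        rw [Nat.mod_eq_of_lt h4, Nat.mod_self] at h3; omega
      · have : a = q := by omega
        subst this
        rw [Nat.mod_eq_of_lt h5, Nat.mod_self] at h3; omega
      · omega
    rw [← sum_image (f := fun h : ZMod q => ‖ac g h‖ ^ 2) hinj]
    exact sum_le_sum_of_subset_of_nonneg (subset_univ _) fun _ _ _ => by positivity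
  have h3 : (Real.sqrt X * (M * Real.sqrt q)) ^ 2 = X * (M ^ 2 * q) := by
    rw [mul_pow, mul_pow, Real.sq_sqrt (Nat.cast_nonneg _), Real.sq_sqrt (Nat.cast_nonneg _)]
  exact (pow_le_pow_iff_left₀ (sum_nonneg fun _ _ => norm_nonneg _) (by positivity) two_ne_zero).1 (h1.trans h3.symm.le)

/-- sums along arithmetic progressions -/
theorem prog (g : ZMod q → ℂ) (hg : ∀ x, ‖g x‖ ≤ 1) {D : ℕ} (hD : Nat.Coprime D q) (m0 J : ℕ) (h : ZMod q) :
    ‖∑ j ∈ range J, g ((m0 + D * j : ℕ) : ZMod q) * (starRingEnd ℂ) (g ((m0 + D * j : ℕ) + h))‖ ≤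
      (J : ℝ) / q * ‖ac g h‖ + q := by
  have hq0 : 0 < q := Nat.pos_of_ne_zero (NeZero.ne q)
  have hqr : (0 : ℝ) < q := by exact_mod_cast hq0
  set G : ℕ → ℂ := fun j => g ((m0 + D * j : ℕ) : ZMod q) * (starRingEnd ℂ) (g ((m0 + D * j : ℕ) + h)) with hG
  have hper : ∀ j, G (j + q) = G j := by
    intro j
    have : ((m0 + D * (j + q) : ℕ) : ZMod q) = ((m0 + D * j : ℕ) : ZMod q) := by
      push_cast; rw [ZMod.natCast_self]; ring
    simp only [hG, this]
  have hone : ∀ a : ℕ, ∑ j ∈ range q, G (a + j) = ac g h := by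
    intro a
    unfold ac
    have hu : IsUnit ((D : ℕ) : ZMod q) := (ZMod.isUnit_iff_coprime D q).2 hD
    have e1 : ∑ j ∈ range q, G (a + j) = ∑ y : ZMod q, (fun x : ZMod q => g x * (starRingEnd ℂ) (g (x + h))) ((m0 : ZMod q) + D * (a + y)) := by
      refine Finset.sum_bij' (fun j _ => (j : ZMod q)) (fun y _ => y.val) (fun _ _ => mem_univ _)
        (fun y _ => mem_range.2 (ZMod.val_lt y)) (fun j hj => ?_) (fun y _ => ?_) (fun j _ => ?_)
      · exact ZMod.val_cast_of_lt (mem_range.1 hj)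
      · exact ZMod.natCast_zmod_val y
      · simp only [hG]
        push_cast
        rfl
    rw [e1]
    refine Fintype.sum_bijective (fun y : ZMod q => (m0 : ZMod q) + D * (a + y)) ?_ _ _ (fun _ => rfl)
    obtain ⟨u, hu⟩ := hu
    rw [← hu]
    constructor
    · intro x y hxy
      simp only [add_right_inj] at hxy
      have := (Units.mul_right_inj u).1 hxy
      exact add_left_cancel this
    · intro x
      refine ⟨(↑u⁻¹ : ZMod q) * (x - m0) - a, ?_⟩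
      simp only
      rw [add_sub_cancel, Units.mul_inv_cancel_left, add_sub_cancel]
  have hblocks : ∀ b : ℕ, ∑ j ∈ range (b * q), G j = b * ac g h := by
    intro b
    induction b with
    | zero => simp
    | succ b ih =>
      rw [Nat.succ_mul, sum_range_add, ih, hone]
      push_cast; ring
  have hdec : ∑ j ∈ range J, G j = (J / q : ℕ) * ac g h + ∑ j ∈ range (J % q), G (J / q * q + j) := by
    conv_lhs => rw [← Nat.div_add_mod' J q]
    rw [sum_range_add, hblocks]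
  have hGb : ∀ j, ‖G j‖ ≤ 1 := by
    intro j
    simp only [hG]
    rw [norm_mul, RCLike.norm_conj]
    exact mul_le_one₀ (hg _) (norm_nonneg _) (hg _)
  have hmod : ‖∑ j ∈ range (J % q), G (J / q * q + j)‖ ≤ q := by
    refine (norm_sum_le _ _).trans ((sum_le_sum fun j _ => hGb _).trans ?_)
    rw [sum_const, card_range, nsmul_eq_mul, mul_one]
    exact_mod_cast (Nat.mod_lt J hq0).le
  have hdiv : ‖((J / q : ℕ) : ℂ) * ac g h‖ ≤ (J : ℝ) / q * ‖ac g h‖ := by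
    rw [norm_mul, Complex.norm_natCast]
    apply mul_le_mul_of_nonneg_right _ (norm_nonneg _)
    exact Nat.cast_div_le
  calc ‖∑ j ∈ range J, G j‖ = ‖((J / q : ℕ) : ℂ) * ac g h + ∑ j ∈ range (J % q), G (J / q * q + j)‖ := by rw [hdec]
    _ ≤ _ := (norm_add_le _ _).trans (add_le_add hdiv hmod)

end Pool.Agent.Run7.h792.FL
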