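import Pool.Agent.Run7.h439.DC.Tr
import Pool.Agent.Run7.h792.FL.Main
import Pool.Agent.Run7.h792.FL.Ex

/-! Transfer to flat sets of residues at one scale. -/

set_option autoImplicit false

namespace Pool.Agent.Run7.h792.FL

open Finset Pool.Agent.H319R3.GC Pool.Agent.Y965.GP Pool.Agent.Run7.h439.DC
open Pool.Agent.Y965.PL (ASync ind ind_pos ind_neg ind_congr ind_nonneg ind_le_one Fg Fg_H Fg_not async_Fg)
open Pool.Agent.H499R2.HL (H H_unique)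
open Pool.Agent.H499R2.LT (odn)

variable {d : ℕ} {m r : ℕ → ℤ}

/-- transfer to the set `E`, up to `N` -/
structure TS (N : ℕ) (E : ℕ → Prop) (ρ κ : ℝ) (F : ℕ → ℝ) : Prop where
  bd : ∀ n, |F n| ≤ 1
  tr : ∀ u : ℕ, u ≤ N → |∑ n ∈ Icc 1 u, ind E n * F n - ρ * ∑ n ∈ Icc 1 u, F n| ≤ κ

theorem TS.congr {N : ℕ} {E : ℕ → Prop} {ρ κ : ℝ} {F G : ℕ → ℝ} (h : TS N E ρ κ F) (hFG : ∀ n, F n = G n) : TS N E ρ κ G := by
  have : F = G := funext hFG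
  rw [← this]; exact h

theorem TS.nonneg {N : ℕ} {E : ℕ → Prop} {ρ κ : ℝ} {F : ℕ → ℝ} (h : TS N E ρ κ F) : 0 ≤ κ :=
  (abs_nonneg _).trans (h.tr 0 (Nat.zero_le _))

/-- membership in a set of residues -/
def InA {q : ℕ} (A : Finset (ZMod q)) (n : ℕ) : Prop := ((n : ℕ) : ZMod q) ∈ A

theorem ind_one {q : ℕ} (A : Finset (ZMod q)) (n : ℕ) : ((ind (InA A) n : ℝ) : ℂ) = one A n := by
  unfold one
  by_cases h : InA A n
  · rw [ind_pos h, if_pos (show ((n : ℕ) : ZMod q) ∈ A from h)]; simp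
  · rw [ind_neg h, if_neg (show ¬ ((n : ℕ) : ZMod q) ∈ A from h)]; simp

theorem mean_one {q : ℕ} [NeZero q] (A : Finset (ZMod q)) : mean (one A) = ((A.card / q : ℝ) : ℂ) := by
  unfold mean
  rw [sum_one]
  push_cast; rfl

theorem flatF {q : ℕ} [NeZero q] {η : ℝ} {A : Finset (ZMod q)} (h : Flat q η A) : FlatF q η (one A) :=
  ⟨one_norm A, fun ξ hξ => by rw [ft_one]; exact h ξ hξ⟩

theorem rho_le {q : ℕ} [NeZero q] (A : Finset (ZMod q)) : (A.card / q : ℝ) ≤ 1 := by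
  have hq : (0 : ℝ) < q := by exact_mod_cast Nat.pos_of_ne_zero (NeZero.ne q)
  rw [div_le_one hq]
  have := Finset.card_le_univ A
  rw [ZMod.card] at this
  exact_mod_cast this

/-- the transfer to functions modulo `q`, at one scale -/
def SF (d : ℕ) (m r : ℕ → ℤ) (c0 k0 e : ℕ) (ε η c C : ℝ) : Prop :=
  ∀ s : ℤ, (s = 1 ∨ s = -1) → ∀ (N q : ℕ) [NeZero q], 1 ≤ N → Nat.Coprime d q → (N : ℝ) ^ ε ≤ q → (q : ℝ) ≤ (N : ℝ) ^ (1 - ε) →
    ∀ f : ZMod q → ℂ, FlatF q η f → ∀ w : ℕ → ℂ, (∀ n, ‖w n‖ ≤ 1) → (∀ n n' : ℕ, n ≡ n' [MOD d ^ e] → w n = w n') →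
    ∀ F : ℕ → ℝ, KSync d m r s c0 k0 F → ∀ u : ℕ, u ≤ N →
      ‖∑ n ∈ Icc 1 u, (F n : ℂ) * (w n * (f n - mean f))‖ ≤ C * (N : ℝ) ^ (1 - c)

/-- THE TRANSFER -/
theorem scaleF (h : Adm d m r) (c0 k0 e : ℕ) {ε : ℝ} (hε : 0 < ε) (hε1 : ε < 1) : ∃ η c C : ℝ, 0 < η ∧ 0 < c ∧ c < 1 ∧ 0 ≤ C ∧
    SF d m r c0 k0 e ε η c C := by
  obtain ⟨η, δ, C, hη, hδ, hC, H⟩ := main h c0 k0 e (ε := ε / 2) (by linarith) (by linarith)
  set c : ℝ := min (ε * δ) (ε / 2) with hc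
  have hc0 : 0 < c := lt_min (by positivity) (by linarith)
  have hc1 : c < 1 := lt_of_le_of_lt (min_le_right _ _) (by linarith)
  refine ⟨η, c, C + 2, hη, hc0, hc1, by linarith, ?_⟩
  intro s hs N q _ hN hdq hq1 hq2 f hf w hw1 hw2 F hF u hu
  have hNr : (1 : ℝ) ≤ N := by exact_mod_cast hN
  have hN0 : (0 : ℝ) < N := by linarith
  have hqr : (0 : ℝ) < q := by exact_mod_cast Nat.pos_of_ne_zero (NeZero.ne q)
  have hur : (u : ℝ) ≤ N := by exact_mod_cast hu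
  have hu0 : (0 : ℝ) ≤ u := Nat.cast_nonneg _
  by_cases hcase : (q : ℝ) ≤ (u : ℝ) ^ (1 - ε / 2)
  · have h1 := H s hs u q hdq hcase f hf w hw1 hw2 F (hF.toN u)
    refine h1.trans ?_
    have h2 : (q : ℝ) ^ (-δ) ≤ (N : ℝ) ^ (-c) := by
      calc (q : ℝ) ^ (-δ) ≤ ((N : ℝ) ^ ε) ^ (-δ) := Real.rpow_le_rpow_of_nonpos (by positivity) hq1 (by linarith)
        _ = (N : ℝ) ^ (-(ε * δ)) := by rw [← Real.rpow_mul hN0.le]; ring_nf
        _ ≤ (N : ℝ) ^ (-c) := Real.rpow_le_rpow_of_exponent_le hNr (neg_le_neg (min_le_left _ _))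
    have h3 : (N : ℝ) * (N : ℝ) ^ (-c) = (N : ℝ) ^ (1 - c) := by
      rw [sub_eq_add_neg, Real.rpow_add hN0, Real.rpow_one]
    calc C * u * (q : ℝ) ^ (-δ) ≤ C * N * (N : ℝ) ^ (-c) := by gcongr
      _ = C * (N : ℝ) ^ (1 - c) := by rw [mul_assoc, h3]
      _ ≤ (C + 2) * (N : ℝ) ^ (1 - c) := by gcongr; linarith
  · push Not at hcase
    have h1 : (u : ℝ) ≤ (N : ℝ) ^ (1 - ε / 2) := by
      by_contra hcon
      push Not at hcon
      have h2 : (N : ℝ) ^ (1 - ε) ≤ (u : ℝ) ^ (1 - ε / 2) := by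
        calc (N : ℝ) ^ (1 - ε) ≤ (N : ℝ) ^ ((1 - ε / 2) * (1 - ε / 2)) :=
              Real.rpow_le_rpow_of_exponent_le hNr (by nlinarith [sq_nonneg ε])
          _ = ((N : ℝ) ^ (1 - ε / 2)) ^ (1 - ε / 2) := by rw [Real.rpow_mul hN0.le]
          _ ≤ _ := Real.rpow_le_rpow (by positivity) hcon.le (by linarith)
      linarith
    have h2 : (u : ℝ) ≤ (N : ℝ) ^ (1 - c) :=
      h1.trans (Real.rpow_le_rpow_of_exponent_le hNr (by linarith [min_le_right (ε * δ) (ε / 2)]))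
    have t1 : ‖∑ n ∈ Icc 1 u, (F n : ℂ) * (w n * (f n - mean f))‖ ≤ u * 2 := by
      refine (norm_sum_le _ _).trans ((sum_le_sum (g := fun _ => (2 : ℝ)) fun n _ => ?_).trans ?_)
      · rw [norm_mul, norm_mul, Complex.norm_real, Real.norm_eq_abs]
        have a1 := hF.1 n
        have a2 := hw1 n
        have a3 : ‖f n - mean f‖ ≤ 2 := by
          have b1 := norm_sub_le (f n) (mean f)
          have b2 := hf.1 n
          have b3 := mean_norm hf.1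
          linarith
        calc |F n| * (‖w n‖ * ‖f n - mean f‖) ≤ 1 * (1 * 2) := by gcongr
          _ = 2 := by norm_num
      · rw [sum_const, nsmul_eq_mul, Nat.card_Icc, Nat.add_sub_cancel]
    refine t1.trans ?_
    calc (u : ℝ) * 2 ≤ (N : ℝ) ^ (1 - c) * 2 := by gcongr
      _ ≤ (C + 2) * (N : ℝ) ^ (1 - c) := by nlinarith [Real.rpow_nonneg hN0.le (1 - c)]

/-- sets -/
theorem SF.set {c0 k0 e : ℕ} {ε η c C : ℝ} (H : SF d m r c0 k0 e ε η c C) {s : ℤ} (hs : s = 1 ∨ s = -1) {N q : ℕ} [NeZero q]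
    (hN : 1 ≤ N) (hdq : Nat.Coprime d q) (hq1 : (N : ℝ) ^ ε ≤ q) (hq2 : (q : ℝ) ≤ (N : ℝ) ^ (1 - ε)) {A : Finset (ZMod q)}
    (hA : FlatF q η (one A)) {w : ℕ → ℝ} (hw1 : ∀ n, |w n| ≤ 1) (hw2 : ∀ n n' : ℕ, n ≡ n' [MOD d ^ e] → w n = w n')
    {F : ℕ → ℝ} (hF : KSync d m r s c0 k0 F) : TS N (InA A) (A.card / q) (C * (N : ℝ) ^ (1 - c)) (fun n => w n * F n) := by
  refine ⟨fun n => ?_, fun u hu => ?_⟩
  · rw [abs_mul]
    exact mul_le_one₀ (hw1 n) (abs_nonneg _) (hF.1 n)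
  · have h1 := H s hs N q hN hdq hq1 hq2 (one A) hA (fun n => (w n : ℂ))
      (fun n => by rw [Complex.norm_real, Real.norm_eq_abs]; exact hw1 n) (fun n n' hn => by rw [hw2 n n' hn]) F hF u hu
    have e1 : ∑ n ∈ Icc 1 u, (F n : ℂ) * ((w n : ℂ) * (one A (n : ZMod q) - mean (one A))) =
        ((∑ n ∈ Icc 1 u, ind (InA A) n * (w n * F n) - (A.card / q : ℝ) * ∑ n ∈ Icc 1 u, w n * F n : ℝ) : ℂ) := by
      rw [mean_one]
      push_cast
      rw [mul_sum, ← sum_sub_distrib]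
      apply sum_congr rfl
      intro n _
      rw [← ind_one]
      ring
    rw [e1, Complex.norm_real, Real.norm_eq_abs] at h1
    exact h1

/-- the `3x+1` function -/
def TSA (N : ℕ) (E : ℕ → Prop) (ρ κ : ℝ) : Prop := ∀ F : ℤ → ℝ, ASync 1 F → TS N E ρ κ (fun n => F (n : ℤ))

/-- the `3x+1` function on the odd integers -/
def TSO (N : ℕ) (E : ℕ → Prop) (ρ κ : ℝ) : Prop := ∀ F : ℤ → ℝ, ASync 1 F →
  TS N E ρ κ (fun n => if n % 2 = 1 then F (n : ℤ) else 0)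

/-- the transfer for the `3x+1` function: functions modulo `q` -/
def SA (ε η c C : ℝ) : Prop := ∀ (N q : ℕ) [NeZero q], 1 ≤ N → Odd q → (N : ℝ) ^ ε ≤ q → (q : ℝ) ≤ (N : ℝ) ^ (1 - ε) →
  (∀ f : ZMod q → ℂ, FlatF q η f → ∀ F : ℤ → ℝ, ASync 1 F → ∀ u : ℕ, u ≤ N →
    ‖∑ n ∈ Icc 1 u, (F (n : ℤ) : ℂ) * (f n - mean f)‖ ≤ C * (N : ℝ) ^ (1 - c) ∧
    ‖∑ n ∈ Icc 1 u, ((if n % 2 = 1 then F (n : ℤ) else 0 : ℝ) : ℂ) * (f n - mean f)‖ ≤ C * (N : ℝ) ^ (1 - c)) ∧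
  ∀ A : Finset (ZMod q), FlatF q η (one A) → TSA N (InA A) (A.card / q) (C * (N : ℝ) ^ (1 - c)) ∧
    TSO N (InA A) (A.card / q) (C * (N : ℝ) ^ (1 - c))

theorem tsa {ε : ℝ} (hε : 0 < ε) (hε1 : ε < 1) : ∃ η c C : ℝ, 0 < η ∧ 0 < c ∧ c < 1 ∧ 0 ≤ C ∧ SA ε η c C := by
  obtain ⟨η, c, C, hη, hc0, hc1, hC, H⟩ := scaleF (adm3 (k := 1) (by decide)) 1 0 1 hε hε1
  refine ⟨η, c, C, hη, hc0, hc1, hC, fun N q _ hN hq hq1 hq2 => ⟨fun f hf F hF u hu => ⟨?_, ?_⟩, fun A hA => ⟨fun F hF => ?_, fun F hF => ?_⟩⟩⟩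
  · have := H 1 (Or.inl rfl) N q hN (Nat.coprime_two_left.2 hq) hq1 hq2 f hf (fun _ => 1) (by simp) (fun _ _ _ => rfl) _
      (ksync_async hF) u hu
    refine le_trans (le_of_eq ?_) this
    congr 1
    apply sum_congr rfl
    intro n _
    rw [one_mul]
  · have := H 1 (Or.inl rfl) N q hN (Nat.coprime_two_left.2 hq) hq1 hq2 f hf (fun n => if n % 2 = 1 then 1 else 0)
      (fun n => by split_ifs <;> simp) (fun n n' h => by
        have h1 : n % 2 = n' % 2 := by simpa [Nat.ModEq] using h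
        rw [h1]) _ (ksync_async hF) u hu
    refine le_trans (le_of_eq ?_) this
    congr 1
    apply sum_congr rfl
    intro n _
    split_ifs <;> simp
  · have := H.set (Or.inl rfl) hN (Nat.coprime_two_left.2 hq) hq1 hq2 hA (w := fun _ => 1) (by simp) (fun _ _ _ => rfl)
      (ksync_async hF)
    exact this.congr fun n => by rw [one_mul]
  · have := H.set (Or.inl rfl) hN (Nat.coprime_two_left.2 hq) hq1 hq2 hA (w := fun n => if n % 2 = 1 then 1 else 0)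
      (fun n => by split_ifs <;> simp) (fun n n' h => by
        have h1 : n % 2 = n' % 2 := by simpa [Nat.ModEq] using h
        simp only [h1]) (ksync_async hF)
    exact this.congr fun n => by split_ifs <;> simp

variable {N : ℕ} {E : ℕ → Prop} {ρ κ : ℝ}

theorem TSA.fg (h : TSA N E ρ κ) {g : ℕ → ℕ → ℝ} {g0 : ℝ} (hg : ∀ k o, |g k o| ≤ 1) (hg0 : |g0| ≤ 1) :
    TS N E ρ κ (Fg g g0) := by
  refine (h _ (async_Fg hg hg0)).congr fun n => ?_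
  simp only [Int.toNat_natCast]

theorem TSO.fg (h : TSO N E ρ κ) {g : ℕ → ℕ → ℝ} {g0 : ℝ} (hg : ∀ k o, |g k o| ≤ 1) (hg0 : |g0| ≤ 1) :
    TS N E ρ κ (fun n => if n % 2 = 1 then Fg g g0 n else 0) := by
  refine (h _ (async_Fg hg hg0)).congr fun n => ?_
  simp only [Int.toNat_natCast]

/-- an initial segment -/
theorem TS.seg {F : ℕ → ℝ} (h : TS N E ρ κ F) {P : ℕ → Prop} (hP : ∀ n n', n ≤ n' → P n' → P n) {X : ℕ} (hX : X ≤ N) :
    |∑ n ∈ Icc 1 X, ind E n * (F n * ind P n) - ρ * ∑ n ∈ Icc 1 X, F n * ind P n| ≤ κ := by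
  obtain ⟨u, hu, hu'⟩ := Pool.Agent.Run7.h439.DC.seg hP X
  have e1 : ∑ n ∈ Icc 1 X, ind E n * (F n * ind P n) = ∑ n ∈ Icc 1 u, ind E n * F n := by
    rw [← sum_seg hu hu' (fun n => ind E n * F n)]
    apply sum_congr rfl
    intro n _; ring
  rw [e1, sum_seg hu hu' F]
  exact h.tr u (hu.trans hX)

/-- a final segment -/
theorem TS.seg' {F : ℕ → ℝ} (h : TS N E ρ κ F) {P : ℕ → Prop} (hP : ∀ n n', n ≤ n' → P n → P n') {X : ℕ} (hX : X ≤ N) :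
    |∑ n ∈ Icc 1 X, ind E n * (F n * ind P n) - ρ * ∑ n ∈ Icc 1 X, F n * ind P n| ≤ 2 * κ := by
  have h1 := h.seg (P := fun n => ¬ P n) (fun n n' hn h2 h3 => h2 (hP n n' hn h3)) hX
  have h2 := h.tr X hX
  have e0 : ∀ n, ind P n = 1 - ind (fun n => ¬ P n) n := by
    intro n
    by_cases hn : P n
    · rw [ind_pos hn, ind_neg (P := fun n => ¬ P n) (fun h => h hn), sub_zero]
    · rw [ind_neg hn, ind_pos (P := fun n => ¬ P n) hn, sub_self]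
  have e1 : ∑ n ∈ Icc 1 X, ind E n * (F n * ind P n) =
      ∑ n ∈ Icc 1 X, ind E n * F n - ∑ n ∈ Icc 1 X, ind E n * (F n * ind (fun n => ¬ P n) n) := by
    rw [← sum_sub_distrib]
    apply sum_congr rfl
    intro n _
    rw [e0 n]; ring
  have e2 : ∑ n ∈ Icc 1 X, F n * ind P n = ∑ n ∈ Icc 1 X, F n - ∑ n ∈ Icc 1 X, F n * ind (fun n => ¬ P n) n := by
    rw [← sum_sub_distrib]
    apply sum_congr rfl
    intro n _
    rw [e0 n]; ring
  rw [e1, e2]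
  have e3 : ∑ n ∈ Icc 1 X, ind E n * F n - ∑ n ∈ Icc 1 X, ind E n * (F n * ind (fun n => ¬ P n) n) -
      ρ * (∑ n ∈ Icc 1 X, F n - ∑ n ∈ Icc 1 X, F n * ind (fun n => ¬ P n) n) =
      (∑ n ∈ Icc 1 X, ind E n * F n - ρ * ∑ n ∈ Icc 1 X, F n) -
      (∑ n ∈ Icc 1 X, ind E n * (F n * ind (fun n => ¬ P n) n) - ρ * ∑ n ∈ Icc 1 X, F n * ind (fun n => ¬ P n) n) := by ring
  rw [e3]
  refine (abs_sub _ _).trans ?_
  linarith

open Classical in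
/-- THRESHOLDS: a condition `Q k o` on `n`, which defines a final segment, where `k < T` is the total stopping time and
`o` the number of the odd terms -/
theorem thr {F : ℕ → ℕ → ℕ → ℝ} {T : ℕ} (hF : ∀ t < T, TS N E ρ κ (F t 0)) {Q : ℕ → ℕ → Prop}
    (hQ : ∀ t n n', n ≤ n' → Q t n → Q t n') {X : ℕ} (hX : X ≤ N) :
    |∑ n ∈ Icc 1 X, ind E n * (∑ t ∈ range T, F t 0 n * ind (Q t) n)
      - ρ * ∑ n ∈ Icc 1 X, ∑ t ∈ range T, F t 0 n * ind (Q t) n| ≤ T * (2 * κ) := by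
  have e1 : ∑ n ∈ Icc 1 X, ind E n * (∑ t ∈ range T, F t 0 n * ind (Q t) n)
      - ρ * ∑ n ∈ Icc 1 X, ∑ t ∈ range T, F t 0 n * ind (Q t) n =
      ∑ t ∈ range T, (∑ n ∈ Icc 1 X, ind E n * (F t 0 n * ind (Q t) n)
        - ρ * ∑ n ∈ Icc 1 X, F t 0 n * ind (Q t) n) := by
    rw [sum_sub_distrib, ← mul_sum]
    congr 1
    · rw [sum_comm]
      apply sum_congr rfl
      intro n _
      rw [mul_sum]
    · congr 1
      rw [sum_comm]
  rw [e1]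
  refine (abs_sum_le_sum_abs _ _).trans ?_
  refine (sum_le_sum fun t ht => (hF t (mem_range.1 ht)).seg' (hQ t) hX).trans ?_
  rw [sum_const, card_range, nsmul_eq_mul]

open Classical in
/-- one level -/
theorem TSA.lev (h : TSA N E ρ κ) (t : ℕ) : TS N E ρ κ (ind (H t)) := by
  refine (h.fg (g := fun k _ => if k = t then 1 else 0) (g0 := 0) ?_ (by simp)).congr fun n => ?_
  · intro k o
    split_ifs <;> simp
  · by_cases hn : ∃ k, H k n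
    · obtain ⟨k, hk⟩ := hn
      rw [Fg_H hk]
      by_cases hkt : k = t
      · subst hkt
        rw [if_pos rfl, ind_pos hk]
      · rw [if_neg hkt, ind_neg (fun h2 => hkt (H_unique hk h2))]
    · rw [Fg_not hn, ind_neg (fun h2 => hn ⟨t, h2⟩)]

end Pool.Agent.Run7.h792.FL
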