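import Pool.Agent.Run7.h439.DC.Ld
import Pool.Agent.Run7.h792.FL.Scale

/-! Windows, thresholds and large deviations in flat sets of residues, at one scale. -/

set_option autoImplicit false

namespace Pool.Agent.Run7.h792.FL

open Finset Filter Topology Pool.Agent.Y965.PL Pool.Agent.Run7.h439.DC
open Pool.Agent.H499R2.HL (H H_unique)
open Pool.Agent.H499R2.LT (odn)
open Pool.Agent.H395R2.G3 (SetLD SetLD_finite fT rate count expo_eq FF FF_cont rr mu_gt)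

variable {N : ℕ} {E : ℕ → Prop} {ρ κ : ℝ}

theorem TSA.one (h : TSA N E ρ κ) : TS N E ρ κ (ind (fun _ => True)) := by
  refine (h.fg (g := fun _ _ => 1) (g0 := 1) (by simp) (by simp)).congr fun n => ?_
  rw [ind_pos trivial]
  by_cases hn : ∃ k, H k n
  · obtain ⟨k, hk⟩ := hn
    rw [Fg_H hk]
  · rw [Fg_not hn]

open Classical in
theorem ind_sum {Q : ℕ → ℕ → Prop} (T n : ℕ) :
    ind (fun n => ∃ t < T, H t n ∧ Q t n) n = ∑ t ∈ range T, ind (H t) n * ind (Q t) n := by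
  by_cases h : ∃ t < T, H t n
  · obtain ⟨t, ht, h1⟩ := h
    rw [sum_eq_single_of_mem t (mem_range.2 ht) (fun t' _ hne => by
      rw [ind_neg (fun h2 => hne (H_unique h2 h1)), zero_mul]), ind_pos h1, one_mul]
    apply ind_congr
    constructor
    · rintro ⟨t', _, h3, h4⟩
      rwa [H_unique h3 h1] at h4
    · intro h3; exact ⟨t, ht, h1, h3⟩
  · rw [ind_neg (P := fun n => ∃ t < T, H t n ∧ Q t n) (fun ⟨t, ht, h1, _⟩ => h ⟨t, ht, h1⟩), sum_eq_zero]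
    intro t ht
    rw [ind_neg (fun h2 => h ⟨t, mem_range.1 ht, h2⟩), zero_mul]

theorem TSA.thr (h : TSA N E ρ κ) {Q : ℕ → ℕ → Prop} (hQ : ∀ t n n', n ≤ n' → Q t n → Q t n') (T : ℕ) {X : ℕ} (hX : X ≤ N) :
    |∑ n ∈ Icc 1 X, ind E n * ind (fun n => ∃ t < T, H t n ∧ Q t n) n
      - ρ * ∑ n ∈ Icc 1 X, ind (fun n => ∃ t < T, H t n ∧ Q t n) n| ≤ T * (2 * κ) := by
  have h1 := FL.thr (F := fun t _ n => ind (H t) n) (T := T) (fun t _ => h.lev t) hQ hX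
  simp only [ind_sum]
  exact h1

theorem TSA.thr2 (h : TSA N E ρ κ) {Q R : ℕ → ℕ → Prop}
    (hQ : ∀ t n n', n ≤ n' → Q t n → Q t n') (hR : ∀ t n n', n ≤ n' → R t n → R t n') (hRQ : ∀ t n, R t n → Q t n)
    (T : ℕ) {X : ℕ} (hX : X ≤ N) :
    |∑ n ∈ Icc 1 X, ind E n * ind (fun n => ∃ t < T, H t n ∧ Q t n ∧ ¬ R t n) n
      - ρ * ∑ n ∈ Icc 1 X, ind (fun n => ∃ t < T, H t n ∧ Q t n ∧ ¬ R t n) n| ≤ T * (4 * κ) := by
  have e0 : ∀ n, ind (fun n => ∃ t < T, H t n ∧ Q t n ∧ ¬ R t n) n =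
      ind (fun n => ∃ t < T, H t n ∧ Q t n) n - ind (fun n => ∃ t < T, H t n ∧ R t n) n := by
    intro n
    by_cases h2 : ∃ t < T, H t n ∧ R t n
    · obtain ⟨t, ht, h3, h4⟩ := h2
      rw [ind_pos (P := fun n => ∃ t < T, H t n ∧ R t n) ⟨t, ht, h3, h4⟩,
        ind_pos (P := fun n => ∃ t < T, H t n ∧ Q t n) ⟨t, ht, h3, hRQ _ _ h4⟩, sub_self]
      apply ind_neg
      rintro ⟨t', _, h5, _, h6⟩
      have := H_unique h5 h3
      subst this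
      exact h6 h4
    · rw [ind_neg (P := fun n => ∃ t < T, H t n ∧ R t n) h2, sub_zero]
      apply ind_congr
      constructor
      · rintro ⟨t, ht, h3, h4, _⟩; exact ⟨t, ht, h3, h4⟩
      · rintro ⟨t, ht, h3, h4⟩
        exact ⟨t, ht, h3, h4, fun h5 => h2 ⟨t, ht, h3, h5⟩⟩
  have h1 := h.thr hQ T hX
  have h2 := h.thr hR T hX
  have e1 : ∑ n ∈ Icc 1 X, ind E n * ind (fun n => ∃ t < T, H t n ∧ Q t n ∧ ¬ R t n) n
      - ρ * ∑ n ∈ Icc 1 X, ind (fun n => ∃ t < T, H t n ∧ Q t n ∧ ¬ R t n) n =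
      (∑ n ∈ Icc 1 X, ind E n * ind (fun n => ∃ t < T, H t n ∧ Q t n) n
      - ρ * ∑ n ∈ Icc 1 X, ind (fun n => ∃ t < T, H t n ∧ Q t n) n) -
      (∑ n ∈ Icc 1 X, ind E n * ind (fun n => ∃ t < T, H t n ∧ R t n) n
      - ρ * ∑ n ∈ Icc 1 X, ind (fun n => ∃ t < T, H t n ∧ R t n) n) := by
    have a1 : ∑ n ∈ Icc 1 X, ind E n * ind (fun n => ∃ t < T, H t n ∧ Q t n ∧ ¬ R t n) n =
      ∑ n ∈ Icc 1 X, ind E n * ind (fun n => ∃ t < T, H t n ∧ Q t n) n -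
      ∑ n ∈ Icc 1 X, ind E n * ind (fun n => ∃ t < T, H t n ∧ R t n) n := by
      rw [← sum_sub_distrib]
      apply sum_congr rfl
      intro n _
      rw [e0 n, mul_sub]
    have a2 : ∑ n ∈ Icc 1 X, ind (fun n => ∃ t < T, H t n ∧ Q t n ∧ ¬ R t n) n =
      ∑ n ∈ Icc 1 X, ind (fun n => ∃ t < T, H t n ∧ Q t n) n - ∑ n ∈ Icc 1 X, ind (fun n => ∃ t < T, H t n ∧ R t n) n := by
      rw [← sum_sub_distrib]
      apply sum_congr rfl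
      intro n _
      rw [e0 n]
    rw [a1, a2]; ring
  rw [e1]
  refine (abs_sub _ _).trans ?_
  linarith

theorem floor_le {g : ℝ} (hg : 0 ≤ g) {X : ℕ} (hX : X ≤ N) :
    ((⌊g * Real.log X⌋₊ + 1 : ℕ) : ℝ) ≤ ((⌊g * Real.log N⌋₊ + 1 : ℕ) : ℝ) := by
  have h1 : ⌊g * Real.log X⌋₊ ≤ ⌊g * Real.log N⌋₊ := Nat.floor_le_floor (mul_le_mul_of_nonneg_left (log_mono hX) hg)
  exact_mod_cast Nat.add_le_add_right h1 1

/-- WINDOWS -/
theorem TSA.win {C c : ℝ} (h : TSA N E ρ (C * (N : ℝ) ^ (1 - c))) (hC : 0 ≤ C) (hc0 : 0 < c) (n0 : ℕ) {g1 g2 : ℝ}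
    (hg1 : 0 ≤ g1) (hg : g1 ≤ g2) (hN : 1 ≤ N) {X : ℕ} (hX : X ≤ N) :
    |∑ n ∈ Icc 1 X, ind E n * ind (Win g1 g2 n0) n - ρ * ∑ n ∈ Icc 1 X, ind (Win g1 g2 n0) n|
      ≤ 4 * C * (1 + 2 / c) * (g2 + 1) * (N : ℝ) ^ (1 - c / 2) := by
  have h1 := h.thr2 (Q := fun t n => n0 ≤ n ∧ (t : ℝ) ≤ g2 * Real.log n)
    (R := fun t n => n0 ≤ n ∧ (t : ℝ) < g1 * Real.log n)
    (fun t n n' hn h2 => ⟨h2.1.trans hn, h2.2.trans (mul_le_mul_of_nonneg_left (log_mono hn) (by linarith))⟩)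
    (fun t n n' hn h2 => ⟨h2.1.trans hn, h2.2.trans_le (mul_le_mul_of_nonneg_left (log_mono hn) hg1)⟩)
    (fun t n h2 => ⟨h2.1, h2.2.le.trans (mul_le_mul_of_nonneg_right hg (Real.log_natCast_nonneg n))⟩)
    (⌊g2 * Real.log X⌋₊ + 1) hX
  have e : ∀ n ∈ Icc 1 X, ind (Win g1 g2 n0) n = ind (fun n => ∃ t < ⌊g2 * Real.log X⌋₊ + 1, H t n ∧
      (n0 ≤ n ∧ (t : ℝ) ≤ g2 * Real.log n) ∧ ¬ (n0 ≤ n ∧ (t : ℝ) < g1 * Real.log n)) n := by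
    intro n hn
    exact ind_congr (win_iff hg hg1 n0 (mem_Icc.1 hn).2)
  rw [sum_congr rfl e, sum_congr rfl (fun n hn => by rw [e n hn])]
  refine h1.trans ?_
  have h2 := log_abs hc0 (show 0 ≤ g2 by linarith) hN
  have h3 := floor_le (N := N) (show 0 ≤ g2 by linarith) hX
  calc ((⌊g2 * Real.log X⌋₊ + 1 : ℕ) : ℝ) * (4 * (C * (N : ℝ) ^ (1 - c)))
      ≤ ((⌊g2 * Real.log N⌋₊ + 1 : ℕ) : ℝ) * (4 * (C * (N : ℝ) ^ (1 - c))) := by gcongr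
    _ = 4 * C * (((⌊g2 * Real.log N⌋₊ + 1 : ℕ) : ℝ) * (N : ℝ) ^ (1 - c)) := by ring
    _ ≤ 4 * C * ((1 + 2 / c) * (g2 + 1) * (N : ℝ) ^ (1 - c / 2)) := mul_le_mul_of_nonneg_left h2 (by positivity)
    _ = _ := by ring

/-- LARGE VALUES -/
theorem TSA.big {C c : ℝ} (h : TSA N E ρ (C * (N : ℝ) ^ (1 - c))) (hC : 0 ≤ C) (hc0 : 0 < c) (n0 : ℕ) {g : ℝ}
    (hg : 0 ≤ g) (hN : 1 ≤ N) {X : ℕ} (hX : X ≤ N) :
    |∑ n ∈ Icc 1 X, ind E n * ind (Big g n0) n - ρ * ∑ n ∈ Icc 1 X, ind (Big g n0) n|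
      ≤ 4 * C * (1 + 2 / c) * (g + 1) * (N : ℝ) ^ (1 - c / 2) := by
  have h1 := h.thr (Q := fun t n => n0 ≤ n ∧ (t : ℝ) < g * Real.log n)
    (fun t n n' hn h2 => ⟨h2.1.trans hn, h2.2.trans_le (mul_le_mul_of_nonneg_left (log_mono hn) hg)⟩)
    (⌊g * Real.log X⌋₊ + 1) hX
  set P : ℕ → Prop := fun n => ∃ t < ⌊g * Real.log X⌋₊ + 1, H t n ∧ (n0 ≤ n ∧ (t : ℝ) < g * Real.log n) with hP
  set Q : ℕ → Prop := fun n => n0 ≤ n with hQ
  have h0 := h.one.seg' (P := Q) (fun n n' hn h2 => h2.trans hn) hX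
  have e : ∀ n ∈ Icc 1 X, ind (Big g n0) n = ind (fun _ => True) n * ind Q n - ind P n := by
    intro n hn
    rw [ind_pos (P := fun _ : ℕ => True) trivial, one_mul]
    by_cases h3 : P n
    · have h3' := h3
      obtain ⟨t, _, h4, h5⟩ := h3
      rw [ind_pos h3', ind_pos (P := Q) h5.1, sub_self]
      apply ind_neg
      exact fun h6 => h6.2 ⟨t, h4, h5.2⟩
    · rw [ind_neg h3, sub_zero]
      apply ind_congr
      constructor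
      · intro h4; exact h4.1
      · intro h4
        refine ⟨h4, ?_⟩
        rintro ⟨t, h5, h6⟩
        apply h3
        refine ⟨t, ?_, h5, h4, h6⟩
        have h7 : (t : ℝ) ≤ g * Real.log X := h6.le.trans (mul_le_mul_of_nonneg_left (log_mono (mem_Icc.1 hn).2) hg)
        exact Nat.lt_succ_of_le (Nat.le_floor h7)
  have e1 : ∑ n ∈ Icc 1 X, ind E n * ind (Big g n0) n = ∑ n ∈ Icc 1 X, ind E n * (ind (fun _ => True) n * ind Q n) -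
      ∑ n ∈ Icc 1 X, ind E n * ind P n := by
    rw [← sum_sub_distrib]
    apply sum_congr rfl
    intro n hn
    rw [e n hn]; ring
  have e2 : ∑ n ∈ Icc 1 X, ind (Big g n0) n = ∑ n ∈ Icc 1 X, ind (fun _ => True) n * ind Q n - ∑ n ∈ Icc 1 X, ind P n := by
    rw [← sum_sub_distrib]
    apply sum_congr rfl
    intro n hn
    rw [e n hn]
  rw [e1, e2]
  have e3 : ∑ n ∈ Icc 1 X, ind E n * (ind (fun _ => True) n * ind Q n) - ∑ n ∈ Icc 1 X, ind E n * ind P n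
      - ρ * (∑ n ∈ Icc 1 X, ind (fun _ => True) n * ind Q n - ∑ n ∈ Icc 1 X, ind P n) =
      (∑ n ∈ Icc 1 X, ind E n * (ind (fun _ => True) n * ind Q n) - ρ * ∑ n ∈ Icc 1 X, ind (fun _ => True) n * ind Q n) -
      (∑ n ∈ Icc 1 X, ind E n * ind P n - ρ * ∑ n ∈ Icc 1 X, ind P n) := by ring
  rw [e3]
  refine (abs_sub _ _).trans ?_
  have h2 := log_abs hc0 hg hN
  have h3 := floor_le (N := N) hg hX
  have h3' : (1 : ℝ) ≤ ((⌊g * Real.log N⌋₊ + 1 : ℕ) : ℝ) := by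
    push_cast
    have : (0 : ℝ) ≤ ⌊g * Real.log N⌋₊ := Nat.cast_nonneg _
    linarith
  set Y := ((⌊g * Real.log N⌋₊ + 1 : ℕ) : ℝ) with hY
  have h4 : C * (N : ℝ) ^ (1 - c) ≤ C * (Y * (N : ℝ) ^ (1 - c)) := by
    apply mul_le_mul_of_nonneg_left _ hC
    exact le_mul_of_one_le_left (by positivity) h3'
  have h5 : C * (Y * (N : ℝ) ^ (1 - c)) ≤ C * ((1 + 2 / c) * (g + 1) * (N : ℝ) ^ (1 - c / 2)) :=
    mul_le_mul_of_nonneg_left h2 hC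
  calc _ ≤ 2 * (C * (N : ℝ) ^ (1 - c)) + ((⌊g * Real.log X⌋₊ + 1 : ℕ) : ℝ) * (2 * (C * (N : ℝ) ^ (1 - c))) := add_le_add h0 h1
    _ ≤ 2 * (C * (N : ℝ) ^ (1 - c)) + Y * (2 * (C * (N : ℝ) ^ (1 - c))) := by gcongr
    _ ≤ 2 * (C * (Y * (N : ℝ) ^ (1 - c))) + 2 * (C * (Y * (N : ℝ) ^ (1 - c))) := by
        have : Y * (2 * (C * (N : ℝ) ^ (1 - c))) = 2 * (C * (Y * (N : ℝ) ^ (1 - c))) := by ring
        rw [this]; linarith
    _ ≤ 4 * (C * ((1 + 2 / c) * (g + 1) * (N : ℝ) ^ (1 - c / 2))) := by linarith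
    _ = _ := by ring

/-- LARGE DEVIATIONS at one scale: all sets `E` with the transfer property and `ρ ≥ N ^ (-v)` -/
theorem ld {C c : ℝ} (hC : 0 ≤ C) (hc0 : 0 < c) (hc : c ≤ 1) {α : ℝ} (hα : 1 / Real.log 2 < α) {v : ℝ} (hv0 : 0 ≤ v)
    (hv : v + α * rate (1 / α) < c / 2) {ε : ℝ} (hε : 0 < ε) : ∃ X₀ : ℕ, ∀ N : ℕ, X₀ ≤ N → ∀ (E : ℕ → Prop) (ρ : ℝ),
      (N : ℝ) ^ (-v) ≤ ρ → TSA N E ρ (C * (N : ℝ) ^ (1 - c)) →
      ρ * (N : ℝ) ^ (1 - α * rate (1 / α) - ε) ≤ ∑ n ∈ Icc 1 N, ind E n * ind (Win (α - ε) (α + ε) 2) n := by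
  have hl2 : 0 < Real.log 2 := Real.log_pos (by norm_num)
  have hα0 : 0 < α := lt_trans (by positivity) hα
  have hF : 0 < FF (rr α) := by
    have h1 := expo_eq hα
    have h2 : 0 < α * FF (rr α) := by rw [← h1]; linarith
    exact pos_of_mul_pos_right h2 hα0.le
  set e := α * rate (1 / α) with he
  set ε' : ℝ := min (min (ε / 2) α) ((c / 2 - e - v) / 2) with hε'
  have hε'0 : 0 < ε' := lt_min (lt_min (by positivity) hα0) (by linarith)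
  have hε'1 : ε' ≤ ε / 2 := (min_le_left _ _).trans (min_le_left _ _)
  have hε'2 : ε' ≤ α := (min_le_left _ _).trans (min_le_right _ _)
  have hε'3 : ε' ≤ (c / 2 - e - v) / 2 := min_le_right _ _
  obtain ⟨X₀, hX₀⟩ := count hα hF hε'0
  rw [← he] at hX₀
  set D : ℝ := 4 * C * (1 + 2 / c) * (α + ε' + 1) with hD
  have hD0 : 0 ≤ D := by positivity
  have t1 : Tendsto (fun x : ℝ => x ^ (ε - ε')) atTop atTop := tendsto_rpow_atTop (by linarith)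
  have t2 : Tendsto (fun x : ℝ => x ^ ((c / 2 - e - v - ε'))) atTop atTop := tendsto_rpow_atTop (by linarith)
  obtain ⟨X₁, hX₁⟩ := ((t1.eventually_ge_atTop 2).and ((t2.eventually_ge_atTop (2 * D)).and
    ((eventually_ge_atTop X₀).and (eventually_ge_atTop 1)))).exists_forall_of_atTop
  refine ⟨⌈X₁⌉₊, fun N hN E ρ hρ h => ?_⟩
  obtain ⟨g1, g2, g3, g4⟩ := hX₁ N ((Nat.le_ceil X₁).trans (by exact_mod_cast hN))
  have hN1 : 1 ≤ N := by exact_mod_cast g4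
  have hx0 : (0 : ℝ) < N := by linarith
  have hρ0 : 0 < ρ := lt_of_lt_of_le (by positivity) hρ
  have h1 := hX₀ N g3
  rw [setLD_card hx0.le, Nat.floor_natCast] at h1
  have h2 := h.win hC hc0 2 (g1 := α - ε') (g2 := α + ε') (by linarith) (by linarith) hN1 le_rfl
  have h3 := (abs_le.1 h2).1
  have h6 : ρ * (N : ℝ) ^ (1 - e - ε') ≤ ρ * ∑ n ∈ Icc 1 N, ind (Win (α - ε') (α + ε') 2) n :=
    mul_le_mul_of_nonneg_left h1 hρ0.le
  have h7 : (N : ℝ) ^ (-v) * (N : ℝ) ^ (1 - e - ε') = (N : ℝ) ^ (c / 2 - e - v - ε') * (N : ℝ) ^ (1 - c / 2) := by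
    rw [← Real.rpow_add hx0, ← Real.rpow_add hx0]; congr 1; ring
  have h8 : (N : ℝ) ^ (1 - e - ε') = (N : ℝ) ^ (ε - ε') * (N : ℝ) ^ (1 - e - ε) := by
    rw [← Real.rpow_add hx0]; congr 1; ring
  have h9 : 2 * (D * (N : ℝ) ^ (1 - c / 2)) ≤ ρ * (N : ℝ) ^ (1 - e - ε') := by
    calc 2 * (D * (N : ℝ) ^ (1 - c / 2)) = 2 * D * (N : ℝ) ^ (1 - c / 2) := by ring
      _ ≤ (N : ℝ) ^ (c / 2 - e - v - ε') * (N : ℝ) ^ (1 - c / 2) := mul_le_mul_of_nonneg_right g2 (by positivity)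
      _ = (N : ℝ) ^ (-v) * (N : ℝ) ^ (1 - e - ε') := h7.symm
      _ ≤ _ := mul_le_mul_of_nonneg_right hρ (by positivity)
  have h10 : 2 * (ρ * (N : ℝ) ^ (1 - e - ε)) ≤ ρ * (N : ℝ) ^ (1 - e - ε') := by
    rw [h8]
    have : 2 * (N : ℝ) ^ (1 - e - ε) ≤ (N : ℝ) ^ (ε - ε') * (N : ℝ) ^ (1 - e - ε) := mul_le_mul_of_nonneg_right g1 (by positivity)
    calc 2 * (ρ * (N : ℝ) ^ (1 - e - ε)) = ρ * (2 * (N : ℝ) ^ (1 - e - ε)) := by ring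
      _ ≤ _ := mul_le_mul_of_nonneg_left this hρ0.le
  have h11 : ∑ n ∈ Icc 1 N, ind E n * ind (Win (α - ε') (α + ε') 2) n ≤
      ∑ n ∈ Icc 1 N, ind E n * ind (Win (α - ε) (α + ε) 2) n := by
    apply sum_le_sum
    intro n _
    apply mul_le_mul_of_nonneg_left _ (ind_nonneg _ _)
    apply ind_mono
    rintro ⟨a1, t, a2, a3, a4⟩
    have hn : 0 ≤ Real.log (n : ℝ) := Real.log_natCast_nonneg n
    exact ⟨a1, t, a2, (mul_le_mul_of_nonneg_right (by linarith) hn).trans a3,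
      a4.trans (mul_le_mul_of_nonneg_right (by linarith) hn)⟩
  linarith

end Pool.Agent.Run7.h792.FL
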