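import Pool.Agent.Run7.h439.DC.LL
import Pool.Agent.Run7.h792.FL.Win
import Pool.Agent.Run7.h792.FL.Law

/-! Slow integers and shares on the levels, in flat sets of residues at one scale. -/

set_option autoImplicit false

namespace Pool.Agent.Run7.h792.FL

open Finset Filter Topology Pool.Agent.Y965.PL Pool.Agent.Run7.h439.DC
open Pool.Agent.H499R2.HL (H H_unique)
open Pool.Agent.H499R2.LT (odn)

variable {N : ℕ} {E : ℕ → Prop} {ρ κ : ℝ}

theorem TSA.slow {C c : ℝ} (h : TSA N E ρ (C * (N : ℝ) ^ (1 - c))) (hC : 0 ≤ C) (hc0 : 0 < c) {g : ℝ}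
    (hg : 0 ≤ g) (hN : 1 ≤ N) {X : ℕ} (hX : X ≤ N) :
    |∑ n ∈ Icc 1 X, ind E n * ind (Slow g) n - ρ * ∑ n ∈ Icc 1 X, ind (Slow g) n|
      ≤ 3 * C * (1 + 2 / c) * (g + 1) * (N : ℝ) ^ (1 - c / 2) := by
  have h1 := h.thr (Q := fun t n => (t : ℝ) ≤ g * Real.log n)
    (fun t n n' hn h2 => h2.trans (mul_le_mul_of_nonneg_left (log_mono hn) hg)) (⌊g * Real.log X⌋₊ + 1) hX
  set P : ℕ → Prop := fun n => ∃ t < ⌊g * Real.log X⌋₊ + 1, H t n ∧ (t : ℝ) ≤ g * Real.log n with hP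
  have h0 := h.one.tr X hX
  have e : ∀ n ∈ Icc 1 X, ind (Slow g) n = 1 - ind P n := by
    intro n hn
    by_cases h3 : P n
    · rw [ind_pos h3, sub_self]
      apply ind_neg
      obtain ⟨t, _, h4, h5⟩ := h3
      exact fun h6 => h6 ⟨t, h4, h5⟩
    · rw [ind_neg h3, sub_zero]
      apply ind_pos
      rintro ⟨t, h4, h5⟩
      apply h3
      refine ⟨t, ?_, h4, h5⟩
      have h6 : (t : ℝ) ≤ g * Real.log X := h5.trans (mul_le_mul_of_nonneg_left (log_mono (mem_Icc.1 hn).2) hg)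
      exact Nat.lt_succ_of_le (Nat.le_floor h6)
  have e1 : ∑ n ∈ Icc 1 X, ind E n * ind (Slow g) n = ∑ n ∈ Icc 1 X, ind E n * ind (fun _ => True) n - ∑ n ∈ Icc 1 X, ind E n * ind P n := by
    rw [← sum_sub_distrib]
    apply sum_congr rfl
    intro n hn
    rw [e n hn, ind_pos (P := fun _ : ℕ => True) trivial]; ring
  have e2 : ∑ n ∈ Icc 1 X, ind (Slow g) n = ∑ n ∈ Icc 1 X, ind (fun _ => True) n - ∑ n ∈ Icc 1 X, ind P n := by
    rw [← sum_sub_distrib]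
    apply sum_congr rfl
    intro n hn
    rw [e n hn, ind_pos (P := fun _ : ℕ => True) trivial]
  rw [e1, e2]
  have e3 : ∑ n ∈ Icc 1 X, ind E n * ind (fun _ => True) n - ∑ n ∈ Icc 1 X, ind E n * ind P n
      - ρ * (∑ n ∈ Icc 1 X, ind (fun _ => True) n - ∑ n ∈ Icc 1 X, ind P n) =
      (∑ n ∈ Icc 1 X, ind E n * ind (fun _ => True) n - ρ * ∑ n ∈ Icc 1 X, ind (fun _ => True) n) -
      (∑ n ∈ Icc 1 X, ind E n * ind P n - ρ * ∑ n ∈ Icc 1 X, ind P n) := by ring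
  rw [e3]
  refine (abs_sub _ _).trans ?_
  have h2 := log_abs hc0 hg hN
  have h3 := floor_le (N := N) hg hX
  have h3' : (1 : ℝ) ≤ ((⌊g * Real.log N⌋₊ + 1 : ℕ) : ℝ) := by
    push_cast
    have : (0 : ℝ) ≤ ⌊g * Real.log N⌋₊ := Nat.cast_nonneg _
    linarith
  set Y := ((⌊g * Real.log N⌋₊ + 1 : ℕ) : ℝ) with hY
  have h4 : C * (N : ℝ) ^ (1 - c) ≤ C * (Y * (N : ℝ) ^ (1 - c)) := by
    apply mul_le_mul_of_nonneg_left _ hC
    exact le_mul_of_one_le_left (by positivity) h3'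
  have h5 : C * (Y * (N : ℝ) ^ (1 - c)) ≤ C * ((1 + 2 / c) * (g + 1) * (N : ℝ) ^ (1 - c / 2)) :=
    mul_le_mul_of_nonneg_left h2 hC
  calc _ ≤ C * (N : ℝ) ^ (1 - c) + ((⌊g * Real.log X⌋₊ + 1 : ℕ) : ℝ) * (2 * (C * (N : ℝ) ^ (1 - c))) := add_le_add h0 h1
    _ ≤ C * (N : ℝ) ^ (1 - c) + Y * (2 * (C * (N : ℝ) ^ (1 - c))) := by gcongr
    _ ≤ C * (Y * (N : ℝ) ^ (1 - c)) + 2 * (C * (Y * (N : ℝ) ^ (1 - c))) := by
        have : Y * (2 * (C * (N : ℝ) ^ (1 - c))) = 2 * (C * (Y * (N : ℝ) ^ (1 - c))) := by ring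
        rw [this]; linarith
    _ ≤ 3 * (C * ((1 + 2 / c) * (g + 1) * (N : ℝ) ^ (1 - c / 2))) := by linarith
    _ = _ := by ring

/-- equal shares on the levels, at one scale: `M X k` is the number of the `n ≤ X` of level `k` -/
theorem share {M : ℕ → ℕ → ℝ} {C c A s p : ℝ} (hC : 0 ≤ C) (hc : 0 < c) (hs : 0 < s) (hp : 0 < p)
    {Ψ : ℕ → ℕ → ℝ} (hΨ : ∀ X k, p ≤ Ψ X k)
    (hlaw : ∀ K ε : ℝ, 0 < ε → ∃ X₀ : ℝ, ∀ X : ℕ, X₀ ≤ X → ∀ k : ℕ,
      |(k : ℝ) - A * Real.log X| ≤ K * Real.sqrt (Real.log X) → |M X k / (X * gn A s X k) - Ψ X k| ≤ ε) :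
    ∀ K : ℝ, ∃ (K' : ℝ) (X₀ : ℕ), 0 ≤ K' ∧ ∀ X : ℕ, X₀ ≤ X → ∀ k : ℕ,
      |(k : ℝ) - A * Real.log X| ≤ K * Real.sqrt (Real.log X) → 0 < M X k ∧ ∀ (ME ρ : ℝ), |ME - ρ * M X k| ≤ C * (X : ℝ) ^ (1 - c) →
        |ME / M X k - ρ| ≤ K' * (X : ℝ) ^ (-(c / 2)) := by
  intro K
  obtain ⟨X₁, hX₁⟩ := hlaw K (p / 2) (by positivity)
  set G : ℝ := Real.exp (K ^ 2 / (2 * s)) * Real.sqrt (2 * Real.pi * s) with hG
  have hG0 : 0 < G := by positivity
  refine ⟨C * (2 / p) * G * (1 + 2 / c), max ⌈X₁⌉₊ 2, by positivity, fun X hX k hk => ?_⟩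
  have hX2 : 2 ≤ X := (le_max_right _ _).trans hX
  have g2 : X₁ ≤ X := (Nat.le_ceil X₁).trans (by exact_mod_cast (le_max_left _ _).trans hX)
  have hX0 : (0 : ℝ) < X := by exact_mod_cast (by omega : 0 < X)
  have hg := gn_pos (A := A) hs (k := k) hX2
  have h1 := hX₁ X g2 k hk
  have h3 := gn_low (A := A) hs K hX2 hk
  rw [← hG] at h3
  have h4 : p / 2 ≤ M X k / (X * gn A s X k) := by
    have := (abs_le.1 h1).1
    have := hΨ X k
    linarith
  rw [le_div_iff₀ (by positivity)] at h4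
  have hN : 0 < M X k := lt_of_lt_of_le (by positivity) h4
  refine ⟨hN, fun ME ρ h2 => ?_⟩
  have e1 : ME / M X k - ρ = (ME - ρ * M X k) / M X k := by field_simp
  rw [e1, abs_div, abs_of_pos hN, div_le_iff₀ hN]
  refine h2.trans ?_
  have e : (X : ℝ) ^ (1 - c) = (X : ℝ) ^ (-c) * X := by
    rw [sub_eq_neg_add, Real.rpow_add hX0, Real.rpow_one]
  have h5 := sqrt_log_le hc (show 1 ≤ X by omega)
  have h6 : 0 ≤ C * (2 / p) * G * (1 + 2 / c) * (X : ℝ) ^ (-(c / 2)) := by positivity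
  calc C * (X : ℝ) ^ (1 - c) = C * ((X : ℝ) ^ (-c) * X) * 1 := by rw [e]; ring
    _ ≤ C * ((X : ℝ) ^ (-c) * X) * (gn A s X k * (G * Real.sqrt (Real.log X))) :=
        mul_le_mul_of_nonneg_left h3 (by positivity)
    _ = C * (2 / p) * G * ((X : ℝ) ^ (-c) * Real.sqrt (Real.log X)) * (p / 2 * (X * gn A s X k)) := by field_simp
    _ ≤ C * (2 / p) * G * ((1 + 2 / c) * (X : ℝ) ^ (-(c / 2))) * (p / 2 * (X * gn A s X k)) := by gcongr
    _ = C * (2 / p) * G * (1 + 2 / c) * (X : ℝ) ^ (-(c / 2)) * (p / 2 * (X * gn A s X k)) := by ring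
    _ ≤ _ := mul_le_mul_of_nonneg_left h4 h6

/-- the exceptions to `V ≤ n` -/
def Exc (V : ℕ → ℕ → ℕ) (n : ℕ) : Prop := ¬ ∃ k, H k n ∧ V k (odn k n) ≤ n

theorem th_small {A b x : ℝ} : ∀ᶠ n : ℕ in atTop, th A b x n ≤ n := by
  have h1 : (fun y : ℝ => A * y + x * (b * √ y)) =O[atTop] fun y : ℝ => y := by
    apply Asymptotics.IsBigO.add
    · exact (Asymptotics.isBigO_refl _ _).const_mul_left A
    · have h2 : (fun y : ℝ => √ y) =O[atTop] fun y : ℝ => y := by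
        rw [Asymptotics.isBigO_iff]
        refine ⟨1, ?_⟩
        filter_upwards [eventually_ge_atTop 1] with y hy
        rw [one_mul, Real.norm_eq_abs, Real.norm_eq_abs, abs_of_nonneg (Real.sqrt_nonneg _), abs_of_nonneg (by linarith),
          Real.sqrt_le_left (by linarith)]
        nlinarith
      have h3 := (h2.const_mul_left b).const_mul_left x
      exact h3
  have h2 : (fun y : ℝ => Real.log y) =o[atTop] fun y : ℝ => y := Real.isLittleO_log_id_atTop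
  have h3 := (h1.comp_tendsto Real.tendsto_log_atTop).trans_isLittleO h2
  have h4 := (h3.bound (show (0:ℝ) < 1 by norm_num))
  have h5 := tendsto_natCast_atTop_atTop (R := ℝ) |>.eventually h4
  filter_upwards [h5] with n hn
  simp only [Function.comp_apply] at hn
  rw [one_mul, Real.norm_eq_abs, Real.norm_eq_abs, abs_of_nonneg (show (0 : ℝ) ≤ (n : ℝ) from Nat.cast_nonneg n)] at hn
  exact (le_abs_self _).trans hn

/-- THE EXCEPTIONS -/
theorem exc {V : ℕ → ℕ → ℕ} {A b δ : ℝ} (hA : 0 < A) (hδ0 : 0 < δ)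
    (hfin : Mn (ind (fun n => True ∧ ∃ k, H k n)) δ)
    (hlaw : ∀ x, Mn (ind (Lv (fun k o => (V k o : ℝ)) (fun _ _ => True) (th A b x))) (δ * Pool.Agent.H499R2.ND.Phi x))
    {C c v : ℝ} (hC : 0 ≤ C) (hv : v < c) (hc1 : c ≤ 1) {τ : ℝ} (hτ : 0 < τ) :
    ∀ᶠ N : ℕ in atTop, ∀ (E : ℕ → Prop) (ρ : ℝ), (N : ℝ) ^ (-v) ≤ ρ → ρ ≤ 1 → TSA N E ρ (C * (N : ℝ) ^ (1 - c)) →
      |∑ n ∈ Icc 1 N, ind E n * ind (Exc V) n - (1 - δ) * (ρ * N)| ≤ τ * (ρ * N) := by
  have hx : ∃ x : ℝ, δ - τ / 8 ≤ δ * Pool.Agent.H499R2.ND.Phi x := by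
    have h1 := ProbabilityTheory.tendsto_cdf_atTop (ProbabilityTheory.gaussianReal 0 1)
    have h2 : ∀ᶠ x : ℝ in atTop, 1 - τ / (8 * δ) < ProbabilityTheory.cdf (ProbabilityTheory.gaussianReal 0 1) x :=
      h1.eventually (lt_mem_nhds (by have : 0 < τ / (8 * δ) := by positivity
                                     linarith))
    obtain ⟨x, hx⟩ := h2.exists
    refine ⟨x, ?_⟩
    rw [Pool.Agent.H499R2.ND.phi_cdf]
    have h3 := mul_le_mul_of_nonneg_left hx.le hδ0.le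
    have e : δ * (1 - τ / (8 * δ)) = δ - τ / 8 := by field_simp
    linarith
  obtain ⟨x, hx⟩ := hx
  obtain ⟨n2, hn2⟩ := (th_small (A := A) (b := b) (x := x)).exists_forall_of_atTop
  filter_upwards [law hA (hlaw x) hC hv hc1 (show 0 < τ / 8 by positivity), dens (Mn_inf hfin) (C := C) hv (show 0 < τ / 8 by positivity),
    small (C := C) hv (show 0 < τ / 8 by positivity), small (C := n2) hv (show 0 < τ / 8 by positivity),
    eventually_ge_atTop 1] with N g1 g2 g3 g4 hN1 E ρ hρ hρ1 hT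
  have hNr : (1 : ℝ) ≤ N := by exact_mod_cast hN1
  have hx0 : (0 : ℝ) < N := by linarith
  have hρ0 : 0 < ρ := lt_of_lt_of_le (by positivity) hρ
  have hρN : 0 < ρ * N := by positivity
  have k1 := g1 E ρ hρ hρ1 hT
  have k2 := g2 E ρ hρ (hT.fg (by simp) (by simp))
  have k3 := g3 ρ hρ
  have k4 : (n2 : ℝ) ≤ τ / 8 * (ρ * N) := by
    have h3 := g4 ρ hρ
    have h4 : (1 : ℝ) ≤ (N : ℝ) ^ (1 - c) := Real.one_le_rpow hNr (by linarith)
    have h5 : (0 : ℝ) ≤ n2 := Nat.cast_nonneg _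
    nlinarith
  have k5 := hT.one.tr N le_rfl
  have e5 : ∑ n ∈ Icc 1 N, ind (fun _ : ℕ => True) n = N := by
    rw [sum_congr rfl (fun n _ => ind_pos (P := fun _ : ℕ => True) trivial), sum_const, Nat.card_Icc, Nat.add_sub_cancel,
      nsmul_eq_mul, mul_one]
  rw [e5] at k5
  set L := Lv (fun k o => (V k o : ℝ)) (fun _ _ => True) (th A b x) with hL
  -- lower bound
  have low : ∑ n ∈ Icc 1 N, ind E n * Fg (fun _ _ => 0) 1 n ≤ ∑ n ∈ Icc 1 N, ind E n * ind (Exc V) n := by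
    apply sum_le_sum
    intro n _
    apply mul_le_mul_of_nonneg_left _ (ind_nonneg _ _)
    by_cases hn : ∃ k, H k n
    · obtain ⟨k, hk⟩ := hn
      rw [Fg_H hk]
      exact ind_nonneg _ _
    · rw [Fg_not hn, ind_pos (P := Exc V) (fun ⟨k, hk, _⟩ => hn ⟨k, hk⟩)]
  -- upper bound
  have up : ∑ n ∈ Icc 1 N, ind E n * ind (Exc V) n ≤
      ∑ n ∈ Icc 1 N, (ind E n * ind (fun _ : ℕ => True) n - ind E n * ind L n + if n < n2 then (1 : ℝ) else 0) := by
    apply sum_le_sum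
    intro n _
    rw [ind_pos (P := fun _ : ℕ => True) trivial, mul_one]
    have hE0 := ind_nonneg E n
    have hE1 := ind_le_one E n
    have hX0 := ind_nonneg (Exc V) n
    have hX1 := ind_le_one (Exc V) n
    have hL0 := ind_nonneg L n
    have hL1 := ind_le_one L n
    by_cases h3 : n < n2
    · rw [if_pos h3]
      nlinarith [mul_nonneg hE0 (sub_nonneg.2 hL1), mul_le_mul hE1 hX1 hX0 zero_le_one]
    · rw [if_neg h3, add_zero]
      by_cases h4 : L n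
      · have h5 : ¬ Exc V n := by
          intro h6
          apply h6
          obtain ⟨k, hk, h7, _⟩ := h4
          refine ⟨k, hk, ?_⟩
          have h8 := hn2 n (not_lt.1 h3)
          have h9 : ((V k (odn k n) : ℕ) : ℝ) ≤ n := le_trans h7 h8
          exact_mod_cast h9
        rw [ind_neg h5, ind_pos h4]
        linarith
      · rw [ind_neg h4, mul_zero, sub_zero]
        exact mul_le_of_le_one_right hE0 hX1
  rw [sum_add_distrib, sum_sub_distrib] at up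
  have hn2c : ∑ n ∈ Icc 1 N, (if n < n2 then (1 : ℝ) else 0) ≤ n2 := by
    rw [Finset.sum_boole]
    have : ((Icc 1 N).filter (fun n => n < n2)).card ≤ n2 := by
      calc ((Icc 1 N).filter (fun n => n < n2)).card ≤ (range n2).card := card_le_card fun n hn => by
            rw [mem_filter] at hn; exact mem_range.2 hn.2
        _ = n2 := card_range _
    exact_mod_cast this
  have hxx : (δ - τ / 8) * (ρ * N) ≤ δ * Pool.Agent.H499R2.ND.Phi x * (ρ * N) := mul_le_mul_of_nonneg_right hx hρN.le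
  rw [abs_le] at *
  constructor
  · nlinarith [k2.1, low]
  · nlinarith [k1.1, k1.2, k5.1, k5.2, up]

end Pool.Agent.Run7.h792.FL
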