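import Pool.Agent.Run7.h792.FL.Law

/-! The limit law for general levels, in flat sets of residues, at one scale. -/

set_option autoImplicit false

namespace Pool.Agent.Run7.h792.FL

open Finset Filter Topology Pool.Agent.Y965.PL Pool.Agent.Run7.h439.DC

variable {N : ℕ} {E : ℕ → Prop} {ρ κ : ℝ}

open Classical in
theorem ind_sumG {Lev : ℕ → ℕ → Prop} (huniq : ∀ i j n, Lev i n → Lev j n → i = j) {Q : ℕ → ℕ → Prop} (T n : ℕ) :
    ind (fun n => ∃ j < T, Lev j n ∧ Q j n) n = ∑ j ∈ range T, ind (Lev j) n * ind (Q j) n := by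
  by_cases h : ∃ t < T, Lev t n
  · obtain ⟨t, ht, h1⟩ := h
    rw [sum_eq_single_of_mem t (mem_range.2 ht) (fun t' _ hne => by
      rw [ind_neg (fun h2 => hne (huniq _ _ _ h2 h1)), zero_mul]), ind_pos h1, one_mul]
    apply ind_congr
    constructor
    · rintro ⟨t', _, h3, h4⟩
      rwa [huniq _ _ _ h3 h1] at h4
    · intro h3; exact ⟨t, ht, h1, h3⟩
  · rw [ind_neg (P := fun n => ∃ j < T, Lev j n ∧ Q j n) (fun ⟨t, ht, h1, _⟩ => h ⟨t, ht, h1⟩), sum_eq_zero]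
    intro t ht
    rw [ind_neg (fun h2 => h ⟨t, mem_range.1 ht, h2⟩), zero_mul]

theorem thrG {Lev : ℕ → ℕ → Prop} (huniq : ∀ i j n, Lev i n → Lev j n → i = j) (h : ∀ j, TS N E ρ κ (ind (Lev j)))
    {Q : ℕ → ℕ → Prop} (hQ : ∀ t n n', n ≤ n' → Q t n → Q t n') (T : ℕ) {X : ℕ} (hX : X ≤ N) :
    |∑ n ∈ Icc 1 X, ind E n * ind (fun n => ∃ j < T, Lev j n ∧ Q j n) n
      - ρ * ∑ n ∈ Icc 1 X, ind (fun n => ∃ j < T, Lev j n ∧ Q j n) n| ≤ T * (2 * κ) := by
  have h1 := FL.thr (F := fun t _ n => ind (Lev t) n) (T := T) (fun t _ => h t) hQ hX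
  simp only [ind_sumG huniq]
  exact h1

/-- THE LAW: the share of the flat sets -/
theorem lawG {Lev : ℕ → ℕ → Prop} (huniq : ∀ i j n, Lev i n → Lev j n → i = j) {A b x L : ℝ} (hA : 0 < A)
    (hL : Mn (ind (fun n => ∃ j : ℕ, (j : ℝ) ≤ th A b x n ∧ Lev j n)) L) {C c v : ℝ} (hC : 0 ≤ C) (hv : v < c) (hc1 : c ≤ 1)
    {τ : ℝ} (hτ : 0 < τ) :
    ∀ᶠ N : ℕ in atTop, ∀ (E : ℕ → Prop) (ρ : ℝ), (N : ℝ) ^ (-v) ≤ ρ → ρ ≤ 1 →
      (∀ j, TS N E ρ (C * (N : ℝ) ^ (1 - c)) (ind (Lev j))) →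
      |∑ n ∈ Icc 1 N, ind E n * ind (fun n => ∃ j : ℕ, (j : ℝ) ≤ th A b x n ∧ Lev j n) n - L * (ρ * N)| ≤ τ * (ρ * N) := by
  obtain ⟨n1, hn1⟩ := th_mono (b := b) (x := x) hA
  set B : ℝ := A + |x * b| with hB
  have hB0 : 0 < B := by positivity
  set v' : ℝ := (v + c) / 2 with hv'
  have hth : ∀ N n : ℕ, 3 ≤ N → 1 ≤ n → n ≤ N → th A b x n ≤ B * Real.log N := by
    intro N n hN hn hnN
    have hl : Real.log n ≤ Real.log N := Real.log_le_log (by exact_mod_cast hn) (by exact_mod_cast hnN)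
    have hl0 : 0 ≤ Real.log n := Real.log_natCast_nonneg n
    have hl1 : 1 ≤ Real.log N := by
      rw [Real.le_log_iff_exp_le (by positivity)]
      have : (3 : ℝ) ≤ N := by exact_mod_cast hN
      exact (Real.exp_one_lt_d9.le.trans (by norm_num)).trans this
    have hs : √ (Real.log n) ≤ Real.log N := by
      refine (Real.sqrt_le_sqrt hl).trans ?_
      rw [Real.sqrt_le_left (by linarith)]
      nlinarith
    unfold th
    have h1 : x * (b * √ (Real.log n)) ≤ |x * b| * Real.log N := by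
      rw [← mul_assoc]
      exact mul_le_mul (le_abs_self _) hs (Real.sqrt_nonneg _) (abs_nonneg _)
    rw [hB]
    nlinarith
  unfold Mn at hL
  have g0 := (Metric.tendsto_nhds.1 hL) (τ / 4) (by positivity)
  have hlogsmall : ∀ᶠ N : ℕ in atTop, B * Real.log N + 1 ≤ (N : ℝ) ^ ((c - v) / 2) := by
    have h1 : (fun x : ℝ => B * Real.log x + 1) =o[atTop] fun x : ℝ => x ^ ((c - v) / 2) := by
      apply Asymptotics.IsLittleO.add
      · exact (isLittleO_log_rpow_atTop (by linarith)).const_mul_left _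
      · exact Asymptotics.isLittleO_const_left.2 (Or.inr (tendsto_norm_atTop_atTop.comp (tendsto_rpow_atTop (by linarith))))
    have h2 := (h1.bound (show (0:ℝ) < 1 by norm_num))
    have h3 := tendsto_natCast_atTop_atTop (R := ℝ) |>.eventually h2
    filter_upwards [h3] with N hN
    rw [one_mul, Real.norm_eq_abs, Real.norm_eq_abs, abs_of_nonneg (show (0:ℝ) ≤ (N : ℝ) ^ ((c - v) / 2) by positivity)] at hN
    exact (le_abs_self _).trans hN
  filter_upwards [g0, small (C := 2 * C) (show v < (v + c) / 2 by linarith) (show 0 < τ / 4 by positivity),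
    small (C := 2 * n1) (show v < c by linarith) (show 0 < τ / 4 by positivity), hlogsmall, eventually_ge_atTop 3] with N g1 g2 g3 g4 hN3 E ρ hρ hρ1 hT
  have hN1 : 1 ≤ N := by omega
  have hNr : (1 : ℝ) ≤ N := by exact_mod_cast hN1
  have hx0 : (0 : ℝ) < N := by linarith
  have hρ0 : 0 < ρ := lt_of_lt_of_le (by positivity) hρ
  set P : ℕ → Prop := fun n => ∃ j : ℕ, (j : ℝ) ≤ th A b x n ∧ Lev j n with hP
  set T : ℕ := ⌊B * Real.log N⌋₊ + 1 with hTdef
  set Q : ℕ → ℕ → Prop := fun j n => n1 ≤ n ∧ (j : ℝ) ≤ th A b x n with hQ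
  have h1 := thrG huniq hT (Q := Q) (fun t n n' hn hh => ⟨hh.1.trans hn, hh.2.trans (hn1 n n' hh.1 hn)⟩) T le_rfl
  set P' : ℕ → Prop := fun n => ∃ j < T, Lev j n ∧ Q j n with hP'
  have hPP : ∀ n ∈ Icc 1 N, P' n ↔ (n1 ≤ n ∧ P n) := by
    intro n hn
    rw [mem_Icc] at hn
    constructor
    · rintro ⟨j, _, a1, b1, b2⟩
      exact ⟨b1, j, b2, a1⟩
    · rintro ⟨b1, j, b2, a1⟩
      refine ⟨j, ?_, a1, b1, b2⟩
      rw [hTdef]
      exact Nat.lt_succ_of_le (Nat.le_floor (b2.trans (hth N n hN3 hn.1 hn.2)))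
  have hdiff : ∀ w : ℕ → ℝ, (∀ n, 0 ≤ w n ∧ w n ≤ 1) →
      |∑ n ∈ Icc 1 N, w n * ind P n - ∑ n ∈ Icc 1 N, w n * ind P' n| ≤ n1 := by
    intro w hw
    rw [← sum_sub_distrib]
    refine (abs_sum_le_sum_abs _ _).trans ?_
    have h2 : ∀ n ∈ Icc 1 N, |w n * ind P n - w n * ind P' n| ≤ if n < n1 then (1 : ℝ) else 0 := by
      intro n hn
      by_cases h3 : n < n1
      · rw [if_pos h3, ind_neg (P := P') (fun h4 => by have := ((hPP n hn).1 h4).1; omega), mul_zero, sub_zero, abs_mul,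
          abs_of_nonneg (hw n).1]
        exact mul_le_one₀ (hw n).2 (abs_nonneg _) (ind_abs P n)
      · rw [if_neg h3]
        have : ind P n = ind P' n := by
          apply ind_congr
          rw [hPP n hn]
          constructor
          · intro h4; exact ⟨by omega, h4⟩
          · intro h4; exact h4.2
        rw [this, sub_self, abs_zero]
    refine (sum_le_sum h2).trans ?_
    rw [Finset.sum_boole]
    have : ((Icc 1 N).filter (fun n => n < n1)).card ≤ n1 := by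
      calc ((Icc 1 N).filter (fun n => n < n1)).card ≤ (range n1).card := card_le_card fun n hn => by
            rw [mem_filter] at hn; exact mem_range.2 hn.2
        _ = n1 := card_range _
    exact_mod_cast this
  have d1 := hdiff (ind E) (fun n => ⟨ind_nonneg _ _, ind_le_one _ _⟩)
  have d2 := hdiff (fun _ => 1) (fun n => ⟨by norm_num, le_rfl⟩)
  simp only [one_mul] at d2
  have hT2 : (T : ℝ) * (2 * (C * (N : ℝ) ^ (1 - c))) ≤ τ / 4 * (ρ * N) := by
    have h3 : (T : ℝ) ≤ (N : ℝ) ^ ((c - v) / 2) := by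
      refine le_trans ?_ g4
      rw [hTdef]
      push_cast
      have := Nat.floor_le (show 0 ≤ B * Real.log N by have := Real.log_natCast_nonneg N; positivity)
      linarith
    have h5 : (N : ℝ) ^ ((c - v) / 2) * (N : ℝ) ^ (1 - c) = (N : ℝ) ^ (1 - (v + c) / 2) := by
      rw [← Real.rpow_add hx0]; congr 1; ring
    calc (T : ℝ) * (2 * (C * (N : ℝ) ^ (1 - c))) ≤ (N : ℝ) ^ ((c - v) / 2) * (2 * (C * (N : ℝ) ^ (1 - c))) := by gcongr
      _ = 2 * C * ((N : ℝ) ^ ((c - v) / 2) * (N : ℝ) ^ (1 - c)) := by ring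
      _ = 2 * C * (N : ℝ) ^ (1 - (v + c) / 2) := by rw [h5]
      _ ≤ _ := g2 ρ hρ
  have hn1s : 2 * (n1 : ℝ) ≤ τ / 4 * (ρ * N) := by
    have h3 := g3 ρ hρ
    have h4 : (1 : ℝ) ≤ (N : ℝ) ^ (1 - c) := Real.one_le_rpow hNr (by linarith)
    have h5 : (0 : ℝ) ≤ n1 := Nat.cast_nonneg _
    nlinarith
  have h6 : |ρ * ∑ m ∈ Icc 1 N, ind P m - L * (ρ * N)| ≤ τ / 4 * (ρ * N) := by
    rw [Real.dist_eq] at g1
    have h4 : |∑ m ∈ Icc 1 N, ind P m - L * N| ≤ τ / 4 * N := by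
      have e : (∑ m ∈ Icc 1 N, ind P m) / N - L = (∑ m ∈ Icc 1 N, ind P m - L * N) / N := by field_simp
      rw [e, abs_div, abs_of_pos hx0, div_lt_iff₀ hx0] at g1
      exact g1.le
    have e : ρ * ∑ m ∈ Icc 1 N, ind P m - L * (ρ * N) = ρ * (∑ m ∈ Icc 1 N, ind P m - L * N) := by ring
    rw [e, abs_mul, abs_of_pos hρ0]
    calc ρ * |∑ m ∈ Icc 1 N, ind P m - L * N| ≤ ρ * (τ / 4 * N) := by gcongr
      _ = _ := by ring
  have h7 : |ρ * ∑ m ∈ Icc 1 N, ind P m - ρ * ∑ m ∈ Icc 1 N, ind P' m| ≤ n1 := by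
    rw [← mul_sub, abs_mul, abs_of_pos hρ0]
    calc ρ * |∑ m ∈ Icc 1 N, ind P m - ∑ m ∈ Icc 1 N, ind P' m| ≤ 1 * n1 := by gcongr
      _ = n1 := one_mul _
  rw [abs_le] at *
  obtain ⟨a1, a2⟩ := h1
  obtain ⟨b1, b2⟩ := d1
  obtain ⟨c1, c2⟩ := h6
  obtain ⟨e1, e2⟩ := h7
  constructor <;> linarith

end Pool.Agent.Run7.h792.FL
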