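import Pool.Agent.Run7.h792.FL.Main2
import Pool.Agent.Run7.h792.FL.Law
import Pool.Agent.Run7.h792.FL.LawG
import Pool.Agent.Run7.h792.FL.Plain

/-! Approximation by sets which are described by the last digits and a synchronous function. -/

set_option autoImplicit false

namespace Pool.Agent.Run7.h792.FL

open Finset Filter Topology Pool.Agent.Run7.h439.DC
open Pool.Agent.Y965.PL (Mn ind ind_pos ind_neg ind_congr ind_nonneg ind_le_one ind_mono Fg Fg_H Fg_not async_Fg)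
open Pool.Agent.H499R2.HL (H H_unique)
open Pool.Agent.H499R2.LT (odn)

variable {d : ℕ} {m r : ℕ → ℤ}

/-- a periodic condition and a synchronous condition -/
theorem SF.setw {c0 k0 e : ℕ} {ε η c C : ℝ} (S : SF d m r c0 k0 e ε η c C) {s : ℤ} (hs : s = 1 ∨ s = -1)
    {N q : ℕ} (hN : 1 ≤ N) (hq0 : 1 ≤ q) (hq : Nat.Coprime d q) (h1 : (N : ℝ) ^ ε ≤ q)
    (h2 : (q : ℝ) ≤ (N : ℝ) ^ (1 - ε)) {A : Finset ℕ} (hA : FlatI q η A) {P Q : ℕ → Prop}
    (hP : ∀ n, P (n % d ^ e) ↔ P n) (hQ : KSync d m r s c0 k0 (ind Q)) :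
    TS N (fun n => n % q ∈ A) (A.card / q) (C * (N : ℝ) ^ (1 - c)) (ind (fun n => P n ∧ Q n)) := by
  classical
  refine (S.set' hs hN hq0 hq h1 h2 hA (w := ind P) (fun n => ?_) (fun n n' hn => ?_) hQ).congr fun n => ?_
  · rw [abs_of_nonneg (ind_nonneg _ _)]
    exact ind_le_one _ _
  · apply ind_congr
    have h3 : n % d ^ e = n' % d ^ e := hn
    rw [← hP n, h3, hP n']
  · by_cases h3 : P n
    · rw [ind_pos h3, one_mul]
      exact ind_congr ⟨fun h => ⟨h3, h⟩, fun h => h.2⟩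
    · rw [ind_neg h3, zero_mul, ind_neg (P := fun n => P n ∧ Q n) (fun h => h3 h.1)]

open Classical in
theorem ind_Hv (V : ℕ → ℕ → ℕ) (cls : ℕ → ℕ → Prop) (j n : ℕ) :
    Fg (fun k o => if V k o = j ∧ cls k o then 1 else 0) 0 n = ind (Hv V cls j) n := by
  by_cases hn : ∃ k, H k n
  · obtain ⟨k, hk⟩ := hn
    rw [Fg_H hk]
    by_cases hkt : V k (odn k n) = j ∧ cls k (odn k n)
    · rw [if_pos hkt, ind_pos ⟨k, hk, hkt⟩]
    · rw [if_neg hkt, ind_neg]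
      rintro ⟨k', h1, h2⟩
      rw [H_unique h1 hk] at h2
      exact hkt h2
  · rw [Fg_not hn, ind_neg]
    rintro ⟨k', h1, _⟩
    exact hn ⟨k', h1⟩

/-- the levels -/
theorem ksync_lev (V : ℕ → ℕ → ℕ) (cls : ℕ → ℕ → Prop) (j : ℕ) : KSync 2 m3 (r3 1) 1 1 0 (ind (Hv V cls j)) := by
  classical
  have h2 := async_Fg (g := fun k o => if V k o = j ∧ cls k o then (1 : ℝ) else 0)
    (g0 := 0) (fun k o => by split_ifs <;> simp) (by simp)
  have h3 := ksync_async h2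
  have e : (fun n : ℕ => (fun x : ℤ => Fg (fun k o => if V k o = j ∧ cls k o then (1 : ℝ) else 0) 0 x.toNat) (n : ℤ)) =
      ind (Hv V cls j) := by
    funext n
    show Fg (fun k o => if V k o = j ∧ cls k o then (1 : ℝ) else 0) 0 ((n : ℤ).toNat) = _
    rw [Int.toNat_natCast]
    exact ind_Hv V cls j n
  rw [← e]
  exact h3

/-- approximation from above -/
theorem approx {A : ℕ → Prop} {B : ℕ → ℕ → Prop} {a : ℝ} {b : ℕ → ℝ}
    (hsub : ∀ K n, 1 ≤ n → A n → B K n) (hA : Mn (ind A) a) (hB : ∀ K, Mn (ind (B K)) (b K)) (hlim : Tendsto b atTop (𝓝 a))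
    {τ : ℝ} (hτ : 0 < τ) : ∃ K : ℕ, |b K - a| < τ / 8 ∧ ∀ᶠ N : ℕ in atTop, ∀ (E : ℕ → Prop) (ρ : ℝ), 0 ≤ ρ → ρ ≤ 1 →
      |∑ n ∈ Icc 1 N, ind E n * ind (B K) n - b K * (ρ * N)| ≤ τ / 4 * N →
      |∑ n ∈ Icc 1 N, ind E n * ind A n - a * (ρ * N)| ≤ τ * N := by
  obtain ⟨K, hK⟩ := ((Metric.tendsto_atTop.1 hlim) (τ / 8) (by positivity))
  have hK' := hK K le_rfl
  rw [Real.dist_eq] at hK'
  refine ⟨K, hK', ?_⟩
  have hev : ∀ {F : ℕ → ℝ} {l : ℝ}, Mn F l → ∀ᶠ N : ℕ in atTop, |∑ n ∈ Icc 1 N, F n - l * N| ≤ τ / 8 * N := by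
    intro F l hl
    have h1 := (Metric.tendsto_nhds.1 hl) (τ / 8) (by positivity)
    filter_upwards [h1, eventually_ge_atTop 1] with N g1 hN1
    have hx0 : (0 : ℝ) < N := by exact_mod_cast hN1
    rw [Real.dist_eq] at g1
    have e : (∑ m ∈ Icc 1 N, F m) / N - l = (∑ m ∈ Icc 1 N, F m - l * N) / N := by field_simp
    rw [e, abs_div, abs_of_pos hx0, div_lt_iff₀ hx0] at g1
    exact g1.le
  filter_upwards [hev hA, hev (hB K)] with N h1 h2 E ρ hρ0 hρ1 h3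
  have hN0 : (0 : ℝ) ≤ N := Nat.cast_nonneg _
  rw [abs_lt] at hK'
  rw [abs_le] at h1 h2 h3 ⊢
  have i1 : ∑ n ∈ Icc 1 N, ind E n * ind A n ≤ ∑ n ∈ Icc 1 N, ind E n * ind (B K) n := by
    apply sum_le_sum
    intro n hn
    exact mul_le_mul_of_nonneg_left (ind_mono fun h => hsub K n (mem_Icc.1 hn).1 h) (ind_nonneg _ _)
  have i2 : ∑ n ∈ Icc 1 N, ind E n * ind (B K) n + ∑ n ∈ Icc 1 N, ind A n ≤
      ∑ n ∈ Icc 1 N, ind E n * ind A n + ∑ n ∈ Icc 1 N, ind (B K) n := by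
    rw [← sum_add_distrib, ← sum_add_distrib]
    apply sum_le_sum
    intro n hn
    have hs := hsub K n (mem_Icc.1 hn).1
    have e0 := ind_nonneg E n
    have e1 := ind_le_one E n
    by_cases h5 : A n
    · rw [ind_pos h5, ind_pos (hs h5)]
    · rw [ind_neg h5]
      have := ind_nonneg (B K) n
      nlinarith
  have hρN : 0 ≤ ρ * N := by positivity
  have hρN1 : ρ * N ≤ N := mul_le_of_le_one_left hN0 hρ1
  have k1 : b K * (ρ * N) ≤ a * (ρ * N) + τ / 8 * N := by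
    have : (b K - a) * (ρ * N) ≤ τ / 8 * (ρ * N) := mul_le_mul_of_nonneg_right hK'.2.le hρN
    have h6 : τ / 8 * (ρ * N) ≤ τ / 8 * N := mul_le_mul_of_nonneg_left hρN1 (by positivity)
    linarith
  have k2 : a * (ρ * N) - τ / 8 * N ≤ b K * (ρ * N) := by
    have : (-(τ / 8)) * (ρ * N) ≤ (b K - a) * (ρ * N) := mul_le_mul_of_nonneg_right hK'.1.le hρN
    have h6 : τ / 8 * (ρ * N) ≤ τ / 8 * N := mul_le_mul_of_nonneg_left hρN1 (by positivity)
    linarith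
  have k3 : b K * N ≤ a * N + τ / 8 * N := by
    have := mul_le_mul_of_nonneg_right hK'.2.le hN0
    linarith
  have hτN : 0 ≤ τ * N := by positivity
  constructor
  · linarith [h1.1, h2.2, h3.1]
  · linarith [h3.2]

/-- the upper bound, for sets of small density -/
theorem upper {A : ℕ → Prop} {B : ℕ → Prop} {b : ℝ} (hsub : ∀ n, 1 ≤ n → A n → B n) (hB : Mn (ind B) b)
    {C c v : ℝ} (hv : v < c) {τ : ℝ} (hτ : 0 < τ) :
    ∀ᶠ N : ℕ in atTop, ∀ (E : ℕ → Prop) (ρ : ℝ), (N : ℝ) ^ (-v) ≤ ρ → TS N E ρ (C * (N : ℝ) ^ (1 - c)) (ind B) →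
      ∑ n ∈ Icc 1 N, ind E n * ind A n ≤ (b + τ) * (ρ * N) := by
  filter_upwards [dens hB (C := C) hv hτ] with N h1 E ρ hρ hT
  have h2 := (abs_le.1 (h1 E ρ hρ hT)).2
  have i1 : ∑ n ∈ Icc 1 N, ind E n * ind A n ≤ ∑ n ∈ Icc 1 N, ind E n * ind B n := by
    apply sum_le_sum
    intro n hn
    exact mul_le_mul_of_nonneg_left (ind_mono fun h => hsub n (mem_Icc.1 hn).1 h) (ind_nonneg _ _)
  linarith

end Pool.Agent.Run7.h792.FL
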