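import Pool.Agent.Run7.h439.DC.Orth

/-! One level of the orthogonality principle, for a single sequence (after `Pool.Agent.Run7.h439.DC.one_level`). -/

set_option autoImplicit false

namespace Pool.Agent.Run7.h792.FL

open Finset Pool.Agent.H319R3.GC Pool.Agent.Y965.GP Pool.Agent.Run7.h439.DC

variable {d : ℕ} {m r : ℕ → ℤ}

open Classical in
/-- one level, for a single sequence -/
theorem level (h : Adm d m r) (c0 k0 : ℕ) {P : ℝ} (hP : 1 ≤ P) :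
    ∃ E : ℕ, k0 ≤ E ∧ 1 ≤ E ∧ ∀ B1 C1 : ℝ, 1 ≤ B1 → 0 ≤ C1 → ∃ B C lam : ℝ, B1 ≤ B ∧ 1 < B ∧ 4 * (d : ℝ) ^ E ≤ B ∧ 0 ≤ C ∧
      0 < lam ∧ lam < 1 ∧ ∀ K N : ℕ, 1 ≤ K → B ^ K ≤ (N : ℝ) →
      d ^ (c0 * (E * K)) ≤ N ∧ ∀ s : ℤ, (s = 1 ∨ s = -1) → ∀ z : ℕ → ℂ, (∀ n, ‖z n‖ ≤ 1) → ∀ β : ℕ → ℝ, (∀ t, 0 ≤ β t) →
      (∀ t : ℕ, 1 ≤ t → (t : ℝ) ≤ (4 * (d : ℝ) ^ E) ^ K → ∀ m0 J : ℕ, (∀ j < J, m0 + d ^ (E * K) * j + t ≤ N) →
        ‖∑ j ∈ range J, z (m0 + d ^ (E * K) * j) * (starRingEnd ℂ) (z (m0 + d ^ (E * K) * j + t))‖ ≤ β t) →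
      (∀ X : ℝ, P ^ K ≤ X → X ≤ (4 * (d : ℝ) ^ E) ^ K →
        (d : ℝ) ^ (E * K) * ∑ t ∈ Icc 1 ⌊X⌋₊, β t ≤ C1 * (1 / 4) ^ K * N * X) →
      ∀ F : ℕ → ℝ, (∀ n, |F n| ≤ 1) → (∀ n n' : ℕ, d ^ (c0 * (E * K)) < n → d ^ (c0 * (E * K)) < n' →
        key d m r s (E * K) n = key d m r s (E * K) n' → F n = F n') →
      ‖∑ n ∈ Icc 1 N, (F n : ℂ) * z n‖ ≤ C * N * lam ^ K := by
  obtain ⟨σ, ρ, C0, lam', hσ0, hσ1, hρ0, hρσ, hC0, hl0, hl1, hkd⟩ := kd h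
  have hd2 : (2 : ℝ) ≤ d := by exact_mod_cast h.two_le
  have hd0 : (0 : ℝ) < d := by linarith
  have hd1 : (1 : ℝ) ≤ d := by linarith
  obtain ⟨E1, hE1⟩ := exists_pow_lt_of_lt_one (show (0 : ℝ) < 1 / 4 by norm_num) hσ1
  obtain ⟨E2, hE2⟩ := pow_unbounded_of_one_lt P (show 1 < 1 / σ by rw [lt_div_iff₀ hσ0]; linarith)
  set E := E1 + E2 + k0 + 1 with hE
  have hEa : σ ^ E ≤ 1 / 4 := (pow_le_pow_of_le_one hσ0.le hσ1.le (by omega)).trans hE1.le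
  have hEb : P ≤ (1 / σ) ^ E := by
    refine hE2.le.trans (pow_le_pow_right₀ ?_ (by omega))
    rw [le_div_iff₀ hσ0]; linarith
  refine ⟨E, by omega, by omega, fun B1 C1 hB1 hC1 => ?_⟩
  set A : ℝ := 4 * (d : ℝ) ^ E with hA
  have hdE : (1 : ℝ) ≤ (d : ℝ) ^ E := one_le_pow₀ hd1
  have hA1 : 1 ≤ A := by rw [hA]; linarith
  set D : ℝ := (d : ℝ) ^ (c0 * E) with hD
  have hD1 : 1 ≤ D := one_le_pow₀ hd1
  set B : ℝ := B1 * (4 * D) * A with hB
  set μ : ℝ := (2 : ℝ) ^ (-lam') with hμ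
  have hμ0 : 0 < μ := Real.rpow_pos_of_pos (by norm_num) _
  have hμ1 : μ < 1 := Real.rpow_lt_one_of_one_lt_of_neg (by norm_num) (by linarith)
  set lam : ℝ := max (7 / 8) μ with hlam
  have hlam1 : lam < 1 := max_lt (by norm_num) hμ1
  have hlam7 : 7 / 8 ≤ lam := le_max_left _ _
  have hlam0 : 0 < lam := by linarith
  obtain ⟨C3, hC3, hpoly⟩ := poly_exp E d (show (0 : ℝ) ≤ 6 / 7 by norm_num) (by norm_num)
  have hBA : A ≤ B := by
    have h1 : 1 ≤ B1 * (4 * D) := by nlinarith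
    rw [hB]; exact le_mul_of_one_le_left (by linarith) h1
  have hB1' : B1 ≤ B := by
    have h1 : 1 ≤ (4 * D) * A := by nlinarith
    rw [hB, mul_assoc]; exact le_mul_of_one_le_right (by linarith) h1
  have hB4 : 4 * D ≤ B := by
    have h1 : 4 * D ≤ B1 * (4 * D) := le_mul_of_one_le_left (by linarith) hB1
    refine h1.trans ?_
    rw [hB]; exact le_mul_of_one_le_right (by nlinarith) hA1
  refine ⟨B, 1 + 2 * (1 + C0) + Real.sqrt (5 + 14 * C1) * C3, lam, hB1', by linarith, hBA, by positivity, hlam0, hlam1, ?_⟩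
  intro K N hK hN
  have hB0 : 0 ≤ B := by linarith
  have hpw : ∀ x : ℝ, 0 ≤ x → x ≤ B → x ^ K ≤ N := fun x hx hxB => (pow_le_pow_left₀ hx hxB K).trans hN
  have hAN := hpw A (by linarith) hBA
  have h4D := hpw (4 * D) (by linarith) hB4
  have hB1N := hpw B1 (by linarith) hB1'
  have hN0 : (0 : ℝ) ≤ N := Nat.cast_nonneg _
  have hlamK : 0 < lam ^ K := by positivity
  have hDK : (d : ℝ) ^ (c0 * (E * K)) = D ^ K := by rw [hD, ← pow_mul]; congr 1; ring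
  have hN1r : (d : ℝ) ^ (c0 * (E * K)) ≤ N * lam ^ K := by
    rw [hDK]
    have e1 : D ^ K = (4 * D) ^ K * (1 / 4) ^ K := by rw [← mul_pow]; congr 1; ring
    rw [e1]
    have e2 : (1 / 4 : ℝ) ^ K ≤ lam ^ K := pow_le_pow_left₀ (by norm_num) (by linarith) K
    exact mul_le_mul h4D e2 (by positivity) hN0
  have hN1 : d ^ (c0 * (E * K)) ≤ N := by
    have e1 : (d : ℝ) ^ (c0 * (E * K)) ≤ N := hN1r.trans (mul_le_of_le_one_right hN0 (pow_le_one₀ hlam0.le hlam1.le))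
    exact_mod_cast e1
  refine ⟨hN1, ?_⟩
  intro s hs z hz1 β hβ hβ1 hβ2 F hF1 hF2
  set N1 := d ^ (c0 * (E * K)) with hN1def
  set k := E * K with hk
  set R : ℝ := 2 ^ K with hR
  have hR1 : 1 ≤ R := one_le_pow₀ (by norm_num)
  have hdkN : d ^ k ≤ N := by
    have e1 : (d : ℝ) ^ k ≤ N := by
      refine le_trans ?_ hAN
      rw [hA, mul_pow, ← pow_mul, hk]
      exact le_mul_of_one_le_left (by positivity) (one_le_pow₀ (by norm_num))
    exact_mod_cast e1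
  have Kd := hkd s hs k N R hdkN hR1
  have hterm : ∀ n, ‖(F n : ℂ) * z n‖ ≤ 1 := by
    intro n
    rw [norm_mul, Complex.norm_real, Real.norm_eq_abs]
    have a := hF1 n
    have b := hz1 n
    nlinarith [norm_nonneg (z n), abs_nonneg (F n)]
  have htriv : ∀ S : Finset ℕ, ‖∑ n ∈ S, (F n : ℂ) * z n‖ ≤ S.card := by
    intro S
    refine (norm_sum_le _ _).trans ((sum_le_sum fun n _ => hterm n).trans ?_)
    rw [sum_const, nsmul_eq_mul, mul_one]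
  -- decomposition
  have hdec : ∑ n ∈ Icc 1 N, (F n : ℂ) * z n = ∑ n ∈ Icc 1 N1, (F n : ℂ) * z n
      + (∑ n ∈ GS (Gd d m r ρ R s k) N1 N, (F n : ℂ) * z n
        + ∑ n ∈ (Ioc N1 N).filter (fun n : ℕ => ¬ Gd d m r ρ R s k n), (F n : ℂ) * z n) := by
    have h1 : Icc 1 N = Icc 1 N1 ∪ Ioc N1 N := by
      ext n; simp only [mem_union, mem_Icc, mem_Ioc]; omega
    rw [h1, sum_union]
    · congr 1
      unfold GS
      rw [sum_filter_add_sum_filter_not]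
    · rw [Finset.disjoint_left]
      intro n hn hn'
      rw [mem_Icc] at hn
      rw [mem_Ioc] at hn'
      omega
  have p1 : ‖∑ n ∈ Icc 1 N1, (F n : ℂ) * z n‖ ≤ N * lam ^ K := by
    refine (htriv _).trans ?_
    rw [Nat.card_Icc, Nat.add_sub_cancel, hN1def]
    push_cast
    exact hN1r
  have hμK : R ^ (-lam') = μ ^ K := by
    rw [hR, hμ, ← Real.rpow_natCast, ← Real.rpow_natCast, ← Real.rpow_mul (by norm_num), ← Real.rpow_mul (by norm_num)]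
    congr 1; ring
  have hσk : σ ^ k ≤ lam ^ K := by
    have e1 : σ ^ k ≤ (1 / 4) ^ K := by rw [hk, pow_mul]; exact pow_le_pow_left₀ (by positivity) hEa K
    exact e1.trans (pow_le_pow_left₀ (by norm_num) (by linarith) K)
  have p2 : ‖∑ n ∈ (Ioc N1 N).filter (fun n : ℕ => ¬ Gd d m r ρ R s k n), (F n : ℂ) * z n‖ ≤ 2 * (1 + C0) * N * lam ^ K := by
    refine (htriv _).trans ((Kd.bad _ ?_).trans ?_)
    · intro n hn
      rw [mem_filter, mem_Ioc] at hn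
      exact ⟨⟨by omega, hn.1.2⟩, hn.2⟩
    · rw [hμK]
      have e1 : μ ^ K ≤ lam ^ K := pow_le_pow_left₀ hμ0.le (le_max_right _ _) K
      have e2 : σ ^ k + C0 * μ ^ K ≤ (1 + C0) * lam ^ K := by
        have := mul_le_mul_of_nonneg_left e1 hC0
        linarith
      calc 2 * (N : ℝ) * (σ ^ k + C0 * μ ^ K) ≤ 2 * N * ((1 + C0) * lam ^ K) := mul_le_mul_of_nonneg_left e2 (by positivity)
        _ = _ := by ring
  have p3 : ‖∑ n ∈ GS (Gd d m r ρ R s k) N1 N, (F n : ℂ) * z n‖ ≤ Real.sqrt (5 + 14 * C1) * C3 * N * lam ^ K := by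
    set G := GS (Gd d m r ρ R s k) N1 N with hG
    rw [← sum_fiberwise_of_maps_to (s := G) (t := Ms d m k) (g := fun n : ℕ => Mw m (wd d m r k (s * n)))
      (fun n _ => by
        unfold Ms
        exact mem_image_of_mem _ (wd_mem h.two_le k _))]
    have hone : ∀ M ∈ Ms d m k, ‖∑ n ∈ G.filter (fun n : ℕ => Mw m (wd d m r k (s * n)) = M), (F n : ℂ) * z n‖ ≤
        N * (Real.sqrt (5 + 14 * C1) * (3 / 4) ^ K) := by
      intro M _
      rcases (G.filter (fun n : ℕ => Mw m (wd d m r k (s * n)) = M)).eq_empty_or_nonempty with he | ⟨n0, hn0⟩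
      · rw [he, sum_empty, norm_zero]; positivity
      · rw [mem_filter, hG, mem_GS] at hn0
        obtain ⟨⟨_, g1, _⟩, g2⟩ := hn0
        rw [g2] at g1
        have hM1 : 1 ≤ |(M : ℝ)| := by rw [← g2]; exact one_le_Mw h k _
        have hM2 : |(M : ℝ)| ≤ (σ * d) ^ k := g1.trans (pow_le_pow_left₀ (by positivity) (by gcongr) k)
        have hset : G.filter (fun n : ℕ => Mw m (wd d m r k (s * n)) = M) = GS (GM d m r R s k M) N1 N := by
          ext n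
          rw [mem_filter, hG, mem_GS, mem_GS]
          unfold Gd GM
          constructor
          · rintro ⟨⟨a1, a2, a3⟩, a4⟩
            exact ⟨a1, a4, a3⟩
          · rintro ⟨a1, a2, a3⟩
            exact ⟨⟨a1, by rw [a2]; exact g1, a3⟩, a2⟩
        rw [hset]
        exact one_mult h hs hK hσ0 hP hEa hEb hA hC1 hAN hM1 hM2 hF1 hF2 hz1 hβ hβ1 hβ2
    refine (norm_sum_le _ _).trans ((sum_le_sum hone).trans ?_)
    rw [sum_const, nsmul_eq_mul]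
    have hcard : ((Ms d m k).card : ℝ) ≤ ((E * K : ℕ) + 1 : ℝ) ^ d := by
      have := card_Ms (d := d) (m := m) k
      exact_mod_cast this
    have e1 : (3 / 4 : ℝ) ^ K = (6 / 7) ^ K * (7 / 8) ^ K := by rw [← mul_pow]; norm_num
    have e2 : (7 / 8 : ℝ) ^ K ≤ lam ^ K := pow_le_pow_left₀ (by norm_num) hlam7 K
    calc ((Ms d m k).card : ℝ) * (N * (Real.sqrt (5 + 14 * C1) * (3 / 4) ^ K))
        ≤ ((E * K : ℕ) + 1 : ℝ) ^ d * (N * (Real.sqrt (5 + 14 * C1) * (3 / 4) ^ K)) :=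
          mul_le_mul_of_nonneg_right hcard (by positivity)
      _ = Real.sqrt (5 + 14 * C1) * (((E * K : ℕ) + 1 : ℝ) ^ d * (6 / 7) ^ K) * N * (7 / 8) ^ K := by rw [e1]; ring
      _ ≤ Real.sqrt (5 + 14 * C1) * C3 * N * lam ^ K := by
          have := hpoly K
          gcongr
  rw [hdec]
  have q1 := norm_add_le (∑ n ∈ Icc 1 N1, (F n : ℂ) * z n) (∑ n ∈ GS (Gd d m r ρ R s k) N1 N, (F n : ℂ) * z n
        + ∑ n ∈ (Ioc N1 N).filter (fun n : ℕ => ¬ Gd d m r ρ R s k n), (F n : ℂ) * z n)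
  have q2 := norm_add_le (∑ n ∈ GS (Gd d m r ρ R s k) N1 N, (F n : ℂ) * z n)
    (∑ n ∈ (Ioc N1 N).filter (fun n : ℕ => ¬ Gd d m r ρ R s k n), (F n : ℂ) * z n)
  linarith

end Pool.Agent.Run7.h792.FL
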