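import Pool.Agent.Run7.h792.FL.Scale

/-! The main theorem with exponents which do not depend on the modulus of the periodic weight. -/

set_option autoImplicit false

namespace Pool.Agent.Run7.h792.FL

open Finset Pool.Agent.H319R3.GC Pool.Agent.Y965.GP Pool.Agent.Run7.h439.DC

variable {d : ℕ} {m r : ℕ → ℤ}

/-- The main theorem, with exponents which do not depend on the modulus of the periodic weight. -/
theorem main2 (h : Adm d m r) (c0 k0 : ℕ) {ε : ℝ} (hε : 0 < ε) (hε1 : ε < 1) : ∃ η δ : ℝ, 0 < η ∧ 0 < δ ∧ ∀ e : ℕ, ∃ C : ℝ, 0 ≤ C ∧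
    ∀ s : ℤ, (s = 1 ∨ s = -1) → ∀ (N q : ℕ) [NeZero q], Nat.Coprime d q → (q : ℝ) ≤ (N : ℝ) ^ (1 - ε) →
      ∀ f : ZMod q → ℂ, FlatF q η f → ∀ w : ℕ → ℂ, (∀ n, ‖w n‖ ≤ 1) → (∀ n n' : ℕ, n ≡ n' [MOD d ^ e] → w n = w n') →
      ∀ F : ℕ → ℝ, KSyncN d m r s c0 k0 N F →
        ‖∑ n ∈ Icc 1 N, (F n : ℂ) * (w n * (f n - mean f))‖ ≤ C * N * (q : ℝ) ^ (-δ) := by
  obtain ⟨E, hEk, hE1, hlev⟩ := level h c0 k0 (P := 64) (by norm_num)
  have hd2 : (2 : ℝ) ≤ d := by exact_mod_cast h.two_le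
  have hd1 : (1 : ℝ) ≤ d := by linarith
  set A : ℝ := 4 * (d : ℝ) ^ E with hA
  have hdE : (1 : ℝ) ≤ (d : ℝ) ^ E := one_le_pow₀ hd1
  have hA1 : 1 ≤ A := by rw [hA]; linarith
  obtain ⟨a, ha⟩ := exists_nat_ge (1 / ε)
  have ha0 : (0 : ℝ) < a := lt_of_lt_of_le (by positivity) ha
  have haε : 1 / (a : ℝ) ≤ ε := by
    rw [div_le_iff₀ ha0]
    rw [div_le_iff₀ hε] at ha
    linarith
  obtain ⟨B, C, lam, hB1, hB, hAB, hC, hl0, hl1, H⟩ := hlev (A ^ a) 5 (one_le_pow₀ hA1) (by norm_num)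
  have hB0 : 0 < B := by linarith
  have hlB : 0 < Real.log B := Real.log_pos hB
  set η : ℝ := Real.log 2 / Real.log B with hη
  set δ : ℝ := -Real.log lam / Real.log B with hδ
  have hδ0 : 0 < δ := div_pos (neg_pos.2 (Real.log_neg hl0 hl1)) hlB
  have hη0 : 0 < η := div_pos (Real.log_pos (by norm_num)) hlB
  have hBη : ∀ K : ℕ, (B ^ K) ^ η = 2 ^ K := by
    intro K
    rw [← Real.rpow_natCast, ← Real.rpow_mul hB0.le, mul_comm, Real.rpow_mul hB0.le, Real.rpow_natCast]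
    congr 1
    rw [hη, Real.rpow_def_of_pos hB0, mul_div_cancel₀ _ hlB.ne', Real.exp_log (by norm_num)]
  have hBδ : ∀ K : ℕ, (B ^ K) ^ (-δ) = lam ^ K := by
    intro K
    rw [← Real.rpow_natCast, ← Real.rpow_mul hB0.le, mul_comm, Real.rpow_mul hB0.le, Real.rpow_natCast]
    congr 1
    rw [hδ, Real.rpow_def_of_pos hB0, neg_div, neg_neg, mul_div_cancel₀ _ hlB.ne', Real.exp_log hl0]
  refine ⟨η, δ, hη0, hδ0, fun e => ?_⟩
  refine ⟨(2 + 2 * C) / lam ^ (e + 1), by positivity, ?_⟩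
  intro s hs N q _ hdq hqN f hf w hw1 hw2 F hF
  have hq0 : 0 < q := Nat.pos_of_ne_zero (NeZero.ne q)
  have hqr : (0 : ℝ) < q := by exact_mod_cast hq0
  have hq1 : (1 : ℝ) ≤ q := by exact_mod_cast hq0
  have hN0 : (0 : ℝ) ≤ N := Nat.cast_nonneg _
  have hN1 : 1 ≤ N := by
    by_contra hcon
    have h0 : N = 0 := by omega
    subst h0
    rw [Nat.cast_zero, Real.zero_rpow (by linarith)] at hqN
    linarith
  have hNr : (1 : ℝ) ≤ N := by exact_mod_cast hN1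
  have hN0' : (0 : ℝ) < N := by linarith
  have hqN' : (q : ℝ) ≤ N := by
    refine hqN.trans ?_
    calc (N : ℝ) ^ (1 - ε) ≤ (N : ℝ) ^ (1 : ℝ) := Real.rpow_le_rpow_of_exponent_le hNr (by linarith)
      _ = N := Real.rpow_one _
  set g : ZMod q → ℂ := bal f with hg
  have hg1 : ∀ x, ‖g x‖ ≤ 1 := bal_norm hf.1
  set z : ℕ → ℂ := fun n => w n * g n with hz
  have hz1 : ∀ n, ‖z n‖ ≤ 1 := by
    intro n
    simp only [hz]
    rw [norm_mul]
    exact mul_le_one₀ (hw1 n) (norm_nonneg _) (hg1 _)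
  have hsum : ∑ n ∈ Icc 1 N, (F n : ℂ) * (w n * (f n - mean f)) = 2 * ∑ n ∈ Icc 1 N, (F n : ℂ) * z n := by
    rw [mul_sum]
    apply sum_congr rfl
    intro n _
    simp only [hz, hg]
    unfold bal
    ring
  have h2n : ‖(2 : ℂ)‖ = 2 := by simp
  obtain ⟨K, hK1, hK2⟩ := exists_nat_pow_near hq1 hB
  have hqδ : lam ^ (K + 1) ≤ (q : ℝ) ^ (-δ) := by
    rw [← hBδ]
    exact Real.rpow_le_rpow_of_nonpos hqr hK2.le (by linarith)
  rw [hsum, norm_mul, h2n]
  have hlame : (2 + 2 * C) / lam ≤ (2 + 2 * C) / lam ^ (e + 1) := by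
    apply div_le_div_of_nonneg_left (by positivity) (by positivity)
    rw [pow_succ]
    exact mul_le_of_le_one_left hl0.le (pow_le_one₀ hl0.le hl1.le)
  by_cases h0' : K = 0 ∨ K < e
  · -- the trivial case
    have h1 : ‖∑ n ∈ Icc 1 N, (F n : ℂ) * z n‖ ≤ N := by
      refine (norm_sum_le _ _).trans ((sum_le_sum (g := fun _ => (1 : ℝ)) fun n _ => ?_).trans ?_)
      · rw [norm_mul, Complex.norm_real, Real.norm_eq_abs]
        exact mul_le_one₀ (hF.1 n) (norm_nonneg _) (hz1 n)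
      · rw [sum_const, nsmul_eq_mul, mul_one, Nat.card_Icc, Nat.add_sub_cancel]
    have hKe : K + 1 ≤ e + 1 := by omega
    have h4 : lam ^ (e + 1) ≤ lam ^ (K + 1) := pow_le_pow_of_le_one hl0.le hl1.le hKe
    have h2 : 2 / lam ^ (e + 1) * N * lam ^ (e + 1) ≤ (2 + 2 * C) / lam ^ (e + 1) * N * (q : ℝ) ^ (-δ) := by
      have h5 := h4.trans hqδ
      have h6 : 2 / lam ^ (e + 1) ≤ (2 + 2 * C) / lam ^ (e + 1) := by
        apply div_le_div_of_nonneg_right _ (by positivity)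
        linarith
      exact mul_le_mul (mul_le_mul_of_nonneg_right h6 hN0) h5 (by positivity) (by positivity)
    have h3 : 2 / lam ^ (e + 1) * N * lam ^ (e + 1) = 2 * N := by field_simp
    linarith
  · have h0 : 0 < K := by
      by_contra hcon
      exact h0' (Or.inl (by omega))
    have heK : e ≤ K := by
      by_contra hcon
      exact h0' (Or.inr (by omega))
    have hBN : B ^ K ≤ (N : ℝ) := hK1.trans hqN'
    obtain ⟨hc1, hc2⟩ := H K N h0 hBN
    set D : ℝ := (d : ℝ) ^ (E * K) with hD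
    have hD1 : 1 ≤ D := one_le_pow₀ hd1
    have hD0 : 0 < D := by linarith
    have hDA : A ^ K = 4 ^ K * D := by rw [hA, mul_pow, ← pow_mul]
    -- `A ^ K ≤ q ^ ε`
    have hAq : A ^ K ≤ (q : ℝ) ^ ε := by
      have h1 : (A ^ K) ^ (a : ℝ) ≤ q := by
        rw [Real.rpow_natCast, ← pow_mul, mul_comm, pow_mul]
        exact (pow_le_pow_left₀ (by positivity) hB1 K).trans hK1
      have h2 : A ^ K ≤ (q : ℝ) ^ (1 / (a : ℝ)) := by
        have h3 := Real.rpow_le_rpow (by positivity) h1 (show 0 ≤ 1 / (a : ℝ) by positivity)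
        rwa [← Real.rpow_mul (by positivity), mul_one_div_cancel ha0.ne', Real.rpow_one] at h3
      exact h2.trans (Real.rpow_le_rpow_of_exponent_le hq1 haε)
    have hAqq : A ^ K ≤ q := by
      refine hAq.trans ?_
      calc (q : ℝ) ^ ε ≤ (q : ℝ) ^ (1 : ℝ) := Real.rpow_le_rpow_of_exponent_le hq1 hε1.le
        _ = q := Real.rpow_one _
    have hAqN : A ^ K * q ≤ N := by
      calc A ^ K * q ≤ (q : ℝ) ^ ε * q := by gcongr
        _ ≤ (N : ℝ) ^ ε * (N : ℝ) ^ (1 - ε) := by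
          apply mul_le_mul _ hqN hqr.le (by positivity)
          exact Real.rpow_le_rpow hqr.le hqN' hε.le
        _ = N := by
          rw [← Real.rpow_add hN0']
          norm_num
    have hDN : D ≤ N := by
      have h1 : D ≤ A ^ K := by
        rw [hDA]; exact le_mul_of_one_le_left hD0.le (one_le_pow₀ (by norm_num))
      exact h1.trans (hAqq.trans hqN')
    have hηq : (q : ℝ) ^ η ≤ 2 * 2 ^ K := by
      calc (q : ℝ) ^ η ≤ (B ^ (K + 1)) ^ η := Real.rpow_le_rpow hqr.le hK2.le hη0.le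
        _ = 2 ^ (K + 1) := hBη _
        _ = 2 * 2 ^ K := by rw [pow_succ]; ring
    set M : ℝ := (q : ℝ) ^ (1 / 2 + η) with hM
    have hM0 : 0 ≤ M := by positivity
    have hMq : M * Real.sqrt q = q * (q : ℝ) ^ η := by
      rw [hM, Real.rpow_add hqr, ← Real.sqrt_eq_rpow]
      calc Real.sqrt q * (q : ℝ) ^ η * Real.sqrt q = (Real.sqrt q * Real.sqrt q) * (q : ℝ) ^ η := by ring
        _ = _ := by rw [Real.mul_self_sqrt hqr.le]
    set β : ℕ → ℝ := fun t => ((N : ℝ) / D + 1) / q * ‖ac g ((t : ℕ) : ZMod q)‖ + q with hβ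
    have hβ0 : ∀ t, 0 ≤ β t := fun t => by positivity
    have hcop : Nat.Coprime (d ^ (E * K)) q := Nat.Coprime.pow_left _ hdq
    have hdvd : d ^ e ∣ d ^ (E * K) := by
      apply pow_dvd_pow
      exact heK.trans (Nat.le_mul_of_pos_left K (by omega))
    have hcorr : ∀ t : ℕ, 1 ≤ t → (t : ℝ) ≤ A ^ K → ∀ m0 J : ℕ, (∀ j < J, m0 + d ^ (E * K) * j + t ≤ N) →
        ‖∑ j ∈ range J, z (m0 + d ^ (E * K) * j) * (starRingEnd ℂ) (z (m0 + d ^ (E * K) * j + t))‖ ≤ β t := by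
      intro t _ _ m0 J hJ
      have e1 : ∑ j ∈ range J, z (m0 + d ^ (E * K) * j) * (starRingEnd ℂ) (z (m0 + d ^ (E * K) * j + t)) =
          (w m0 * (starRingEnd ℂ) (w (m0 + t))) * ∑ j ∈ range J, g ((m0 + d ^ (E * K) * j : ℕ) : ZMod q) *
            (starRingEnd ℂ) (g ((m0 + d ^ (E * K) * j : ℕ) + (t : ZMod q))) := by
        rw [mul_sum]
        apply sum_congr rfl
        intro j _
        simp only [hz]
        have w1 : w (m0 + d ^ (E * K) * j) = w m0 := by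
          apply hw2
          have : d ^ (E * K) * j ≡ 0 [MOD d ^ e] := (Nat.modEq_zero_iff_dvd).2 (hdvd.mul_right j)
          simpa using this.add_left m0
        have w2 : w (m0 + d ^ (E * K) * j + t) = w (m0 + t) := by
          apply hw2
          have : d ^ (E * K) * j ≡ 0 [MOD d ^ e] := (Nat.modEq_zero_iff_dvd).2 (hdvd.mul_right j)
          have h3 := (this.add_left m0).add_right t
          simpa using h3
        rw [w1, w2, map_mul]
        push_cast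
        ring
      rw [e1, norm_mul]
      have hww : ‖w m0 * (starRingEnd ℂ) (w (m0 + t))‖ ≤ 1 := by
        rw [norm_mul, RCLike.norm_conj]
        exact mul_le_one₀ (hw1 _) (norm_nonneg _) (hw1 _)
      have hp := prog g hg1 hcop m0 J (t : ZMod q)
      have hJN : (J : ℝ) ≤ (N : ℝ) / D + 1 := by
        rcases Nat.eq_zero_or_pos J with hj | hj
        · subst hj
          have : 0 ≤ (N : ℝ) / D := by positivity
          push_cast
          linarith
        · have h1 := hJ (J - 1) (by omega)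
          have h2 : d ^ (E * K) * (J - 1) ≤ N := by omega
          have h3 : D * ((J : ℝ) - 1) ≤ N := by
            have : (((d ^ (E * K) * (J - 1) : ℕ)) : ℝ) ≤ N := by exact_mod_cast h2
            rw [Nat.cast_mul, Nat.cast_sub hj, Nat.cast_pow, Nat.cast_one] at this
            exact this
          have h4 : (J : ℝ) - 1 ≤ N / D := by
            rw [le_div_iff₀ hD0]; linarith
          linarith
      calc ‖w m0 * (starRingEnd ℂ) (w (m0 + t))‖ * ‖∑ j ∈ range J, g ((m0 + d ^ (E * K) * j : ℕ) : ZMod q) *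
            (starRingEnd ℂ) (g ((m0 + d ^ (E * K) * j : ℕ) + (t : ZMod q)))‖
          ≤ 1 * ((J : ℝ) / q * ‖ac g (t : ZMod q)‖ + q) := mul_le_mul hww hp (norm_nonneg _) (by norm_num)
        _ ≤ β t := by
          rw [one_mul]
          simp only [hβ]
          gcongr
    have hsumβ : ∀ X : ℝ, (64 : ℝ) ^ K ≤ X → X ≤ A ^ K →
        (d : ℝ) ^ (E * K) * ∑ t ∈ Icc 1 ⌊X⌋₊, β t ≤ 5 * (1 / 4) ^ K * N * X := by
      intro X hX1 hX2
      have hX0 : 0 < X := lt_of_lt_of_le (by positivity) hX1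
      have hXf : ((⌊X⌋₊ : ℕ) : ℝ) ≤ X := Nat.floor_le hX0.le
      have hfq : ⌊X⌋₊ ≤ q := by
        have : ((⌊X⌋₊ : ℕ) : ℝ) ≤ q := hXf.trans (hX2.trans hAqq)
        exact_mod_cast this
      have hs1 := ac_short g hg1 hM0 (fun ξ => ft_bal hf ξ) ⌊X⌋₊ hfq
      have hs2 : ∑ t ∈ Icc 1 ⌊X⌋₊, ‖ac g ((t : ℕ) : ZMod q)‖ ≤ Real.sqrt X * (q * (2 * 2 ^ K)) := by
        refine hs1.trans ?_
        rw [hMq]
        gcongr
      have hsplit : ∑ t ∈ Icc 1 ⌊X⌋₊, β t = ((N : ℝ) / D + 1) / q * ∑ t ∈ Icc 1 ⌊X⌋₊, ‖ac g ((t : ℕ) : ZMod q)‖ + ⌊X⌋₊ * q := by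
        simp only [hβ]
        rw [sum_add_distrib, ← mul_sum, sum_const, Nat.card_Icc, Nat.add_sub_cancel, nsmul_eq_mul]
      have hsq : Real.sqrt X * 8 ^ K ≤ X := by
        have h1 : (8 : ℝ) ^ K ≤ Real.sqrt X := by
          apply Real.le_sqrt_of_sq_le
          rw [← pow_mul, mul_comm, pow_mul]
          norm_num
          exact hX1
        calc Real.sqrt X * 8 ^ K ≤ Real.sqrt X * Real.sqrt X := by gcongr
          _ = X := Real.mul_self_sqrt hX0.le
      have h8 : (8 : ℝ) ^ K * (1 / 4) ^ K = 2 ^ K := by rw [← mul_pow]; norm_num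
      have h44 : (4 : ℝ) ^ K * (1 / 4) ^ K = 1 := by rw [← mul_pow]; norm_num
      rw [hsplit, mul_add, ← hD]
      have t1 : D * (((N : ℝ) / D + 1) / q * ∑ t ∈ Icc 1 ⌊X⌋₊, ‖ac g ((t : ℕ) : ZMod q)‖) ≤ 4 * (1 / 4) ^ K * N * X := by
        calc D * (((N : ℝ) / D + 1) / q * ∑ t ∈ Icc 1 ⌊X⌋₊, ‖ac g ((t : ℕ) : ZMod q)‖)
            ≤ D * (((N : ℝ) / D + 1) / q * (Real.sqrt X * (q * (2 * 2 ^ K)))) := by gcongr
          _ = (N + D) * (Real.sqrt X * (2 * 2 ^ K)) := by field_simp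
          _ ≤ (N + N) * (Real.sqrt X * (2 * 2 ^ K)) := by gcongr
          _ = 4 * (1 / 4) ^ K * N * (Real.sqrt X * 8 ^ K) := by rw [← h8]; ring
          _ ≤ _ := by gcongr
      have t2 : D * (⌊X⌋₊ * q) ≤ 1 * (1 / 4) ^ K * N * X := by
        calc D * (⌊X⌋₊ * q) ≤ D * (X * q) := by gcongr
          _ = (4 ^ K * (1 / 4) ^ K) * (D * (X * q)) := by rw [h44, one_mul]
          _ = (1 / 4) ^ K * (A ^ K * q) * X := by rw [hDA]; ring
          _ ≤ (1 / 4) ^ K * N * X := by gcongr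
          _ = _ := by ring
      linarith
    have hk0 : k0 ≤ E * K := hEk.trans (Nat.le_mul_of_pos_right E h0)
    have hfin := hc2 s hs z hz1 β hβ0 hcorr hsumβ F hF.1 (fun n n' hn hn' hkk => hF.2 (E * K) hk0 hc1 n n' hn hn' hkk)
    calc 2 * ‖∑ n ∈ Icc 1 N, (F n : ℂ) * z n‖ ≤ 2 * (C * N * lam ^ K) := by gcongr
      _ = (2 * C) / lam * N * lam ^ (K + 1) := by rw [pow_succ]; field_simp
      _ ≤ (2 + 2 * C) / lam * N * (q : ℝ) ^ (-δ) := by
        gcongr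
        linarith
      _ ≤ (2 + 2 * C) / lam ^ (e + 1) * N * (q : ℝ) ^ (-δ) := by
        gcongr

/-- The transfer, with exponents which do not depend on `e`. -/
theorem scaleE (h : Adm d m r) (c0 k0 : ℕ) {ε : ℝ} (hε : 0 < ε) (hε1 : ε < 1) : ∃ η c : ℝ, 0 < η ∧ 0 < c ∧ c < 1 ∧
    ∀ e : ℕ, ∃ C : ℝ, 0 ≤ C ∧ SF d m r c0 k0 e ε η c C := by
  obtain ⟨η, δ, hη, hδ, H₀⟩ := main2 h c0 k0 (ε := ε / 2) (by linarith) (by linarith)
  set c : ℝ := min (ε * δ) (ε / 2) with hc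
  have hc0 : 0 < c := lt_min (by positivity) (by linarith)
  have hc1 : c < 1 := lt_of_le_of_lt (min_le_right _ _) (by linarith)
  refine ⟨η, c, hη, hc0, hc1, fun e => ?_⟩
  obtain ⟨C, hC, H⟩ := H₀ e
  refine ⟨C + 2, by linarith, ?_⟩
  intro s hs N q _ hN hdq hq1 hq2 f hf w hw1 hw2 F hF u hu
  have hNr : (1 : ℝ) ≤ N := by exact_mod_cast hN
  have hN0 : (0 : ℝ) < N := by linarith
  have hqr : (0 : ℝ) < q := by exact_mod_cast Nat.pos_of_ne_zero (NeZero.ne q)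
  have hur : (u : ℝ) ≤ N := by exact_mod_cast hu
  have hu0 : (0 : ℝ) ≤ u := Nat.cast_nonneg _
  by_cases hcase : (q : ℝ) ≤ (u : ℝ) ^ (1 - ε / 2)
  · have h1 := H s hs u q hdq hcase f hf w hw1 hw2 F (hF.toN u)
    refine h1.trans ?_
    have h2 : (q : ℝ) ^ (-δ) ≤ (N : ℝ) ^ (-c) := by
      calc (q : ℝ) ^ (-δ) ≤ ((N : ℝ) ^ ε) ^ (-δ) := Real.rpow_le_rpow_of_nonpos (by positivity) hq1 (by linarith)
        _ = (N : ℝ) ^ (-(ε * δ)) := by rw [← Real.rpow_mul hN0.le]; ring_nf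
        _ ≤ (N : ℝ) ^ (-c) := Real.rpow_le_rpow_of_exponent_le hNr (neg_le_neg (min_le_left _ _))
    have h3 : (N : ℝ) * (N : ℝ) ^ (-c) = (N : ℝ) ^ (1 - c) := by
      rw [sub_eq_add_neg, Real.rpow_add hN0, Real.rpow_one]
    calc C * u * (q : ℝ) ^ (-δ) ≤ C * N * (N : ℝ) ^ (-c) := by gcongr
      _ = C * (N : ℝ) ^ (1 - c) := by rw [mul_assoc, h3]
      _ ≤ (C + 2) * (N : ℝ) ^ (1 - c) := by gcongr; linarith
  · push Not at hcase
    have h1 : (u : ℝ) ≤ (N : ℝ) ^ (1 - ε / 2) := by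
      by_contra hcon
      push Not at hcon
      have h2 : (N : ℝ) ^ (1 - ε) ≤ (u : ℝ) ^ (1 - ε / 2) := by
        calc (N : ℝ) ^ (1 - ε) ≤ (N : ℝ) ^ ((1 - ε / 2) * (1 - ε / 2)) :=
              Real.rpow_le_rpow_of_exponent_le hNr (by nlinarith [sq_nonneg ε])
          _ = ((N : ℝ) ^ (1 - ε / 2)) ^ (1 - ε / 2) := by rw [Real.rpow_mul hN0.le]
          _ ≤ _ := Real.rpow_le_rpow (by positivity) hcon.le (by linarith)
      linarith
    have h2 : (u : ℝ) ≤ (N : ℝ) ^ (1 - c) :=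
      h1.trans (Real.rpow_le_rpow_of_exponent_le hNr (by linarith [min_le_right (ε * δ) (ε / 2)]))
    have t1 : ‖∑ n ∈ Icc 1 u, (F n : ℂ) * (w n * (f n - mean f))‖ ≤ u * 2 := by
      refine (norm_sum_le _ _).trans ((sum_le_sum (g := fun _ => (2 : ℝ)) fun n _ => ?_).trans ?_)
      · rw [norm_mul, norm_mul, Complex.norm_real, Real.norm_eq_abs]
        have a1 := hF.1 n
        have a2 := hw1 n
        have a3 : ‖f n - mean f‖ ≤ 2 := by
          have b1 := norm_sub_le (f n) (mean f)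
          have b2 := hf.1 n
          have b3 := mean_norm hf.1
          linarith
        calc |F n| * (‖w n‖ * ‖f n - mean f‖) ≤ 1 * (1 * 2) := by gcongr
          _ = 2 := by norm_num
      · rw [sum_const, nsmul_eq_mul, Nat.card_Icc, Nat.add_sub_cancel]
    refine t1.trans ?_
    calc (u : ℝ) * 2 ≤ (N : ℝ) ^ (1 - c) * 2 := by gcongr
      _ ≤ (C + 2) * (N : ℝ) ^ (1 - c) := by nlinarith [Real.rpow_nonneg hN0.le (1 - c)]

end Pool.Agent.Run7.h792.FL
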