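import Pool.Agent.Run7.h792.FL.Approx
import Pool.Agent.Run7.h792.FL.Inv

/-! Odd integers: invariant sets and first entrances for the `3x+1` map, against functions modulo `q`. -/

set_option autoImplicit false

namespace Pool.Agent.Run7.h792.FL

open Finset Filter Topology Pool.Agent.H319R3.GC Pool.Agent.Run7.h439.DC
open Pool.Agent.Y965.PS (Tz)
open Pool.Agent.Y965.PL (Mn ind ind_pos ind_neg ind_congr ind_nonneg)

theorem ksync_mono {d : ℕ} {m r : ℕ → ℤ} {s : ℤ} {c0 k0 c0' k0' : ℕ} {F : ℕ → ℝ} (hd : 1 ≤ d) (hc : c0 ≤ c0') (hk : k0 ≤ k0')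
    (h : KSync d m r s c0 k0 F) : KSync d m r s c0' k0' F := by
  refine ⟨h.1, fun k hk0 n n' hn hn' he => h.2 k (hk.trans hk0) n n' ?_ ?_ he⟩
  · exact lt_of_le_of_lt (Nat.pow_le_pow_right hd (Nat.mul_le_mul_right k hc)) hn
  · exact lt_of_le_of_lt (Nat.pow_le_pow_right hd (Nat.mul_le_mul_right k hc)) hn'

/-- first entrances -/
theorem ksync_fb (R : ℕ) : ∃ k0 : ℕ, ∀ s : ℤ, (s = 1 ∨ s = -1) → ∀ A : ℤ → Prop, (∀ x, A x → |x| ≤ (R : ℤ)) →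
    ∀ (B : Set (ℕ × ℤ)), KSync 2 m3 (r3 1) s 2 k0
      (ind (fun n : ℕ => ∃ k, FE (Tz 1) A k (s * (n : ℤ)) ∧ (k, (Tz 1)^[k] (s * (n : ℤ))) ∈ B)) := by
  classical
  obtain ⟨k0, hk0⟩ := ksync_fe (adm3 (k := 1) odd_one) R
  refine ⟨k0, fun s hs A hA B => ?_⟩
  set P : ℕ → Prop := fun n => ∃ k, FE (Tz 1) A k (s * (n : ℤ)) ∧ (k, (Tz 1)^[k] (s * (n : ℤ))) ∈ B with hP
  have hEF : EF 2 m3 (r3 1) s A (ind P) := by
    refine ⟨fun n => by unfold ind; split_ifs <;> simp, fun k n n' h1 h2 _ h4 => ?_, fun n n' h1 h2 => ?_⟩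
    · rw [Tm3] at h1 h2 h4
      apply ind_congr
      constructor
      · rintro ⟨j, hj, hB⟩
        have := FE_unique hj h1
        subst this
        exact ⟨j, h2, by rw [← h4]; exact hB⟩
      · rintro ⟨j, hj, hB⟩
        have := FE_unique hj h2
        subst this
        exact ⟨j, h1, by rw [h4]; exact hB⟩
    · rw [Tm3] at h1 h2
      rw [ind_neg (P := P), ind_neg (P := P)]
      · rintro ⟨j, hj, _⟩; exact h2 j hj
      · rintro ⟨j, hj, _⟩; exact h1 j hj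
  exact hk0 s hs A hA _ hEF

/-- sums over odd integers -/
theorem SF.odd {c0 k0 : ℕ} {ε η c C : ℝ} (S : SF 2 m3 (r3 1) c0 k0 1 ε η c C) {s : ℤ} (hs : s = 1 ∨ s = -1)
    {N q : ℕ} (hN : 1 ≤ N) (hq : Odd q) (h1 : (N : ℝ) ^ ε ≤ q)
    (h2 : (q : ℝ) ≤ (N : ℝ) ^ (1 - ε)) {g : ℕ → ℂ} (hg : FlatP q η g) {P Q : ℕ → Prop}
    (hQ : KSync 2 m3 (r3 1) s c0 k0 (ind Q)) (hPQ : ∀ n, n % 2 = 1 → (Q n ↔ P n)) {X : ℕ} (hX : X ≤ N) :
    ‖∑ᶠ n ∈ {n : ℕ | n ≤ X ∧ n % 2 = 1 ∧ P n}, (g n - meanP q g)‖ ≤ C * (N : ℝ) ^ (1 - c) := by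
  classical
  have h3 := S.fun hs hN hq.pos (Nat.coprime_two_left.2 hq) h1 h2 hg (w := fun n => if n % 2 = 1 then 1 else 0)
    (fun n => by split_ifs <;> simp) (fun n n' hn => by
      have h4 : n % 2 = n' % 2 := by
        have : n % 2 ^ 1 = n' % 2 ^ 1 := hn
        simpa using this
      simp only [h4]) hQ hX
  have e : ∑ᶠ n ∈ {n : ℕ | n ≤ X ∧ n % 2 = 1 ∧ P n}, (g n - meanP q g) =
      ∑ n ∈ Finset.Icc 1 X, ((ind Q n : ℝ) : ℂ) * ((if n % 2 = 1 then 1 else 0) * (g n - meanP q g)) := by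
    rw [finsum_mem_eq_finite_toFinset_sum _ ((Set.finite_Iic X).subset fun n hn => hn.1)]
    have e : ((Set.finite_Iic X).subset fun n (hn : n ∈ {n : ℕ | n ≤ X ∧ n % 2 = 1 ∧ P n}) => hn.1).toFinset
        = (Finset.Icc 1 X).filter (fun n : ℕ => n % 2 = 1 ∧ Q n) := by
      ext n
      simp only [Set.Finite.mem_toFinset, Set.mem_ofPred_eq, Finset.mem_filter, Finset.mem_Icc]
      constructor
      · rintro ⟨g1, g2, g3⟩
        exact ⟨⟨by omega, g1⟩, g2, (hPQ n g2).2 g3⟩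
      · rintro ⟨⟨_, g1⟩, g2, g3⟩
        exact ⟨g1, g2, (hPQ n g2).1 g3⟩
    rw [e, Finset.sum_filter]
    apply Finset.sum_congr rfl
    intro n _
    by_cases h5 : n % 2 = 1
    · by_cases h6 : Q n
      · rw [if_pos ⟨h5, h6⟩, ind_pos h6, if_pos h5]; simp
      · rw [if_neg (fun h => h6 h.2), ind_neg h6]; simp
    · rw [if_neg (fun h => h5 h.1), if_neg h5]; simp
  rw [e]
  exact h3

/-- odd integers in flat sets -/
theorem SF.oddset {c0 k0 : ℕ} {ε η c C : ℝ} (S : SF 2 m3 (r3 1) c0 k0 1 ε η c C) {s : ℤ} (hs : s = 1 ∨ s = -1)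
    {N q : ℕ} (hN : 1 ≤ N) (hq : Odd q) (h1 : (N : ℝ) ^ ε ≤ q)
    (h2 : (q : ℝ) ≤ (N : ℝ) ^ (1 - ε)) {A : Finset ℕ} (hA : FlatI q η A) {P Q : ℕ → Prop}
    (hQ : KSync 2 m3 (r3 1) s c0 k0 (ind Q)) (hPQ : ∀ n, n % 2 = 1 → (Q n ↔ P n)) :
    TS N (fun n => n % q ∈ A) (A.card / q) (C * (N : ℝ) ^ (1 - c)) (ind (fun n => n % 2 = 1 ∧ P n)) := by
  refine (S.setw hs hN hq.pos (Nat.coprime_two_left.2 hq) h1 h2 hA (P := fun n => n % 2 = 1) (fun n => ?_) hQ).congr fun n => ?_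
  · rw [pow_one, Nat.mod_mod]
  · exact ind_congr (and_congr_right fun hn => hPQ n hn)

end Pool.Agent.Run7.h792.FL
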